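import Pool.Agent.J4H43.FR.Fl

/-!
# The module of polynomials over the free algebra on `e_0, e_1, …`
-/

set_option autoImplicit false

namespace Pool.Agent.J4H43.FR

open Polynomial Pool.Agent.Helper392_GT

universe u v

attribute [local instance 100] LieRing.ofAssociativeRing

section bz

variable (k : Type u) [Field k]

/-- the free algebra on letters `e_a` -/
abbrev BB : Type u := FreeAlgebra k ℕ

/-- the letters -/
noncomputable abbrev ee (a : ℕ) : BB k := FreeAlgebra.ι k a

variable {k}

/-- `F ↦ ∑ e_a F_a` -/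
noncomputable def kap : (BB k)[X] →ₗ[k] BB k :=
  Polynomial.lsum (fun a => LinearMap.mulLeft k (ee k a))

theorem kap_apply (F : (BB k)[X]) : kap F = F.sum fun a c => ee k a * c := rfl

theorem kap_monomial (a : ℕ) (c : BB k) : kap (monomial a c) = ee k a * c := by
  rw [kap_apply, sum_monomial_index]
  rw [mul_zero]

theorem kap_C (c : BB k) : kap (C c) = ee k 0 * c := by
  rw [← monomial_zero_left, kap_monomial]

theorem kap_one : kap (1 : (BB k)[X]) = ee k 0 := by
  rw [← C_1, kap_C, mul_one]

theorem kap_mul_C (F : (BB k)[X]) (b : BB k) : kap (F * C b) = kap F * b := by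
  induction F using Polynomial.induction_on' with
  | add p q hp hq => rw [add_mul, map_add, hp, hq, map_add, add_mul]
  | monomial n a => rw [monomial_mul_C, kap_monomial, kap_monomial, mul_assoc]

/-- multiplication by the variable -/
noncomputable def xh : Module.End k (BB k)[X] := LinearMap.mulLeft k X

theorem xh_apply (F : (BB k)[X]) : xh F = X * F := rfl

/-- `F ↦ ∑ e_a F_a`, as a constant polynomial -/
noncomputable def yh : Module.End k (BB k)[X] where
  toFun F := C (kap F)
  map_add' F G := by rw [map_add, C_add]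
  map_smul' c F := by rw [map_smul, RingHom.id_apply, smul_C]

theorem yh_apply (F : (BB k)[X]) : yh F = C (kap F) := rfl

/-- the commutation of an endomorphism with right multiplications -/
def RL (T : Module.End k (BB k)[X]) : Prop := ∀ F b, T (F * C b) = T F * C b

theorem RL_xh : RL (xh (k := k)) := fun F b => by rw [xh_apply, xh_apply, mul_assoc]

theorem RL_yh : RL (yh (k := k)) := fun F b => by
  rw [yh_apply, yh_apply, kap_mul_C, C_mul]

/-- the representation of the free associative algebra in `x, y` -/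
noncomputable def rh : FreeAlgebra k (Fin 2) →ₐ[k] Module.End k (BB k)[X] :=
  FreeAlgebra.lift k ![xh, yh]

theorem rh_0 : rh (FreeAlgebra.ι k 0) = xh (k := k) := by
  rw [rh, FreeAlgebra.lift_ι_apply]; rfl

theorem rh_1 : rh (FreeAlgebra.ι k 1) = yh (k := k) := by
  rw [rh, FreeAlgebra.lift_ι_apply]; rfl

theorem RL_rh (g : FreeAlgebra k (Fin 2)) : RL (rh g) := by
  refine left_ind (fun g => RL (rh g)) ?_ ?_ ?_ ?_ g
  · intro F b; rw [map_one]; rfl
  · intro a b ha hb F c
    rw [map_add, LinearMap.add_apply, LinearMap.add_apply, ha, hb, add_mul]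
  · intro r a ha F c
    rw [map_smul, LinearMap.smul_apply, LinearMap.smul_apply, ha, smul_mul_assoc]
  · intro i a ha F c
    rw [map_mul rh, Module.End.mul_apply, Module.End.mul_apply, ha]
    fin_cases i
    · change rh (FreeAlgebra.ι k 0) _ = rh (FreeAlgebra.ι k 0) _ * _
      rw [rh_0, RL_xh]
    · change rh (FreeAlgebra.ι k 1) _ = rh (FreeAlgebra.ι k 1) _ * _
      rw [rh_1, RL_yh]

/-- the filtration by the length -/
def Fz (k : Type u) [Field k] (n : ℕ) : Submodule k (BB k)[X] where
  carrier := {F | ∀ j, j < n → ∀ a, hc j (F.coeff a) = 0}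
  add_mem' := by
    intro F G hF hG j hj a
    rw [coeff_add, map_add, hF j hj a, hG j hj a, add_zero]
  zero_mem' := by
    intro j _ a
    rw [coeff_zero, map_zero]
  smul_mem' := by
    intro c F hF j hj a
    rw [coeff_smul, map_smul, hF j hj a, smul_zero]

theorem mem_Fz {n : ℕ} {F : (BB k)[X]} :
    F ∈ Fz k n ↔ ∀ j, j < n → ∀ a, hc j (F.coeff a) = 0 := Iff.rfl

theorem Fz_anti : Antitone (Fz k) := fun _ _ h _ hF j hj a => hF j (by omega) a

theorem Fz_zero (F : (BB k)[X]) : F ∈ Fz k 0 := fun j hj => absurd hj (Nat.not_lt_zero j)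

theorem hc_succ_kap (j : ℕ) (F : (BB k)[X]) :
    hc (j + 1) (kap F) = F.sum fun a c => ee k a * hc j c := by
  rw [kap_apply, Polynomial.sum, Polynomial.sum, map_sum]
  exact Finset.sum_congr rfl fun a _ => hc_ι_mul j a _

theorem hc_zero_kap (F : (BB k)[X]) : hc 0 (kap F) = 0 := by
  rw [kap_apply, Polynomial.sum, map_sum]
  exact Finset.sum_eq_zero fun a _ => hc_zero_ι_mul a _

theorem hc_kap {n : ℕ} {F : (BB k)[X]} (hF : F ∈ Fz k n) {j : ℕ} (hj : j < n + 1) :
    hc j (kap F) = 0 := by
  cases j with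
  | zero => exact hc_zero_kap F
  | succ j =>
    rw [hc_succ_kap, Polynomial.sum]
    exact Finset.sum_eq_zero fun a _ => by rw [hF j (by omega) a, mul_zero]

theorem Rs_xh : Rs (Fz k) 0 (xh (k := k)) := by
  intro n F hF j hj a
  rw [xh_apply]
  cases a with
  | zero => rw [coeff_X_mul_zero, map_zero]
  | succ a => rw [coeff_X_mul]; exact hF j hj a

theorem Rs_yh : Rs (Fz k) 1 (yh (k := k)) := by
  intro n F hF j hj a
  rw [yh_apply, coeff_C]
  split_ifs
  · exact hc_kap hF hj
  · rw [map_zero]

theorem hc_mul_lt {p q : ℕ} {a b : BB k} (ha : ∀ j, j < p → hc j a = 0)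
    (hb : ∀ j, j < q → hc j b = 0) {j : ℕ} (hj : j < p + q) : hc j (a * b) = 0 := by
  rw [hc_mul]
  apply Finset.sum_eq_zero
  rintro ⟨i, l⟩ hil
  rw [Finset.HasAntidiagonal.mem_antidiagonal] at hil
  change hc i a * hc l b = 0
  simp only at hil
  by_cases h : i < p
  · rw [ha i h, zero_mul]
  · rw [hb l (by omega), mul_zero]

theorem hc_mul_eq {p q : ℕ} {a b : BB k} (ha : ∀ j, j < p → hc j a = 0)
    (hb : ∀ j, j < q → hc j b = 0) : hc (p + q) (a * b) = hc p a * hc q b := by
  rw [hc_mul, Finset.sum_eq_single (p, q)]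
  · rintro ⟨i, l⟩ hil hne
    rw [Finset.HasAntidiagonal.mem_antidiagonal] at hil
    change hc i a * hc l b = 0
    simp only at hil
    by_cases h : i < p
    · rw [ha i h, zero_mul]
    · by_cases h2 : l < q
      · rw [hb l h2, mul_zero]
      · exfalso
        apply hne
        have h3 : i = p := by omega
        have h4 : l = q := by omega
        rw [h3, h4]
  · intro h
    exact absurd (Finset.HasAntidiagonal.mem_antidiagonal.mpr
      (show (p, q).1 + (p, q).2 = p + q from rfl)) h

theorem Fz_mul {p q : ℕ} {F G : (BB k)[X]} (hF : F ∈ Fz k p) (hG : G ∈ Fz k q) :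
    F * G ∈ Fz k (p + q) := by
  intro j hj a
  rw [coeff_mul, map_sum]
  exact Finset.sum_eq_zero fun x _ => hc_mul_lt (fun i hi => hF i hi _) (fun i hi => hG i hi _) hj

/-- the value on `1` -/
noncomputable def Ph (ψ : F2 k) : (BB k)[X] := subst k (xh : Module.End k (BB k)[X]) yh ψ 1

theorem subst_rh (ψ : F2 k) : subst k (xh : Module.End k (BB k)[X]) yh ψ = rh (toAssoc k ψ) :=
  subst_eq_lift _ _ ψ

theorem Ph_eq (ψ : F2 k) : Ph ψ = rh (toAssoc k ψ) 1 := by rw [Ph, subst_rh]

theorem Ph_add (ψ φ : F2 k) : Ph (ψ + φ) = Ph ψ + Ph φ := by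
  rw [Ph, map_add]; rfl

theorem Ph_smul (c : k) (ψ : F2 k) : Ph (c • ψ) = c • Ph ψ := by
  rw [Ph, map_smul]; rfl

theorem Ph_sub (ψ φ : F2 k) : Ph (ψ - φ) = Ph ψ - Ph φ := by
  rw [Ph, map_sub]; rfl

theorem Ph_mem {d : ℕ} {ψ : F2 k} (h : DepthGE k d ψ) : Ph ψ ∈ Fz k d := by
  have := Rs_subst Fz_anti h Rs_xh Rs_yh 0 (1 : (BB k)[X]) (Fz_zero _)
  rwa [zero_add] at this

end bz

section dict

variable {k : Type u} [Field k]

/-- the word `x^a (y x^{a_1}) ⋯ (y x^{a_d})` -/
def wd (a : ℕ) (v : FreeMonoid ℕ) : FreeMonoid (Fin 2) :=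
  FreeMonoid.of 0 ^ a * FreeMonoid.lift (fun c => FreeMonoid.of 1 * FreeMonoid.of 0 ^ c) v

theorem wd_zero_one : wd 0 1 = 1 := by
  rw [wd, pow_zero, one_mul, map_one]

theorem wd_succ (a : ℕ) (v : FreeMonoid ℕ) : wd (a + 1) v = FreeMonoid.of 0 * wd a v := by
  rw [wd, wd, pow_succ', mul_assoc]

theorem wd_cons (c : ℕ) (v : FreeMonoid ℕ) :
    wd 0 (FreeMonoid.of c * v) = FreeMonoid.of 1 * wd c v := by
  rw [wd, wd, pow_zero, one_mul, map_mul, FreeMonoid.lift_eval_of, mul_assoc]

theorem wd_surj (w : FreeMonoid (Fin 2)) : ∃ a v, w = wd a v := by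
  induction w using FreeMonoid.recOn with
  | one => exact ⟨0, 1, wd_zero_one.symm⟩
  | of_mul i w ih =>
    obtain ⟨a, v, rfl⟩ := ih
    fin_cases i
    · exact ⟨a + 1, v, (wd_succ a v).symm⟩
    · exact ⟨0, FreeMonoid.of a * v, (wd_cons a v).symm⟩

theorem count_one_wd (v : FreeMonoid ℕ) : ∀ a, (FreeMonoid.toList (wd a v)).count 1 = v.length := by
  induction v using FreeMonoid.recOn with
  | one =>
    intro a
    induction a with
    | zero => rw [wd_zero_one]; rfl
    | succ a ih => rw [wd_succ, count_of_mul_0, ih]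
  | of_mul c v ih =>
    intro a
    induction a with
    | zero =>
      rw [wd_cons, count_of_mul_1, ih, FreeMonoid.length_mul, FreeMonoid.length_of, add_comm]
    | succ a ih2 => rw [wd_succ, count_of_mul_0, ih2]

/-- the dictionary between words in `x, y` and words in the `e_a` -/
theorem wc_dict (g : FreeAlgebra k (Fin 2)) : ∀ (a : ℕ) (v : FreeMonoid ℕ),
    wc v ((rh g 1).coeff a) = wc (wd a v) g := by
  classical
  refine left_ind (fun g => ∀ (a : ℕ) (v : FreeMonoid ℕ),
    wc v ((rh g 1).coeff a) = wc (wd a v) g) ?_ ?_ ?_ ?_ g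
  · intro a v
    rw [map_one rh, Module.End.one_apply, coeff_one, wc_unit]
    by_cases ha : a = 0
    · rw [if_pos ha, wc_unit, ha]
      by_cases hv : v = 1
      · rw [if_pos hv, hv, if_pos wd_zero_one]
      · rw [if_neg hv, if_neg]
        intro h
        apply hv
        induction v using FreeMonoid.casesOn with
        | one => rfl
        | of_mul c v => rw [wd_cons] at h; exact absurd h (of_mul_ne_one _ _)
    · rw [if_neg ha, map_zero, if_neg]
      obtain ⟨a, rfl⟩ : ∃ a', a = a' + 1 := ⟨a - 1, by omega⟩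
      rw [wd_succ]
      exact of_mul_ne_one _ _
  · intro p q hp hq a v
    rw [map_add, LinearMap.add_apply, coeff_add, map_add, hp, hq, map_add]
  · intro c p hp a v
    rw [map_smul, LinearMap.smul_apply, coeff_smul, map_smul, hp, map_smul]
  · intro i p hp a v
    rw [map_mul rh, Module.End.mul_apply]
    fin_cases i
    · change wc v ((rh (FreeAlgebra.ι k 0) (rh p 1)).coeff a) = wc (wd a v) (FreeAlgebra.ι k 0 * p)
      rw [rh_0, xh_apply]
      cases a with
      | zero =>
        rw [coeff_X_mul_zero, map_zero]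
        induction v using FreeMonoid.casesOn with
        | one => rw [wd_zero_one, wc_nil_ι_mul]
        | of_mul c v => rw [wd_cons, wc_ι_mul_ne (by decide)]
      | succ a => rw [coeff_X_mul, wd_succ, wc_ι_mul, hp]
    · change wc v ((rh (FreeAlgebra.ι k 1) (rh p 1)).coeff a) = wc (wd a v) (FreeAlgebra.ι k 1 * p)
      rw [rh_1, yh_apply, coeff_C]
      cases a with
      | zero =>
        rw [if_pos rfl, kap_apply, Polynomial.sum, map_sum]
        induction v using FreeMonoid.casesOn with
        | one =>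
          rw [wd_zero_one, wc_nil_ι_mul]
          exact Finset.sum_eq_zero fun b _ => wc_nil_ι_mul _ _
        | of_mul c v =>
          rw [wd_cons, wc_ι_mul, ← hp, Finset.sum_eq_single c]
          · rw [wc_ι_mul]
          · intro b _ hb
            exact wc_ι_mul_ne hb _ _
          · intro hc
            rw [notMem_support_iff] at hc
            rw [hc, mul_zero, map_zero]
      | succ a =>
        rw [if_neg (by omega), map_zero, wd_succ, wc_ι_mul_ne (by decide)]

theorem wc_Ph (ψ : F2 k) (a : ℕ) (v : FreeMonoid ℕ) :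
    wc v ((Ph ψ).coeff a) = wordCoeff k ψ (wd a v) := by
  rw [Ph_eq, wc_dict]; rfl

theorem depth_of_Ph {d : ℕ} {ψ : F2 k} (h : Ph ψ ∈ Fz k d) : DepthGE k d ψ := by
  intro w hw
  obtain ⟨a, v, rfl⟩ := wd_surj w
  rw [count_one_wd] at hw
  rw [← wc_Ph]
  have := congrArg (wc v) (h v.length hw a)
  rw [wc_hc, if_pos rfl, map_zero] at this
  exact this

end dict

end Pool.Agent.J4H43.FR
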