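import Pool.Agent.J4H43.FR.Sym

/-!
# Two contradictions
-/

set_option autoImplicit false

namespace Pool.Agent.J4H43.FR

open Polynomial Pool.Agent.Helper392_GT

universe u v w

section low

variable {k : Type u} [Field k]

/-- operators of lower order -/
def Low (T : Module.End k (BB k)[X]) (d e : ℕ) : Prop := ∀ p m F, Sy p m F →
  (∀ j, j < p + d → ∀ a, hc j ((T F).coeff a) = 0) ∧
    ∀ a, m + e ≤ a → hc (p + d) ((T F).coeff a) = 0

theorem HasSym_of {T : Module.End k (BB k)[X]} {Ψ : (BB k)[X]} {d e : ℕ} (hT : Low T d e)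
    (hΨ : Sy d e Ψ) : HasSym (T - LinearMap.mulLeft k Ψ) d e (-hc d (Ψ.coeff e)) := by
  intro p m F hF
  obtain ⟨t1, t2⟩ := hT p m F hF
  obtain ⟨⟨s1, s2⟩, s3⟩ := Sy_mul hΨ hF
  have e1 : (T - LinearMap.mulLeft k Ψ) F = T F - Ψ * F := rfl
  rw [e1]
  refine ⟨⟨fun j hj a => ?_, fun a ha => ?_⟩, ?_⟩
  · rw [coeff_sub, map_sub, t1 j hj, s1 j (by omega), sub_zero]
  · have h := s2 a (by omega)
    rw [add_comm d p] at h
    rw [coeff_sub, map_sub, t2 a (by omega), h, sub_zero]
  · rw [add_comm d p, add_comm e m] at s3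
    rw [coeff_sub, map_sub, t2 _ le_rfl, s3, zero_sub, neg_mul]

end low

section caseA

variable {k : Type u} [Field k]

theorem emb_C (c : k) (F : (BB k)[X]) : emb (C c) * F = c • F := by
  rw [emb, map_C, ← Polynomial.algebraMap_apply, ← Algebra.smul_def]

theorem lift_one_eq (P Q : Module.End k (BB k)[X]) (g : FreeAlgebra k (Fin 2)) :
    FreeAlgebra.lift k ![P, Q] g 1 = (FreeAlgebra.equivMonoidAlgebraFreeMonoid g).coeff.sum
      (fun w c => c • FreeMonoid.lift ![P, Q] w 1) := by
  nth_rewrite 1 [sum_wc g]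
  rw [Finsupp.sum, map_sum, LinearMap.sum_apply, Finsupp.sum]
  refine Finset.sum_congr rfl fun w _ => ?_
  rw [map_smul, lift_wrd, LinearMap.smul_apply]

theorem caseA {P Q : Module.End k (BB k)[X]} {d e d' e' : ℕ} {h h' : BB k}
    (hP : HasSym P d e h) (hQ : HasSym Q d' e' h')
    (hfree : ∀ G : FreeAlgebra k (Fin 2), FreeAlgebra.lift k ![h, h'] G = 0 → G = 0)
    (he : 1 ≤ e) (he' : 1 ≤ e') {g : FreeAlgebra k (Fin 2)} (hg1 : wc 1 g = 0)
    (hval : ∀ u m, wc u g ≠ 0 → 1 ≤ m →
      hc (wg d d' u) ((FreeAlgebra.lift k ![P, Q] g 1).coeff m) = 0) : g = 0 := by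
  by_contra hg
  set G := (FreeAlgebra.equivMonoidAlgebraFreeMonoid g).coeff with hG
  have hG0 : G ≠ 0 := by
    intro h0
    apply hg
    refine wc_ext fun v => ?_
    rw [wc_apply, ← hG, h0]; rfl
  set q : FreeMonoid (Fin 2) →₀ k[X] := G.mapRange C C_0 with hq
  have hqu : ∀ u, q u = C (G u) := fun u => Finsupp.mapRange_apply
  have hq0 : q ≠ 0 := by
    intro h0
    apply hG0
    ext u
    have := hqu u
    rw [h0, Finsupp.zero_apply] at this
    rw [Finsupp.zero_apply]
    exact C_eq_zero.mp this.symm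
  obtain ⟨u, hu, hne⟩ := lemF hP hQ hfree q hq0
  have hsum : (q.sum fun w r => emb r * FreeMonoid.lift ![P, Q] w 1) =
      FreeAlgebra.lift k ![P, Q] g 1 := by
    rw [lift_one_eq, hq, Finsupp.sum_mapRange_index]
    · exact Finset.sum_congr rfl fun w _ => emb_C _ _
    · intro w
      rw [emb, Polynomial.map_zero, zero_mul]
  rw [hsum] at hne
  apply hne
  apply hval
  · intro h0
    rw [Finsupp.mem_support_iff, hqu] at hu
    apply hu
    have : G u = 0 := h0
    rw [this, C_0]
  rw [hqu, natDegree_C, zero_add]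
  induction u using FreeMonoid.casesOn with
  | one =>
    exfalso
    rw [Finsupp.mem_support_iff, hqu] at hu
    apply hu
    have : G 1 = 0 := hg1
    rw [this, C_0]
  | of_mul i w =>
    fin_cases i
    · change 1 ≤ wg e e' (FreeMonoid.of 0 * w)
      rw [wg_zero_mul]; omega
    · change 1 ≤ wg e e' (FreeMonoid.of 1 * w)
      rw [wg_one_mul]; omega

end caseA

section caseB

variable {k : Type u} [Field k]

theorem emb_monomial (n : ℕ) (c : k) (F : (BB k)[X]) :
    emb (monomial n c) * F = c • (X ^ n * F) := by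
  rw [emb, map_monomial, ← C_mul_X_pow_eq_monomial, mul_assoc, ← Polynomial.algebraMap_apply,
    ← Algebra.smul_def]

theorem comm_emb {P : Module.End k (BB k)[X]} (hP : ∀ F, P (X * F) = X * P F) (r : k[X])
    (F : (BB k)[X]) : P (emb r * F) = emb r * P F := by
  have hn : ∀ n (F : (BB k)[X]), P (X ^ n * F) = X ^ n * P F := by
    intro n
    induction n with
    | zero => intro F; rw [pow_zero, one_mul, one_mul]
    | succ n ih => intro F; rw [pow_succ, mul_assoc, ih, hP, ← mul_assoc]
  induction r using Polynomial.induction_on' with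
  | add p q hp hq =>
    have h1 : emb (p + q) = emb p + emb q := by rw [emb, emb, emb, Polynomial.map_add]
    rw [h1, add_mul, map_add, hp, hq, add_mul]
  | monomial n c => rw [emb_monomial, emb_monomial, map_smul, hn]

theorem emb_mul (r s : k[X]) : emb (r * s) = emb r * emb s := by
  rw [emb, emb, emb, Polynomial.map_mul]

theorem emb_add (r s : k[X]) : emb (r + s) = emb r + emb s := by
  rw [emb, emb, emb, Polynomial.map_add]

theorem emb_zero : emb (0 : k[X]) = 0 := by
  rw [emb, Polynomial.map_zero]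

theorem emb_one : emb (1 : k[X]) = 1 := by
  rw [emb, Polynomial.map_one]

theorem emb_X_pow (n : ℕ) : emb (X ^ n : k[X]) = X ^ n := by
  rw [emb, Polynomial.map_pow, map_X]

/-- evaluation at two operators and at the vector `1` -/
noncomputable def evv (P Q : Module.End k (BB k)[X]) (q : SS k) : (BB k)[X] :=
  q.coeff.sum fun w r => emb r * FreeMonoid.lift ![P, Q] w 1

theorem evv_add (P Q : Module.End k (BB k)[X]) (q q' : SS k) :
    evv P Q (q + q') = evv P Q q + evv P Q q' := by
  rw [evv, evv, evv, MonoidAlgebra.coeff_add, Finsupp.sum_add_index']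
  · intro w; rw [emb_zero, zero_mul]
  · intro w r s; rw [emb_add, add_mul]

theorem evv_single (P Q : Module.End k (BB k)[X]) (w : FreeMonoid (Fin 2)) (r : k[X]) :
    evv P Q (MonoidAlgebra.single w r) = emb r * FreeMonoid.lift ![P, Q] w 1 := by
  rw [evv, MonoidAlgebra.coeff_single, Finsupp.sum_single_index]
  rw [emb_zero, zero_mul]

theorem evv_zero (P Q : Module.End k (BB k)[X]) : evv P Q 0 = 0 := by
  rw [evv, MonoidAlgebra.coeff_zero, Finsupp.sum_zero_index]

theorem evv_smul (P Q : Module.End k (BB k)[X]) (c : k) (q : SS k) :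
    evv P Q (c • q) = c • evv P Q q := by
  rw [evv, evv, MonoidAlgebra.coeff_smul, Finsupp.sum_smul_index', Finsupp.smul_sum]
  · refine Finset.sum_congr rfl fun w _ => ?_
    change emb (c • (q.coeff w)) * _ = c • (emb (q.coeff w) * _)
    rw [smul_eq_C_mul, emb_mul, mul_assoc, emb_C]
  · intro w; rw [emb_zero, zero_mul]

theorem evv_mul (P Q : Module.End k (BB k)[X]) (hP : ∀ F, P (X * F) = X * P F)
    (hQ : ∀ F, Q (X * F) = X * Q F) (i : Fin 2) (s : k[X]) (q : SS k) :
    evv P Q (MonoidAlgebra.single (FreeMonoid.of i) s * q) =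
      emb s * (![P, Q] i) (evv P Q q) := by
  have hc : ∀ (r : k[X]) (F : (BB k)[X]), (![P, Q] i) (emb r * F) = emb r * (![P, Q] i) F := by
    intro r F
    fin_cases i
    · exact comm_emb hP r F
    · exact comm_emb hQ r F
  induction q using MonoidAlgebra.induction_linear with
  | zero => rw [mul_zero, evv_zero, map_zero, mul_zero]
  | add f g hf hg => rw [mul_add, evv_add, evv_add, hf, hg, map_add, mul_add]
  | single w r =>
    rw [MonoidAlgebra.single_mul_single, evv_single, evv_single, word_zero, hc, emb_mul,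
      mul_assoc, Module.End.mul_apply]

/-- the substitution -/
noncomputable def tht (e e' : ℕ) (c : k) : FreeAlgebra k (Fin 2) →ₐ[k] SS k :=
  FreeAlgebra.lift k ![MonoidAlgebra.single (FreeMonoid.of 0) (X ^ e),
    MonoidAlgebra.single (FreeMonoid.of 1) 1 + MonoidAlgebra.single (FreeMonoid.of 0)
      (C c * X ^ e')]

theorem tht_0 (e e' : ℕ) (c : k) : tht e e' c (FreeAlgebra.ι k 0) =
    MonoidAlgebra.single (FreeMonoid.of 0) (X ^ e) := by
  rw [tht, FreeAlgebra.lift_ι_apply]; rfl

theorem tht_1 (e e' : ℕ) (c : k) : tht e e' c (FreeAlgebra.ι k 1) =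
    MonoidAlgebra.single (FreeMonoid.of 1) 1 + MonoidAlgebra.single (FreeMonoid.of 0)
      (C c * X ^ e') := by
  rw [tht, FreeAlgebra.lift_ι_apply]; rfl

/-- the specialisation at `z = 1` -/
noncomputable def spz (c : k) (q : SS k) : FreeAlgebra k (Fin 2) :=
  q.coeff.sum fun w r => (r.eval 1) • FreeMonoid.lift
    ![FreeAlgebra.ι k 0, FreeAlgebra.ι k 1 - c • FreeAlgebra.ι k 0] w

theorem spz_add (c : k) (q q' : SS k) : spz c (q + q') = spz c q + spz c q' := by
  rw [spz, spz, spz, MonoidAlgebra.coeff_add, Finsupp.sum_add_index']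
  · intro w; rw [eval_zero, zero_smul]
  · intro w r s; rw [eval_add, add_smul]

theorem spz_zero (c : k) : spz c 0 = 0 := by
  rw [spz, MonoidAlgebra.coeff_zero, Finsupp.sum_zero_index]

theorem spz_smul (c r : k) (q : SS k) : spz c (r • q) = r • spz c q := by
  rw [spz, spz, MonoidAlgebra.coeff_smul, Finsupp.sum_smul_index', Finsupp.smul_sum]
  · refine Finset.sum_congr rfl fun w _ => ?_
    change (r • (q.coeff w)).eval 1 • _ = r • ((q.coeff w).eval 1 • _)
    rw [eval_smul, smul_eq_mul, mul_smul]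
  · intro w; rw [eval_zero, zero_smul]

theorem spz_mul (c : k) (i : Fin 2) (s : k[X]) (q : SS k) :
    spz c (MonoidAlgebra.single (FreeMonoid.of i) s * q) = s.eval 1 •
      ((![FreeAlgebra.ι k 0, FreeAlgebra.ι k 1 - c • FreeAlgebra.ι k 0] :
        Fin 2 → FreeAlgebra k (Fin 2)) i * spz c q) := by
  have hs : ∀ w r, spz c (MonoidAlgebra.single w r) = (r.eval 1) • FreeMonoid.lift
      ![FreeAlgebra.ι k 0, FreeAlgebra.ι k 1 - c • FreeAlgebra.ι k 0] w := by
    intro w r
    rw [spz, MonoidAlgebra.coeff_single, Finsupp.sum_single_index]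
    rw [eval_zero, zero_smul]
  induction q using MonoidAlgebra.induction_linear with
  | zero => rw [mul_zero, spz_zero, mul_zero, smul_zero]
  | add f g hf hg => rw [mul_add, spz_add, spz_add, hf, hg, mul_add, smul_add]
  | single w r =>
    rw [MonoidAlgebra.single_mul_single, hs, hs, word_zero, eval_mul, mul_smul, mul_smul_comm]

theorem spz_tht (e e' : ℕ) (c : k) (g : FreeAlgebra k (Fin 2)) : spz c (tht e e' c g) = g := by
  refine left_ind (fun g => spz c (tht e e' c g) = g) ?_ ?_ ?_ ?_ g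
  · rw [map_one, MonoidAlgebra.one_def, spz, MonoidAlgebra.coeff_single, Finsupp.sum_single_index,
      map_one, eval_one, one_smul]
    rw [eval_zero, zero_smul]
  · intro a b ha hb
    rw [map_add, spz_add, ha, hb]
  · intro r a ha
    rw [map_smul, spz_smul, ha]
  · intro i a ha
    rw [map_mul]
    fin_cases i
    · change spz c (tht e e' c (FreeAlgebra.ι k 0) * tht e e' c a) = FreeAlgebra.ι k 0 * a
      rw [tht_0, spz_mul, ha, eval_pow, eval_X, one_pow, one_smul]; rfl
    · change spz c (tht e e' c (FreeAlgebra.ι k 1) * tht e e' c a) = FreeAlgebra.ι k 1 * a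
      rw [tht_1, add_mul, spz_add, spz_mul, spz_mul, ha, eval_one, one_smul, eval_mul, eval_C,
        eval_pow, eval_X, one_pow, mul_one]
      change (FreeAlgebra.ι k 1 - c • FreeAlgebra.ι k 0) * a + c • (FreeAlgebra.ι k 0 * a) = _
      rw [sub_mul, smul_mul_assoc, sub_add_cancel]

theorem tht_ne {e e' : ℕ} {c : k} {g : FreeAlgebra k (Fin 2)} (hg : g ≠ 0) :
    tht e e' c g ≠ 0 := by
  intro h
  apply hg
  rw [← spz_tht e e' c g, h, spz_zero]

/-- bounds for the weights in `q` -/
def Bq (e e' N : ℕ) (q : SS k) : Prop := ∀ u i, (q.coeff u).coeff i ≠ 0 →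
  u.length = N ∧ N * (e + 1) ≤ i + wg e (e + e' - 1) u

theorem Bq.add {e e' N : ℕ} {q q' : SS k} (h : Bq e e' N q) (h' : Bq e e' N q') :
    Bq e e' N (q + q') := by
  intro u i hi
  rw [MonoidAlgebra.coeff_add, Finsupp.add_apply, coeff_add] at hi
  by_cases h1 : (q.coeff u).coeff i = 0
  · by_cases h2 : (q'.coeff u).coeff i = 0
    · exact absurd (by rw [h1, h2, add_zero]) hi
    · exact h' u i h2
  · exact h u i h1

theorem Bq.smul {e e' N : ℕ} {q : SS k} (c : k) (h : Bq e e' N q) : Bq e e' N (c • q) := by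
  intro u i hi
  have e1 : ((c • q).coeff u).coeff i = c * (q.coeff u).coeff i := by
    rw [MonoidAlgebra.coeff_smul]
    change (c • (q.coeff u)).coeff i = _
    rw [coeff_smul, smul_eq_mul]
  rw [e1] at hi
  exact h u i (right_ne_zero_of_mul hi)

theorem Bq.zero {e e' N : ℕ} : Bq e e' N (0 : SS k) := by
  intro u i hi
  exact absurd (by rw [MonoidAlgebra.coeff_zero, Finsupp.zero_apply, coeff_zero]) hi

theorem Bq.mul {e e' N : ℕ} {q : SS k} (h : Bq e e' N q) (i : Fin 2) (c : k) (n : ℕ)
    (hn : e + 1 ≤ n + ![e, e + e' - 1] i) :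
    Bq e e' (N + 1) (MonoidAlgebra.single (FreeMonoid.of i) (C c * X ^ n) * q) := by
  intro u j hj
  induction u using FreeMonoid.casesOn with
  | one =>
    exfalso
    apply hj
    rw [MonoidAlgebra.coeff_single_mul_of_forall_mul_ne, coeff_zero]
    intro w
    exact of_mul_ne_one i w
  | of_mul z v =>
    by_cases hz : i = z
    · subst hz
      rw [MonoidAlgebra.coeff_single_mul_mul, mul_assoc, coeff_C_mul, coeff_X_pow_mul'] at hj
      split_ifs at hj with hnj
      · obtain ⟨h1, h2⟩ := h v (j - n) (right_ne_zero_of_mul hj)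
        refine ⟨by rw [FreeMonoid.length_mul, FreeMonoid.length_of, h1, add_comm], ?_⟩
        fin_cases i
        · change (N + 1) * (e + 1) ≤ j + wg e (e + e' - 1) (FreeMonoid.of 0 * v)
          change e + 1 ≤ n + e at hn
          rw [wg_zero_mul, add_mul, one_mul]
          omega
        · change (N + 1) * (e + 1) ≤ j + wg e (e + e' - 1) (FreeMonoid.of 1 * v)
          change e + 1 ≤ n + (e + e' - 1) at hn
          rw [wg_one_mul, add_mul, one_mul]
          omega
      · exact absurd (mul_zero _) hj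
    · exfalso
      apply hj
      rw [MonoidAlgebra.coeff_single_mul_of_forall_mul_ne, coeff_zero]
      intro w hw
      exact hz (of_mul_inj hw).1

theorem Bq_tht {e e' : ℕ} (he : 1 ≤ e) (he' : 2 ≤ e') (c : k) (g : FreeAlgebra k (Fin 2)) :
    ∀ N, Bq e e' N (tht e e' c (hc N g)) := by
  refine left_ind (fun g => ∀ N, Bq e e' N (tht e e' c (hc N g))) ?_ ?_ ?_ ?_ g
  · intro N
    rw [hc_one]
    split_ifs with h
    · subst h
      rw [map_one, MonoidAlgebra.one_def]
      intro u i hi
      rw [MonoidAlgebra.coeff_single] at hi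
      classical
      rw [Finsupp.single_apply] at hi
      split_ifs at hi with h1
      · rw [← h1]
        exact ⟨rfl, by rw [zero_mul]; exact Nat.zero_le _⟩
      · exact absurd (coeff_zero i) hi
    · rw [map_zero]; exact Bq.zero
  · intro a b ha hb N
    rw [map_add, map_add]; exact (ha N).add (hb N)
  · intro r a ha N
    rw [map_smul, map_smul]; exact (ha N).smul r
  · intro i a ha N
    cases N with
    | zero => rw [hc_zero_ι_mul, map_zero]; exact Bq.zero
    | succ N =>
      rw [hc_ι_mul, map_mul]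
      fin_cases i
      · change Bq e e' (N + 1) (tht e e' c (FreeAlgebra.ι k 0) * tht e e' c (hc N a))
        rw [tht_0]
        have := (ha N).mul 0 1 e (by simp; omega)
        rwa [C_1, one_mul] at this
      · change Bq e e' (N + 1) (tht e e' c (FreeAlgebra.ι k 1) * tht e e' c (hc N a))
        rw [tht_1, add_mul]
        refine Bq.add ?_ ?_
        · have := (ha N).mul 1 1 0 (by simp; omega)
          rwa [C_1, one_mul, pow_zero] at this
        · exact (ha N).mul 0 c e' (by simp; omega)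

theorem evv_tht {P R : Module.End k (BB k)[X]} (hP : ∀ F, P (X * F) = X * P F)
    (hR : ∀ F, R (X * F) = X * R F) (e e' : ℕ) (c : k) (g : FreeAlgebra k (Fin 2)) :
    evv P (LinearMap.mulLeft k (X ^ e) ∘ₗ R - c • (LinearMap.mulLeft k (X ^ e') ∘ₗ P))
      (tht e e' c g) = FreeAlgebra.lift k ![(LinearMap.mulLeft k (X ^ e) ∘ₗ P :
        Module.End k (BB k)[X]), LinearMap.mulLeft k (X ^ e) ∘ₗ R] g 1 := by
  set W : Module.End k (BB k)[X] :=
    LinearMap.mulLeft k (X ^ e) ∘ₗ R - c • (LinearMap.mulLeft k (X ^ e') ∘ₗ P) with hW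
  have hWa : ∀ F, W F = X ^ e * R F - c • (X ^ e' * P F) := fun F => rfl
  have hWx : ∀ F, W (X * F) = X * W F := by
    intro F
    rw [hWa, hWa, hP, hR, mul_sub, mul_smul_comm, ← mul_assoc, ← mul_assoc, ← mul_assoc,
      ← mul_assoc, ← pow_succ, ← pow_succ, ← pow_succ', ← pow_succ']
  refine left_ind (fun g => evv P W (tht e e' c g) =
    FreeAlgebra.lift k ![(LinearMap.mulLeft k (X ^ e) ∘ₗ P : Module.End k (BB k)[X]),
      LinearMap.mulLeft k (X ^ e) ∘ₗ R] g 1) ?_ ?_ ?_ ?_ g
  · rw [map_one (tht e e' c), MonoidAlgebra.one_def, evv_single, emb_one, one_mul,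
      map_one (FreeAlgebra.lift k _), MonoidHom.map_one]
  · intro a b ha hb
    rw [map_add (tht e e' c), evv_add, ha, hb, map_add (FreeAlgebra.lift k _),
      LinearMap.add_apply]
  · intro r a ha
    rw [map_smul (tht e e' c), evv_smul, ha, map_smul (FreeAlgebra.lift k _),
      LinearMap.smul_apply]
  · intro i a ha
    rw [map_mul (tht e e' c), map_mul (FreeAlgebra.lift k _), Module.End.mul_apply, ← ha,
      FreeAlgebra.lift_ι_apply]
    fin_cases i
    · change evv P W (tht e e' c (FreeAlgebra.ι k 0) * tht e e' c a) =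
        X ^ e * P (evv P W (tht e e' c a))
      rw [tht_0, evv_mul P W hP hWx, emb_X_pow]; rfl
    · change evv P W (tht e e' c (FreeAlgebra.ι k 1) * tht e e' c a) =
        X ^ e * R (evv P W (tht e e' c a))
      rw [tht_1, add_mul, evv_add, evv_mul P W hP hWx, evv_mul P W hP hWx, emb_one, one_mul,
        emb_mul, emb_X_pow, mul_assoc, emb_C]
      change W (evv P W (tht e e' c a)) + c • (X ^ e' * P (evv P W (tht e e' c a))) = _
      rw [hWa, sub_add_cancel]

theorem word_pow {P R : Module.End k (BB k)[X]} (hP : ∀ F, P (X * F) = X * P F)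
    (hR : ∀ F, R (X * F) = X * R F) (e : ℕ) (w : FreeMonoid (Fin 2)) :
    FreeMonoid.lift ![(LinearMap.mulLeft k (X ^ e) ∘ₗ P : Module.End k (BB k)[X]),
      LinearMap.mulLeft k (X ^ e) ∘ₗ R] w 1 =
      X ^ (e * w.length) * FreeMonoid.lift ![P, R] w 1 := by
  have hX : ∀ {T : Module.End k (BB k)[X]}, (∀ F, T (X * F) = X * T F) → ∀ n F,
      T (X ^ n * F) = X ^ n * T F := by
    intro T hT n
    induction n with
    | zero => intro F; rw [pow_zero, one_mul, one_mul]
    | succ n ih => intro F; rw [pow_succ, mul_assoc, ih, hT, ← mul_assoc]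
  induction w using FreeMonoid.recOn with
  | one =>
    rw [MonoidHom.map_one, MonoidHom.map_one, FreeMonoid.length_one, mul_zero, pow_zero, one_mul]
  | of_mul i w ih =>
    rw [word_zero, word_zero, Module.End.mul_apply, Module.End.mul_apply, ih,
      FreeMonoid.length_mul, FreeMonoid.length_of, mul_add, mul_one, pow_add, mul_assoc]
    fin_cases i
    · change X ^ e * P (X ^ (e * w.length) * FreeMonoid.lift ![P, R] w 1) = _
      rw [hX hP]; rfl
    · change X ^ e * R (X ^ (e * w.length) * FreeMonoid.lift ![P, R] w 1) = _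
      rw [hX hR]; rfl

theorem Rs_word_len' {P R : Module.End k (BB k)[X]} {d : ℕ} (hP : Rs (Fz k) d P)
    (hR : Rs (Fz k) d R) (w : FreeMonoid (Fin 2)) :
    Rs (Fz k) (w.length * d) (FreeMonoid.lift ![P, R] w) := by
  induction w using FreeMonoid.recOn with
  | one => rw [MonoidHom.map_one, FreeMonoid.length_one, zero_mul]; exact Rs.one
  | of_mul i w ih =>
    rw [word_zero, FreeMonoid.length_mul, FreeMonoid.length_of, add_mul, one_mul]
    fin_cases i
    · exact hP.mul ih
    · exact hR.mul ih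

theorem lift_mem_Fz {P R : Module.End k (BB k)[X]} {d : ℕ} (hP : Rs (Fz k) d P)
    (hR : Rs (Fz k) d R) {M : ℕ} {g : FreeAlgebra k (Fin 2)}
    (hg : ∀ u, wc u g ≠ 0 → M ≤ u.length) :
    FreeAlgebra.lift k ![P, R] g 1 ∈ Fz k (M * d) := by
  rw [lift_one_eq, Finsupp.sum]
  refine Submodule.sum_mem _ fun w hw => Submodule.smul_mem _ _ ?_
  have h1 := hg w (Finsupp.mem_support_iff.mp hw)
  have h2 := Rs_word_len' hP hR w 0 1 (Fz_zero _)
  rw [zero_add] at h2
  exact Fz_anti (Nat.mul_le_mul_right d h1) h2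

theorem caseB {P R : Module.End k (BB k)[X]} {d e e' : ℕ} {h b : BB k} {c : k}
    (hP : HasSym P d e h)
    (hW : HasSym (LinearMap.mulLeft k (X ^ e) ∘ₗ R - c • (LinearMap.mulLeft k (X ^ e') ∘ₗ P))
      d (e + e' - 1) b)
    (hPx : ∀ F, P (X * F) = X * P F) (hRx : ∀ F, R (X * F) = X * R F)
    (RsP : Rs (Fz k) d P) (RsR : Rs (Fz k) d R) (hd : 1 ≤ d) (he : 1 ≤ e) (he' : 2 ≤ e')
    (hfree : ∀ G : FreeAlgebra k (Fin 2), FreeAlgebra.lift k ![h, b] G = 0 → G = 0)
    {g : FreeAlgebra k (Fin 2)} (hg1 : wc 1 g = 0)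
    (hval : ∀ u m, wc u g ≠ 0 → 1 ≤ m →
      hc (wg d d u) ((FreeAlgebra.lift k ![P, R] g 1).coeff m) = 0) : g = 0 := by
  classical
  by_contra hg
  have hex : ∃ N, hc N g ≠ 0 := by
    by_contra hcon
    push Not at hcon
    exact hg (eq_zero_of_hc hcon)
  set N := Nat.find hex with hN
  have hN0 : hc N g ≠ 0 := Nat.find_spec hex
  have hNlt : ∀ j, j < N → hc j g = 0 := fun j hj => by
    by_contra h0
    exact Nat.find_min hex hj h0
  have hN1 : 1 ≤ N := by
    by_contra hlt
    have h0 : N = 0 := by omega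
    apply hN0
    rw [h0, hc_zero_eq, ← wc_one, hg1, map_zero]
  -- the difference
  have hdiff : FreeAlgebra.lift k ![P, R] (g - hc N g) 1 ∈ Fz k ((N + 1) * d) := by
    refine lift_mem_Fz RsP RsR fun u hu => ?_
    by_contra hlt
    apply hu
    rw [map_sub, wc_hc]
    split_ifs with hl
    · exact sub_self _
    · rw [sub_zero]
      have h1 := wc_hc u u.length g
      rw [if_pos rfl, hNlt _ (by omega), map_zero] at h1
      exact h1.symm
  obtain ⟨u0, hu0⟩ : ∃ u, wc u (hc N g) ≠ 0 := by
    by_contra hcon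
    push Not at hcon
    exact hN0 (wc_ext hcon)
  rw [wc_hc] at hu0
  have hu1 : u0.length = N := by
    by_contra hl
    rw [if_neg hl] at hu0
    exact hu0 rfl
  rw [if_pos hu1] at hu0
  have hval2 : ∀ m, 1 ≤ m → hc (N * d) ((FreeAlgebra.lift k ![P, R] (hc N g) 1).coeff m) = 0 := by
    intro m hm
    have h1 := hdiff (N * d) (by rw [add_mul]; omega) m
    have h2 := hval u0 m hu0 hm
    rw [wg, ← add_mul, count_add, hu1] at h2
    rw [map_sub (FreeAlgebra.lift k _), LinearMap.sub_apply, coeff_sub, map_sub, h2,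
      zero_sub, neg_eq_zero] at h1
    exact h1
  obtain ⟨u, hu, hne⟩ := lemF hP hW hfree (tht e e' c (hc N g)).coeff (by
    intro h0
    apply tht_ne (e := e) (e' := e') (c := c) hN0
    apply MonoidAlgebra.coeff_injective
    rw [h0, MonoidAlgebra.coeff_zero])
  have hlen : u.length = N := by
    have h1 := Finsupp.mem_support_iff.mp hu
    have h2 : (((tht e e' c (hc N g)).coeff u).coeff
        (((tht e e' c (hc N g)).coeff u).natDegree)) ≠ 0 := by
      rw [coeff_natDegree]; exact leadingCoeff_ne_zero.mpr h1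
    exact (Bq_tht he he' c g N u _ h2).1
  have hwt : N * (e + 1) ≤ ((tht e e' c (hc N g)).coeff u).natDegree +
      wg e (e + e' - 1) u := by
    have h1 := Finsupp.mem_support_iff.mp hu
    have h2 : (((tht e e' c (hc N g)).coeff u).coeff
        (((tht e e' c (hc N g)).coeff u).natDegree)) ≠ 0 := by
      rw [coeff_natDegree]; exact leadingCoeff_ne_zero.mpr h1
    exact (Bq_tht he he' c g N u _ h2).2
  have hwd : wg d d u = N * d := by
    rw [wg, ← add_mul, count_add, hlen]
  have hev : ((tht e e' c (hc N g)).coeff.sum fun w r => emb r * FreeMonoid.lift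
      ![P, LinearMap.mulLeft k (X ^ e) ∘ₗ R - c • (LinearMap.mulLeft k (X ^ e') ∘ₗ P)] w 1) =
      X ^ (e * N) * FreeAlgebra.lift k ![P, R] (hc N g) 1 := by
    have h1 := evv_tht hPx hRx e e' c (hc N g)
    rw [evv] at h1
    rw [h1, lift_one_eq, lift_one_eq, Finsupp.sum, Finsupp.sum, Finset.mul_sum]
    refine Finset.sum_congr rfl fun w hw => ?_
    have h2 : w.length = N := by
      have h3 : wc w (hc N g) ≠ 0 := Finsupp.mem_support_iff.mp hw
      rw [wc_hc] at h3
      by_contra hne
      rw [if_neg hne] at h3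
      exact h3 rfl
    rw [word_pow hPx hRx, h2, mul_smul_comm]
  rw [hev, hwd, coeff_X_pow_mul'] at hne
  split_ifs at hne with hle
  · apply hne
    apply hval2
    have h3 : N * (e + 1) = e * N + N := by ring
    omega
  · exact hne (map_zero _)

end caseB

end Pool.Agent.J4H43.FR
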