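import Mathlib

/-!
# Free associative algebras: components, division, pairs of homogeneous elements
-/

set_option autoImplicit false

namespace Pool.Agent.J4H43.FR

open Polynomial

universe u v

section basics

variable {k : Type u} [Field k] {Y : Type v}

/-- induction with left multiplication by letters -/
theorem left_ind (P : FreeAlgebra k Y → Prop) (h1 : P 1) (hadd : ∀ a b, P a → P b → P (a + b))
    (hsmul : ∀ (c : k) a, P a → P (c • a)) (hmul : ∀ y a, P a → P (FreeAlgebra.ι k y * a))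
    (b : FreeAlgebra k Y) : P b := by
  have key : ∀ b : FreeAlgebra k Y, ∀ c, P c → P (b * c) := by
    intro b
    refine FreeAlgebra.induction k Y (motive := fun b => ∀ c, P c → P (b * c)) ?_ ?_ ?_ ?_ b
    · intro r c hc
      rw [← Algebra.smul_def]; exact hsmul r c hc
    · intro y c hc
      exact hmul y c hc
    · intro a b ha hb c hc
      rw [mul_assoc]; exact ha _ (hb _ hc)
    · intro a b ha hb c hc
      rw [add_mul]; exact hadd _ _ (ha c hc) (hb c hc)
  simpa using key b 1 h1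

/-- the scaling `y ↦ t y` -/
noncomputable def th : FreeAlgebra k Y →ₐ[k] (FreeAlgebra k Y)[X] :=
  FreeAlgebra.lift k (fun y => X * C (FreeAlgebra.ι k y))

theorem th_ι (y : Y) : th (FreeAlgebra.ι k y) = X * C (FreeAlgebra.ι k y) := by
  rw [th, FreeAlgebra.lift_ι_apply]

/-- the component of length `n` -/
noncomputable def hc (n : ℕ) : FreeAlgebra k Y →ₗ[k] FreeAlgebra k Y where
  toFun b := (th b).coeff n
  map_add' a b := by rw [map_add, coeff_add]
  map_smul' c a := by rw [map_smul, coeff_smul, RingHom.id_apply]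

theorem hc_apply (n : ℕ) (b : FreeAlgebra k Y) : hc n b = (th b).coeff n := rfl

theorem hc_mul (n : ℕ) (a b : FreeAlgebra k Y) :
    hc n (a * b) = ∑ p ∈ Finset.HasAntidiagonal.antidiagonal n, hc p.1 a * hc p.2 b := by
  rw [hc_apply, map_mul, coeff_mul]; rfl

theorem hc_one (n : ℕ) : hc n (1 : FreeAlgebra k Y) = if n = 0 then 1 else 0 := by
  rw [hc_apply, map_one, coeff_one]

theorem hc_ι (n : ℕ) (y : Y) : hc n (FreeAlgebra.ι k y) = if n = 1 then FreeAlgebra.ι k y else 0 := by
  rw [hc_apply, th_ι, X_mul_C, coeff_C_mul, coeff_X]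
  split_ifs with h1 h2 h2
  · rw [mul_one]
  · exact absurd h1.symm h2
  · exact absurd h2.symm h1
  · rw [mul_zero]

theorem hc_ι_mul (n : ℕ) (y : Y) (b : FreeAlgebra k Y) :
    hc (n + 1) (FreeAlgebra.ι k y * b) = FreeAlgebra.ι k y * hc n b := by
  rw [hc_apply, map_mul, th_ι, mul_assoc, coeff_X_mul, coeff_C_mul]; rfl

theorem hc_zero_ι_mul (y : Y) (b : FreeAlgebra k Y) :
    hc 0 (FreeAlgebra.ι k y * b) = 0 := by
  rw [hc_apply, map_mul, th_ι, mul_assoc, coeff_X_mul_zero]

theorem hc_hc (m n : ℕ) (b : FreeAlgebra k Y) : hc m (hc n b) = if m = n then hc n b else 0 := by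
  revert m n
  refine left_ind (fun b => ∀ m n, hc m (hc n b) = if m = n then hc n b else 0) ?_ ?_ ?_ ?_ b
  · intro m n
    rw [hc_one]
    by_cases hn : n = 0
    · rw [if_pos hn, hc_one]; subst hn; rfl
    · rw [if_neg hn, map_zero]; split_ifs <;> rfl
  · intro a b ha hb m n
    rw [map_add, map_add, ha, hb]; split_ifs <;> simp
  · intro c a ha m n
    rw [map_smul, map_smul, ha]; split_ifs <;> simp
  · intro y a ha m n
    cases n with
    | zero => rw [hc_zero_ι_mul, map_zero]; split_ifs <;> rfl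
    | succ n =>
      rw [hc_ι_mul]
      cases m with
      | zero => rw [hc_zero_ι_mul, if_neg (by omega)]
      | succ m =>
        rw [hc_ι_mul, ha]
        by_cases h : m = n
        · rw [if_pos h, if_pos (by omega)]
        · rw [if_neg h, if_neg (by omega), mul_zero]

theorem sum_hc (b : FreeAlgebra k Y) : ∃ N, ∀ M, N ≤ M →
    (∑ n ∈ Finset.range M, hc n b = b ∧ ∀ n, M ≤ n → hc n b = 0) := by
  refine left_ind (fun b => ∃ N, ∀ M, N ≤ M →
    (∑ n ∈ Finset.range M, hc n b = b ∧ ∀ n, M ≤ n → hc n b = 0)) ?_ ?_ ?_ ?_ b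
  · refine ⟨1, fun M hM => ⟨?_, fun n hn => ?_⟩⟩
    · simp only [hc_one]
      rw [Finset.sum_ite_eq', if_pos (Finset.mem_range.mpr (by omega))]
    · rw [hc_one, if_neg (by omega)]
  · rintro a b ⟨N, hN⟩ ⟨N', hN'⟩
    refine ⟨max N N', fun M hM => ⟨?_, fun n hn => ?_⟩⟩
    · simp only [map_add]
      rw [Finset.sum_add_distrib, (hN M (by omega)).1, (hN' M (by omega)).1]
    · rw [map_add, (hN M (by omega)).2 n hn, (hN' M (by omega)).2 n hn, add_zero]
  · rintro c a ⟨N, hN⟩
    refine ⟨N, fun M hM => ⟨?_, fun n hn => ?_⟩⟩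
    · simp only [map_smul]
      rw [← Finset.smul_sum, (hN M hM).1]
    · rw [map_smul, (hN M hM).2 n hn, smul_zero]
  · rintro y a ⟨N, hN⟩
    refine ⟨N + 1, fun M hM => ⟨?_, fun n hn => ?_⟩⟩
    · obtain ⟨M, rfl⟩ : ∃ M', M = M' + 1 := ⟨M - 1, by omega⟩
      rw [Finset.sum_range_succ', hc_zero_ι_mul, add_zero]
      simp only [hc_ι_mul]
      rw [← Finset.mul_sum, (hN M (by omega)).1]
    · obtain ⟨n, rfl⟩ : ∃ n', n = n' + 1 := ⟨n - 1, by omega⟩
      rw [hc_ι_mul, (hN (M - 1) (by omega)).2 n (by omega), mul_zero]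

theorem eq_zero_of_hc {b : FreeAlgebra k Y} (h : ∀ n, hc n b = 0) : b = 0 := by
  obtain ⟨N, hN⟩ := sum_hc b
  rw [← (hN N le_rfl).1]
  exact Finset.sum_eq_zero fun n _ => h n

/-- homogeneous elements of length `n` -/
def Hm (n : ℕ) (b : FreeAlgebra k Y) : Prop := ∀ m, hc m b = if m = n then b else 0

theorem Hm.self {n : ℕ} {b : FreeAlgebra k Y} (h : Hm n b) : hc n b = b := by
  rw [h n, if_pos rfl]

theorem Hm.ne {n m : ℕ} {b : FreeAlgebra k Y} (h : Hm n b) (hm : m ≠ n) : hc m b = 0 := by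
  rw [h m, if_neg hm]

theorem Hm_hc (n : ℕ) (b : FreeAlgebra k Y) : Hm n (hc n b) := fun m => hc_hc m n b

theorem Hm.zero (n : ℕ) : Hm n (0 : FreeAlgebra k Y) := fun m => by
  rw [map_zero]; split_ifs <;> rfl

theorem Hm.add {n : ℕ} {a b : FreeAlgebra k Y} (ha : Hm n a) (hb : Hm n b) : Hm n (a + b) :=
  fun m => by rw [map_add, ha m, hb m]; split_ifs <;> simp

theorem Hm.smul {n : ℕ} {a : FreeAlgebra k Y} (c : k) (ha : Hm n a) : Hm n (c • a) :=
  fun m => by rw [map_smul, ha m]; split_ifs <;> simp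

theorem Hm.neg {n : ℕ} {a : FreeAlgebra k Y} (ha : Hm n a) : Hm n (-a) := by
  simpa using ha.smul (-1)

theorem Hm.sub {n : ℕ} {a b : FreeAlgebra k Y} (ha : Hm n a) (hb : Hm n b) : Hm n (a - b) := by
  rw [sub_eq_add_neg]; exact ha.add hb.neg

theorem hc_mul_hm {p : ℕ} {a : FreeAlgebra k Y} (ha : Hm p a) (n : ℕ) (c : FreeAlgebra k Y) :
    hc (n + p) (c * a) = hc n c * a := by
  rw [hc_mul, Finset.sum_eq_single (n, p)]
  · rw [ha.self]
  · rintro ⟨i, j⟩ hij hne
    rw [Finset.HasAntidiagonal.mem_antidiagonal] at hij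
    have : j ≠ p := by
      rintro rfl
      apply hne
      have : i = n := by simp at hij; omega
      rw [this]
    change hc i c * hc j a = 0
    rw [ha.ne this, mul_zero]
  · intro h
    exact absurd (Finset.HasAntidiagonal.mem_antidiagonal.mpr
      (show (n, p).1 + (n, p).2 = n + p from rfl)) h

theorem hc_mul_hm_lt {p : ℕ} {a : FreeAlgebra k Y} (ha : Hm p a) {n : ℕ} (hn : n < p)
    (c : FreeAlgebra k Y) : hc n (c * a) = 0 := by
  rw [hc_mul]
  apply Finset.sum_eq_zero
  rintro ⟨i, j⟩ hij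
  rw [Finset.HasAntidiagonal.mem_antidiagonal] at hij
  change hc i c * hc j a = 0
  have : j ≠ p := by simp at hij; omega
  rw [ha.ne this, mul_zero]

theorem Hm.mul {p q : ℕ} {a b : FreeAlgebra k Y} (ha : Hm p a) (hb : Hm q b) :
    Hm (p + q) (a * b) := by
  intro m
  by_cases h : q ≤ m
  · obtain ⟨n, rfl⟩ : ∃ n, m = n + q := ⟨m - q, by omega⟩
    rw [hc_mul_hm hb, ha n]
    by_cases hn : n = p
    · rw [if_pos hn, if_pos (by omega)]
    · rw [if_neg hn, if_neg (by omega), zero_mul]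
  · rw [hc_mul_hm_lt hb (by omega), if_neg (by omega)]

theorem Hm_one : Hm 0 (1 : FreeAlgebra k Y) := fun m => hc_one m

theorem Hm.pow {p : ℕ} {a : FreeAlgebra k Y} (ha : Hm p a) (n : ℕ) : Hm (n * p) (a ^ n) := by
  induction n with
  | zero => rw [zero_mul, pow_zero]; exact Hm_one
  | succ n ih => rw [pow_succ, Nat.succ_mul]; exact ih.mul ha

/-- the augmentation -/
noncomputable def eps : FreeAlgebra k Y →ₐ[k] k := FreeAlgebra.lift k (fun _ => (0 : k))

theorem eps_ι (y : Y) : eps (FreeAlgebra.ι k y) = 0 := by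
  rw [eps, FreeAlgebra.lift_ι_apply]

theorem hc_zero_eq (b : FreeAlgebra k Y) : hc 0 b = algebraMap k (FreeAlgebra k Y) (eps b) := by
  refine left_ind (fun b => hc 0 b = algebraMap k (FreeAlgebra k Y) (eps b)) ?_ ?_ ?_ ?_ b
  · rw [hc_one, if_pos rfl, map_one, map_one]
  · intro a b ha hb
    rw [map_add, map_add, map_add, ha, hb]
  · intro c a ha
    rw [map_smul, map_smul, ha, smul_eq_mul, map_mul, Algebra.smul_def]
  · intro y a _
    rw [hc_zero_ι_mul, map_mul, eps_ι, zero_mul, map_zero]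

theorem Hm.eps_zero {p : ℕ} {a : FreeAlgebra k Y} (ha : Hm p a) (hp : 1 ≤ p) : eps a = 0 := by
  have h := hc_zero_eq a
  rw [ha.ne (by omega)] at h
  exact ((map_eq_zero_iff _ (FaithfulSMul.algebraMap_injective k (FreeAlgebra k Y))).mp h.symm)

end basics

section quot

variable {k : Type u} [Field k] {Y : Type v}

/-- the operator of a letter on `B × (Y →₀ B)` -/
noncomputable def lqM (y : Y) : Module.End k (FreeAlgebra k Y × (Y →₀ FreeAlgebra k Y)) :=
  LinearMap.prod
    ((LinearMap.mulLeft k (FreeAlgebra.ι k y)) ∘ₗ LinearMap.fst k _ _)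
    ((Finsupp.lsingle y) ∘ₗ LinearMap.fst k _ _)

theorem lqM_apply (y : Y) (v : FreeAlgebra k Y × (Y →₀ FreeAlgebra k Y)) :
    lqM y v = (FreeAlgebra.ι k y * v.1, Finsupp.single y v.1) := rfl

/-- the action -/
noncomputable def lqA : FreeAlgebra k Y →ₐ[k]
    Module.End k (FreeAlgebra k Y × (Y →₀ FreeAlgebra k Y)) :=
  FreeAlgebra.lift k lqM

/-- the left quotients by the letters -/
noncomputable def lq : FreeAlgebra k Y →ₗ[k] (Y →₀ FreeAlgebra k Y) where
  toFun b := (lqA b (1, 0)).2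
  map_add' a b := by rw [map_add]; rfl
  map_smul' c a := by rw [map_smul]; rfl

theorem lq_apply (b : FreeAlgebra k Y) : lq b = (lqA b (1, 0)).2 := rfl

theorem lqA_fst (b : FreeAlgebra k Y) : (lqA b (1, 0)).1 = b := by
  refine left_ind (fun b => (lqA b (1, 0)).1 = b) ?_ ?_ ?_ ?_ b
  · rw [map_one]; rfl
  · intro a b ha hb
    rw [map_add, LinearMap.add_apply, Prod.fst_add, ha, hb]
  · intro c a ha
    rw [map_smul, LinearMap.smul_apply, Prod.smul_fst, ha]
  · intro y a ha
    rw [map_mul, Module.End.mul_apply]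
    have : lqA (FreeAlgebra.ι k y) = lqM y := by rw [lqA, FreeAlgebra.lift_ι_apply]
    rw [this, lqM_apply, ha]

theorem lq_one : lq (1 : FreeAlgebra k Y) = 0 := by
  rw [lq_apply, map_one]; rfl

theorem lq_ι_mul (y : Y) (b : FreeAlgebra k Y) :
    lq (FreeAlgebra.ι k y * b) = Finsupp.single y b := by
  rw [lq_apply, map_mul, Module.End.mul_apply]
  have : lqA (FreeAlgebra.ι k y) = lqM y := by rw [lqA, FreeAlgebra.lift_ι_apply]
  rw [this, lqM_apply, lqA_fst]

theorem decomp (b : FreeAlgebra k Y) :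
    b = algebraMap k _ (eps b) + (lq b).sum (fun y c => FreeAlgebra.ι k y * c) := by
  classical
  refine left_ind (fun b => b = algebraMap k _ (eps b) +
    (lq b).sum (fun y c => FreeAlgebra.ι k y * c)) ?_ ?_ ?_ ?_ b
  · rw [lq_one, map_one, map_one, Finsupp.sum_zero_index, add_zero]
  · intro a b ha hb
    have : (lq (a + b)).sum (fun y c => FreeAlgebra.ι k y * c) =
        (lq a).sum (fun y c => FreeAlgebra.ι k y * c) +
        (lq b).sum (fun y c => FreeAlgebra.ι k y * c) := by
      rw [map_add, Finsupp.sum_add_index']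
      · intro y; rw [mul_zero]
      · intro y c d; rw [mul_add]
    rw [this, map_add, map_add]
    nth_rewrite 1 [ha]
    nth_rewrite 1 [hb]
    abel
  · intro c a ha
    have : (lq (c • a)).sum (fun y c => FreeAlgebra.ι k y * c) =
        c • (lq a).sum (fun y c => FreeAlgebra.ι k y * c) := by
      rw [map_smul, Finsupp.sum_smul_index', Finsupp.smul_sum]
      · refine Finsupp.sum_congr fun y _ => ?_
        rw [mul_smul_comm]
      · intro y; rw [mul_zero]
    rw [this, map_smul, smul_eq_mul, map_mul]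
    nth_rewrite 1 [ha]
    rw [smul_add, Algebra.smul_def]
  · intro y a _
    rw [lq_ι_mul, map_mul, eps_ι, zero_mul, map_zero, zero_add, Finsupp.sum_single_index]
    rw [mul_zero]

theorem eq_zero_of_lq {b : FreeAlgebra k Y} (h0 : eps b = 0) (h : ∀ y, lq b y = 0) : b = 0 := by
  have h1 : lq b = 0 := by ext y; exact h y
  rw [decomp b, h0, h1, map_zero, Finsupp.sum_zero_index, add_zero]

theorem lq_hc (n : ℕ) (b : FreeAlgebra k Y) (y : Y) : lq (hc (n + 1) b) y = hc n (lq b y) := by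
  refine left_ind (fun b => lq (hc (n + 1) b) y = hc n (lq b y)) ?_ ?_ ?_ ?_ b
  · rw [hc_one, if_neg (by omega), map_zero, lq_one, Finsupp.zero_apply, map_zero]
  · intro a b ha hb
    rw [map_add, map_add, map_add, Finsupp.add_apply, Finsupp.add_apply, map_add, ha, hb]
  · intro c a ha
    rw [map_smul, map_smul, map_smul, Finsupp.smul_apply, Finsupp.smul_apply, map_smul, ha]
  · intro z a _
    classical
    rw [hc_ι_mul, lq_ι_mul, lq_ι_mul, Finsupp.single_apply, Finsupp.single_apply]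
    split_ifs
    · rfl
    · rw [map_zero]

theorem lq_mul (a b : FreeAlgebra k Y) (y : Y) : lq (a * b) y = eps a • lq b y + lq a y * b := by
  refine left_ind (fun a => lq (a * b) y = eps a • lq b y + lq a y * b) ?_ ?_ ?_ ?_ a
  · rw [one_mul, map_one, one_smul, lq_one, Finsupp.zero_apply, zero_mul, add_zero]
  · intro a c ha hc
    rw [add_mul, map_add, map_add, map_add, Finsupp.add_apply, Finsupp.add_apply, ha, hc,
      add_smul, add_mul]
    abel
  · intro r a ha
    rw [smul_mul_assoc, map_smul, map_smul, map_smul, Finsupp.smul_apply, Finsupp.smul_apply, ha,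
      smul_add, smul_eq_mul, mul_smul, smul_mul_assoc]
  · intro z a _
    classical
    rw [mul_assoc, lq_ι_mul, lq_ι_mul, map_mul, eps_ι, zero_mul, zero_smul, zero_add,
      Finsupp.single_apply, Finsupp.single_apply]
    split_ifs
    · rfl
    · rw [zero_mul]

theorem div_hom {p q : ℕ} {a b : FreeAlgebra k Y}
    (j : ℕ) : ∀ c d : FreeAlgebra k Y, Hm (j + (q - p)) c → Hm j d → d ≠ 0 → c * a = d * b →
      ∃ e, Hm (q - p) e ∧ b = e * a := by
  induction j with
  | zero =>
    intro c d hc hd hd0 h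
    have h1 : d = algebraMap k _ (eps d) := by rw [← hc_zero_eq, hd.self]
    have h2 : eps d ≠ 0 := by
      intro h0
      rw [h0, map_zero] at h1
      exact hd0 h1
    refine ⟨(eps d)⁻¹ • c, ?_, ?_⟩
    · rw [zero_add] at hc; exact hc.smul _
    · rw [smul_mul_assoc, h, h1, ← Algebra.smul_def]
      rw [← h1, smul_smul, inv_mul_cancel₀ h2, one_smul]
  | succ j ih =>
    intro c d hc hd hd0 h
    have ec : eps c = 0 := hc.eps_zero (by omega)
    have ed : eps d = 0 := hd.eps_zero (by omega)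
    obtain ⟨y, hy⟩ : ∃ y, lq d y ≠ 0 := by
      by_contra hcon
      push Not at hcon
      exact hd0 (eq_zero_of_lq ed hcon)
    refine ih (lq c y) (lq d y) ?_ ?_ hy ?_
    · intro m
      rw [← lq_hc, hc (m + 1)]
      by_cases hm : m = j + (q - p)
      · rw [if_pos hm, if_pos (by omega)]
      · rw [if_neg hm, if_neg (by omega), map_zero, Finsupp.zero_apply]
    · intro m
      rw [← lq_hc, hd (m + 1)]
      by_cases hm : m = j
      · rw [if_pos hm, if_pos (by omega)]
      · rw [if_neg hm, if_neg (by omega), map_zero, Finsupp.zero_apply]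
    · have h1 := congrArg (fun z => lq z y) h
      simp only [lq_mul, ec, ed, zero_smul, zero_add] at h1
      exact h1

/-- division: if `c a = d b` with homogeneous `a`, `b` and `d ≠ 0`, then `a` divides `b`. -/
theorem div_gen {p q : ℕ} (hpq : p ≤ q) {a b : FreeAlgebra k Y} (ha : Hm p a) (hb : Hm q b)
    {c d : FreeAlgebra k Y} (hd0 : d ≠ 0) (h : c * a = d * b) :
    ∃ e, Hm (q - p) e ∧ b = e * a := by
  obtain ⟨j, hj⟩ : ∃ j, hc j d ≠ 0 := by
    by_contra hcon
    push Not at hcon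
    exact hd0 (eq_zero_of_hc hcon)
  refine div_hom j (hc (j + (q - p)) c) (hc j d) (Hm_hc _ _) (Hm_hc _ _) hj ?_
  rw [← hc_mul_hm ha, ← hc_mul_hm hb, ← h]
  congr 2
  omega

end quot

section pair

variable {k : Type u} [Field k] {Y : Type v}

/-- the substitution `X ↦ X`, `Y ↦ Y X` -/
noncomputable def sub : FreeAlgebra k (Fin 2) →ₐ[k] FreeAlgebra k (Fin 2) :=
  FreeAlgebra.lift k ![FreeAlgebra.ι k 0, FreeAlgebra.ι k 1 * FreeAlgebra.ι k 0]

theorem sub_0 : sub (FreeAlgebra.ι k (0 : Fin 2)) = FreeAlgebra.ι k 0 := by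
  rw [sub, FreeAlgebra.lift_ι_apply]; rfl

theorem sub_1 : sub (FreeAlgebra.ι k (1 : Fin 2)) = FreeAlgebra.ι k 1 * FreeAlgebra.ι k 0 := by
  rw [sub, FreeAlgebra.lift_ι_apply]; rfl

theorem decomp2 (G : FreeAlgebra k (Fin 2)) : G = algebraMap k _ (eps G) +
    (FreeAlgebra.ι k 0 * lq G 0 + FreeAlgebra.ι k 1 * lq G 1) := by
  classical
  have h := decomp G
  rw [Finsupp.sum_fintype _ _ (fun i => by rw [mul_zero]), Fin.sum_univ_two] at h
  exact h

theorem sub_inj_aux (n : ℕ) : ∀ G : FreeAlgebra k (Fin 2), (∀ m, n ≤ m → hc m G = 0) →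
    sub G = 0 → G = 0 := by
  induction n with
  | zero =>
    intro G h _
    exact eq_zero_of_hc fun m => h m (Nat.zero_le _)
  | succ n ih =>
    intro G h h0
    have he : eps G = 0 := by
      have h1 : (eps : FreeAlgebra k (Fin 2) →ₐ[k] k).comp sub = eps := by
        apply FreeAlgebra.hom_ext
        funext i
        fin_cases i
        · change eps (sub (FreeAlgebra.ι k (0 : Fin 2))) = eps (FreeAlgebra.ι k (0 : Fin 2))
          rw [sub_0]
        · change eps (sub (FreeAlgebra.ι k (1 : Fin 2))) = eps (FreeAlgebra.ι k (1 : Fin 2))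
          rw [sub_1, map_mul, eps_ι, eps_ι, zero_mul]
      rw [← h1]
      change eps (sub G) = 0
      rw [h0, map_zero]
    have hs : ∀ i m, n ≤ m → hc m (lq G i) = 0 := by
      intro i m hm
      rw [← lq_hc, h (m + 1) (by omega), map_zero, Finsupp.zero_apply]
    have hG := decomp2 G
    rw [he, map_zero, zero_add] at hG
    have h1 : FreeAlgebra.ι k 0 * sub (lq G 0) +
        FreeAlgebra.ι k 1 * (FreeAlgebra.ι k 0 * sub (lq G 1)) = 0 := by
      rw [hG, map_add, map_mul, map_mul, sub_0, sub_1, mul_assoc] at h0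
      exact h0
    have h2 := congrArg (fun z => lq z 0) h1
    have h3 := congrArg (fun z => lq z 1) h1
    simp only [map_add, lq_ι_mul, map_zero, Finsupp.add_apply, Finsupp.zero_apply] at h2 h3
    rw [Finsupp.single_eq_same, Finsupp.single_eq_of_ne (by decide), add_zero] at h2
    rw [Finsupp.single_eq_same, Finsupp.single_eq_of_ne (by decide), zero_add] at h3
    have h4 : sub (lq G 1) = 0 := by
      rcases mul_eq_zero.mp h3 with h5 | h5
      · exact absurd h5 (FreeAlgebra.ι_ne_zero _)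
      · exact h5
    rw [hG, ih _ (hs 0) h2, ih _ (hs 1) h4, mul_zero, mul_zero, add_zero]

theorem sub_inj {G : FreeAlgebra k (Fin 2)} (h : sub G = 0) : G = 0 := by
  obtain ⟨N, hN⟩ := sum_hc G
  exact sub_inj_aux N G (hN N le_rfl).2 h

/-- length at most `n`, with right multiplications -/
def Len (k : Type u) [Field k] : ℕ → FreeAlgebra k (Fin 2) → Prop
  | 0 => fun G => ∃ c : k, G = algebraMap k _ c
  | (n + 1) => fun G => ∃ (c : k) (G0 G1 : FreeAlgebra k (Fin 2)), Len k n G0 ∧ Len k n G1 ∧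
      G = algebraMap k _ c + (G0 * FreeAlgebra.ι k 0 + G1 * FreeAlgebra.ι k 1)

theorem Len_zero (n : ℕ) : Len k n 0 := by
  induction n with
  | zero => exact ⟨0, by rw [map_zero]⟩
  | succ n ih => exact ⟨0, 0, 0, ih, ih, by simp⟩

theorem Len_add (n : ℕ) : ∀ G H : FreeAlgebra k (Fin 2), Len k n G → Len k n H →
    Len k n (G + H) := by
  induction n with
  | zero =>
    rintro G H ⟨c, rfl⟩ ⟨d, rfl⟩
    exact ⟨c + d, by rw [map_add]⟩
  | succ n ih =>
    rintro G H ⟨c, G0, G1, h0, h1, rfl⟩ ⟨d, H0, H1, h0', h1', rfl⟩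
    refine ⟨c + d, G0 + H0, G1 + H1, ih _ _ h0 h0', ih _ _ h1 h1', ?_⟩
    rw [map_add, add_mul, add_mul]; abel

theorem Len_smul (r : k) (n : ℕ) : ∀ G : FreeAlgebra k (Fin 2), Len k n G → Len k n (r • G) := by
  induction n with
  | zero =>
    rintro G ⟨c, rfl⟩
    exact ⟨r * c, by rw [map_mul, Algebra.smul_def]⟩
  | succ n ih =>
    rintro G ⟨c, G0, G1, h0, h1, rfl⟩
    refine ⟨r * c, r • G0, r • G1, ih _ h0, ih _ h1, ?_⟩
    rw [map_mul, smul_add, smul_add, smul_mul_assoc, smul_mul_assoc, Algebra.smul_def r (algebraMap k _ c)]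

theorem Len_succ (n : ℕ) : ∀ G : FreeAlgebra k (Fin 2), Len k n G → Len k (n + 1) G := by
  induction n with
  | zero =>
    rintro G ⟨c, rfl⟩
    exact ⟨c, 0, 0, Len_zero _, Len_zero _, by simp⟩
  | succ n ih =>
    rintro G ⟨c, G0, G1, h0, h1, rfl⟩
    exact ⟨c, G0, G1, ih _ h0, ih _ h1, rfl⟩

theorem Len_mono {m n : ℕ} (h : m ≤ n) {G : FreeAlgebra k (Fin 2)} (hG : Len k m G) :
    Len k n G := by
  induction n, h using Nat.le_induction with
  | base => exact hG
  | succ n _ ih => exact Len_succ n G ih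

theorem Len_alg (n : ℕ) (c : k) : Len k n (algebraMap k _ c) :=
  Len_mono (Nat.zero_le n) ⟨c, rfl⟩

theorem Len_left (i : Fin 2) (n : ℕ) : ∀ G : FreeAlgebra k (Fin 2), Len k n G →
    Len k (n + 1) (FreeAlgebra.ι k i * G) := by
  have hi : ∀ (n : ℕ) (c : k), Len k (n + 1) (FreeAlgebra.ι k i * algebraMap k _ c) := by
    intro n c
    rw [← Algebra.commutes]
    fin_cases i
    · exact ⟨0, algebraMap k _ c, 0, Len_alg _ _, Len_zero _, by simp⟩
    · exact ⟨0, 0, algebraMap k _ c, Len_zero _, Len_alg _ _, by simp⟩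
  induction n with
  | zero =>
    rintro G ⟨c, rfl⟩
    exact hi 0 c
  | succ n ih =>
    rintro G ⟨c, G0, G1, h0, h1, rfl⟩
    rw [mul_add]
    refine Len_add _ _ _ (hi _ c) ?_
    refine ⟨0, FreeAlgebra.ι k i * G0, FreeAlgebra.ι k i * G1, ih _ h0, ih _ h1, ?_⟩
    rw [map_zero, zero_add, mul_add, mul_assoc, mul_assoc]

theorem exists_Len (G : FreeAlgebra k (Fin 2)) : ∃ n, Len k n G := by
  refine left_ind (fun G => ∃ n, Len k n G) ?_ ?_ ?_ ?_ G
  · exact ⟨0, 1, by rw [map_one]⟩
  · rintro a b ⟨m, hm⟩ ⟨n, hn⟩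
    exact ⟨max m n, Len_add _ _ _ (Len_mono (le_max_left _ _) hm) (Len_mono (le_max_right _ _) hn)⟩
  · rintro c a ⟨n, hn⟩
    exact ⟨n, Len_smul c n _ hn⟩
  · rintro i a ⟨n, hn⟩
    exact ⟨n + 1, Len_left i n _ hn⟩

theorem lift2_0 {A : Type*} [Ring A] [Algebra k A] (a b : A) :
    FreeAlgebra.lift k ![a, b] (FreeAlgebra.ι k 0) = a := by
  rw [FreeAlgebra.lift_ι_apply]; rfl

theorem lift2_1 {A : Type*} [Ring A] [Algebra k A] (a b : A) :
    FreeAlgebra.lift k ![a, b] (FreeAlgebra.ι k 1) = b := by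
  rw [FreeAlgebra.lift_ι_apply]; rfl

theorem free_nd {p q : ℕ} (hp : 1 ≤ p) (hq : 1 ≤ q) (hpq : p ≤ q) {a b : FreeAlgebra k Y}
    (ha : Hm p a) (hb : Hm q b) (ha0 : a ≠ 0) (hnd : ¬ ∃ e, Hm (q - p) e ∧ b = e * a) (n : ℕ) :
    ∀ G : FreeAlgebra k (Fin 2), Len k n G → FreeAlgebra.lift k ![a, b] G = 0 → G = 0 := by
  have halg : ∀ (c : k) , algebraMap k (FreeAlgebra k Y) c = 0 → c = 0 := fun c h =>
    (map_eq_zero_iff _ (FaithfulSMul.algebraMap_injective k (FreeAlgebra k Y))).mp h
  induction n with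
  | zero =>
    rintro G ⟨c, rfl⟩ h
    rw [AlgHom.commutes] at h
    rw [halg c h, map_zero]
  | succ n ih =>
    rintro G ⟨c, G0, G1, h0, h1, rfl⟩ h
    rw [map_add, map_add, map_mul, map_mul, lift2_0, lift2_1, AlgHom.commutes] at h
    have hc0 : c = 0 := by
      have h2 := congrArg eps h
      rw [map_add, map_add, map_mul, map_mul, ha.eps_zero hp, hb.eps_zero hq, mul_zero, mul_zero,
        add_zero, add_zero, map_zero, AlgHom.commutes] at h2
      exact h2
    rw [hc0, map_zero, zero_add] at h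
    by_cases hv : FreeAlgebra.lift k ![a, b] G1 = 0
    · rw [hv, zero_mul, add_zero] at h
      rcases mul_eq_zero.mp h with h3 | h3
      · rw [hc0, ih _ h0 h3, ih _ h1 hv]; simp
      · exact absurd h3 ha0
    · exfalso
      apply hnd
      refine div_gen hpq ha hb (c := FreeAlgebra.lift k ![a, b] G0)
        (d := -FreeAlgebra.lift k ![a, b] G1) (neg_ne_zero.mpr hv) ?_
      rw [neg_mul]
      exact eq_neg_of_add_eq_zero_left h

theorem lift2_swap {A : Type*} [Ring A] [Algebra k A] (a b : A) (G : FreeAlgebra k (Fin 2)) :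
    FreeAlgebra.lift k ![a, b] (FreeAlgebra.lift k
      ![(FreeAlgebra.ι k 1 : FreeAlgebra k (Fin 2)), FreeAlgebra.ι k 0] G) =
      FreeAlgebra.lift k ![b, a] G := by
  have : (FreeAlgebra.lift k ![a, b]).comp (FreeAlgebra.lift k
      ![(FreeAlgebra.ι k 1 : FreeAlgebra k (Fin 2)), FreeAlgebra.ι k 0]) =
      FreeAlgebra.lift k ![b, a] := by
    apply FreeAlgebra.hom_ext
    funext i
    fin_cases i <;> simp
  exact congrArg (fun f : FreeAlgebra k (Fin 2) →ₐ[k] A => f G) this

theorem swap_swap (G : FreeAlgebra k (Fin 2)) : FreeAlgebra.lift k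
    ![(FreeAlgebra.ι k 1 : FreeAlgebra k (Fin 2)), FreeAlgebra.ι k 0] (FreeAlgebra.lift k
      ![(FreeAlgebra.ι k 1 : FreeAlgebra k (Fin 2)), FreeAlgebra.ι k 0] G) = G := by
  rw [lift2_swap]
  have : FreeAlgebra.lift k ![(FreeAlgebra.ι k 0 : FreeAlgebra k (Fin 2)), FreeAlgebra.ι k 1] =
      AlgHom.id k _ := by
    apply FreeAlgebra.hom_ext
    funext i
    fin_cases i <;> simp
  rw [this]; rfl

theorem free_aux (N : ℕ) : ∀ (p q : ℕ) (a b : FreeAlgebra k Y), p + q ≤ N → 1 ≤ p → 1 ≤ q →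
    Hm p a → Hm q b → a * b ≠ b * a → ∀ G : FreeAlgebra k (Fin 2),
      FreeAlgebra.lift k ![a, b] G = 0 → G = 0 := by
  induction N with
  | zero => intro p q a b h hp; omega
  | succ N ih =>
    have main : ∀ (p q : ℕ) (a b : FreeAlgebra k Y), p ≤ q → p + q ≤ N + 1 → 1 ≤ p → 1 ≤ q →
        Hm p a → Hm q b → a * b ≠ b * a → ∀ G : FreeAlgebra k (Fin 2),
          FreeAlgebra.lift k ![a, b] G = 0 → G = 0 := by
      intro p q a b hpq hN hp hq ha hb hab G hG
      by_cases hnd : ∃ e, Hm (q - p) e ∧ b = e * a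
      · obtain ⟨e, he, rfl⟩ := hnd
        rcases Nat.eq_zero_or_pos (q - p) with h0 | h0
        · exfalso
          rw [h0] at he
          have h1 : e = algebraMap k _ (eps e) := by rw [← hc_zero_eq, he.self]
          apply hab
          have h4 : a * e = e * a := by
            rw [h1]; exact (Algebra.commutes _ _).symm
          rw [← mul_assoc, h4]
        · have h2 : FreeAlgebra.lift k ![a, e] (sub G) = 0 := by
            rw [← hG]
            have : (FreeAlgebra.lift k ![a, e]).comp sub = FreeAlgebra.lift k ![a, e * a] := by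
              apply FreeAlgebra.hom_ext
              funext i
              fin_cases i
              · change FreeAlgebra.lift k ![a, e] (sub (FreeAlgebra.ι k (0 : Fin 2))) =
                  FreeAlgebra.lift k ![a, e * a] (FreeAlgebra.ι k (0 : Fin 2))
                rw [sub_0, lift2_0, lift2_0]
              · change FreeAlgebra.lift k ![a, e] (sub (FreeAlgebra.ι k (1 : Fin 2))) =
                  FreeAlgebra.lift k ![a, e * a] (FreeAlgebra.ι k (1 : Fin 2))
                rw [sub_1, map_mul, lift2_0, lift2_1, lift2_1]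
            exact congrArg (fun f : FreeAlgebra k (Fin 2) →ₐ[k] FreeAlgebra k Y => f G) this
          refine sub_inj (ih p (q - p) a e (by omega) hp (by omega) ha he ?_ _ h2)
          intro h3
          apply hab
          rw [← mul_assoc, h3]
      · obtain ⟨n, hn⟩ := exists_Len G
        refine free_nd hp hq hpq ha hb ?_ hnd n G hn hG
        rintro rfl
        exact hab (by rw [zero_mul, mul_zero])
    intro p q a b hN hp hq ha hb hab G hG
    rcases le_total p q with hpq | hpq
    · exact main p q a b hpq hN hp hq ha hb hab G hG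
    · have h1 := main q p b a hpq (by omega) hq hp hb ha (Ne.symm hab)
        (FreeAlgebra.lift k ![(FreeAlgebra.ι k 1 : FreeAlgebra k (Fin 2)), FreeAlgebra.ι k 0] G)
        (by rw [lift2_swap]; exact hG)
      rw [← swap_swap G, h1, map_zero]

/-- two homogeneous elements of a free associative algebra which do not commute are free -/
theorem free_pair {p q : ℕ} {a b : FreeAlgebra k Y} (hp : 1 ≤ p) (hq : 1 ≤ q) (ha : Hm p a)
    (hb : Hm q b) (hab : a * b ≠ b * a) {G : FreeAlgebra k (Fin 2)}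
    (hG : FreeAlgebra.lift k ![a, b] G = 0) : G = 0 :=
  free_aux (p + q) p q a b le_rfl hp hq ha hb hab G hG

end pair

end Pool.Agent.J4H43.FR
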