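import Pool.Agent.J4H43.FR.FA

/-!
# The coproduct of a free associative algebra
-/

set_option autoImplicit false

namespace Pool.Agent.J4H43.FR

open Polynomial TensorProduct

universe u v

section cop

variable {k : Type u} [Field k] {Y : Type v}

/-- the coproduct for which the letters are primitive -/
noncomputable def De : FreeAlgebra k Y →ₐ[k] (FreeAlgebra k Y ⊗[k] FreeAlgebra k Y) :=
  FreeAlgebra.lift k (fun y => FreeAlgebra.ι k y ⊗ₜ[k] 1 + 1 ⊗ₜ[k] FreeAlgebra.ι k y)

theorem De_ι (y : Y) : De (FreeAlgebra.ι k y) =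
    FreeAlgebra.ι k y ⊗ₜ[k] 1 + 1 ⊗ₜ[k] FreeAlgebra.ι k y := by
  rw [De, FreeAlgebra.lift_ι_apply]

/-- primitive elements -/
def Prm (b : FreeAlgebra k Y) : Prop := De b = b ⊗ₜ[k] 1 + 1 ⊗ₜ[k] b

/-- the coefficient of a word -/
noncomputable def wc (v : FreeMonoid Y) : FreeAlgebra k Y →ₗ[k] k where
  toFun b := (FreeAlgebra.equivMonoidAlgebraFreeMonoid b).coeff v
  map_add' a b := by rw [map_add]; rfl
  map_smul' c a := by rw [map_smul]; rfl

theorem wc_apply (v : FreeMonoid Y) (b : FreeAlgebra k Y) :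
    wc v b = (FreeAlgebra.equivMonoidAlgebraFreeMonoid b).coeff v := rfl

end cop

end Pool.Agent.J4H43.FR
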