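import Pool.Agent.J4H43.FR.FB

/-!
# Coefficients of words in free associative algebras
-/

set_option autoImplicit false

namespace Pool.Agent.J4H43.FR

open Polynomial TensorProduct

universe u v

section words

variable {k : Type u} [Field k] {Y : Type v}

theorem eq_ι (y : Y) : FreeAlgebra.equivMonoidAlgebraFreeMonoid (FreeAlgebra.ι k y) =
    MonoidAlgebra.single (FreeMonoid.of y) 1 := by
  simp [FreeAlgebra.equivMonoidAlgebraFreeMonoid]

theorem eq_ι_mul (y : Y) (b : FreeAlgebra k Y) :
    FreeAlgebra.equivMonoidAlgebraFreeMonoid (FreeAlgebra.ι k y * b) =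
      MonoidAlgebra.single (FreeMonoid.of y) 1 *
        FreeAlgebra.equivMonoidAlgebraFreeMonoid b := by
  rw [map_mul, eq_ι]

theorem wc_unit [DecidableEq (FreeMonoid Y)] (v : FreeMonoid Y) :
    wc v (1 : FreeAlgebra k Y) = if v = 1 then 1 else 0 := by
  rw [wc_apply, map_one, MonoidAlgebra.one_def, MonoidAlgebra.coeff_single, Finsupp.single_apply]
  by_cases h : v = 1
  · rw [if_pos h, if_pos h.symm]
  · rw [if_neg h, if_neg (Ne.symm h)]

theorem wc_ι_mul (y : Y) (v : FreeMonoid Y) (b : FreeAlgebra k Y) :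
    wc (FreeMonoid.of y * v) (FreeAlgebra.ι k y * b) = wc v b := by
  rw [wc_apply, eq_ι_mul, MonoidAlgebra.coeff_single_mul_mul, one_mul]; rfl

theorem of_mul_ne_one (y : Y) (v : FreeMonoid Y) : FreeMonoid.of y * v ≠ 1 := by
  intro h
  have := congrArg (fun w => (FreeMonoid.toList w).length) h
  simp at this

theorem of_mul_inj {y z : Y} {v w : FreeMonoid Y} (h : FreeMonoid.of y * v = FreeMonoid.of z * w) :
    y = z ∧ v = w := by
  have h1 : FreeMonoid.toList (FreeMonoid.of y * v) = FreeMonoid.toList (FreeMonoid.of z * w) := by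
    rw [h]
  rw [FreeMonoid.toList_of_mul, FreeMonoid.toList_of_mul, List.cons.injEq] at h1
  exact ⟨h1.1, FreeMonoid.toList.injective h1.2⟩

theorem wc_ι_mul_ne {y z : Y} (hyz : y ≠ z) (v : FreeMonoid Y) (b : FreeAlgebra k Y) :
    wc (FreeMonoid.of z * v) (FreeAlgebra.ι k y * b) = 0 := by
  rw [wc_apply, eq_ι_mul, MonoidAlgebra.coeff_single_mul_of_forall_mul_ne]
  intro d h
  exact hyz (of_mul_inj h).1

theorem wc_nil_ι_mul (y : Y) (b : FreeAlgebra k Y) : wc 1 (FreeAlgebra.ι k y * b) = 0 := by
  rw [wc_apply, eq_ι_mul, MonoidAlgebra.coeff_single_mul_of_forall_mul_ne]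
  intro d
  exact of_mul_ne_one y d

theorem wc_ext {b : FreeAlgebra k Y} (h : ∀ v, wc v b = 0) : b = 0 := by
  have h1 : FreeAlgebra.equivMonoidAlgebraFreeMonoid b = 0 := by
    ext v
    exact h v
  exact (map_eq_zero_iff _ (FreeAlgebra.equivMonoidAlgebraFreeMonoid (R := k)).injective).mp h1

theorem wc_hc (v : FreeMonoid Y) (n : ℕ) (b : FreeAlgebra k Y) :
    wc v (hc n b) = if v.length = n then wc v b else 0 := by
  classical
  revert v n
  refine left_ind (fun b => ∀ (v : FreeMonoid Y) (n : ℕ),
    wc v (hc n b) = if v.length = n then wc v b else 0) ?_ ?_ ?_ ?_ b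
  · intro v n
    rw [hc_one, wc_unit]
    by_cases hn : n = 0
    · rw [if_pos hn, wc_unit]
      by_cases hv : v = 1
      · rw [if_pos hv, if_pos (by rw [hv, hn]; rfl)]
      · rw [if_neg hv]; split_ifs <;> rfl
    · rw [if_neg hn, map_zero]
      by_cases hv : v = 1
      · rw [if_neg]
        rw [hv]; exact fun h => hn h.symm
      · rw [if_neg hv]; split_ifs <;> rfl
  · intro a b ha hb v n
    rw [map_add, map_add, map_add, ha, hb]; split_ifs <;> simp
  · intro c a ha v n
    rw [map_smul, map_smul, map_smul, ha]; split_ifs <;> simp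
  · intro y a ha v n
    induction v using FreeMonoid.casesOn with
    | one =>
      cases n with
      | zero => rw [hc_zero_ι_mul, map_zero, wc_nil_ι_mul]; split_ifs <;> rfl
      | succ n => rw [hc_ι_mul, wc_nil_ι_mul, wc_nil_ι_mul]; split_ifs <;> rfl
    | of_mul z v =>
      cases n with
      | zero => rw [hc_zero_ι_mul, map_zero, if_neg]; simp [FreeMonoid.length_mul]
      | succ n =>
        rw [hc_ι_mul]
        have hl : (FreeMonoid.of z * v).length = v.length + 1 := by
          rw [FreeMonoid.length_mul, FreeMonoid.length_of, add_comm]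
        by_cases hzy : y = z
        · subst hzy
          rw [wc_ι_mul, wc_ι_mul, ha, hl]
          simp only [Nat.add_right_cancel_iff]
        · rw [wc_ι_mul_ne hzy, wc_ι_mul_ne hzy]
          split_ifs <;> rfl

end words

end Pool.Agent.J4H43.FR
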