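import Pool.Agent.J4H43.FR.FC
import Pool.Agent.Helper392_GT.Dep

/-!
# Filtrations and values of Lie polynomials
-/

set_option autoImplicit false

namespace Pool.Agent.J4H43.FR

open Polynomial Pool.Agent.Helper392_GT

universe u v

attribute [local instance 100] LieRing.ofAssociativeRing

section fil

variable {k : Type u} [Field k] {M : Type v} [AddCommGroup M] [Module k M]
  {Fil : ℕ → Submodule k M}

/-- `T` raises the filtration by `r` -/
def Rs (Fil : ℕ → Submodule k M) (r : ℕ) (T : Module.End k M) : Prop :=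
  ∀ n m, m ∈ Fil n → T m ∈ Fil (n + r)

theorem Rs.mul {r s : ℕ} {T S : Module.End k M} (hT : Rs Fil r T) (hS : Rs Fil s S) :
    Rs Fil (r + s) (T * S) := by
  intro n m hm
  have := hT _ _ (hS n m hm)
  rw [Module.End.mul_apply, show n + (r + s) = n + s + r by omega]
  exact this

theorem Rs.add {r : ℕ} {T S : Module.End k M} (hT : Rs Fil r T) (hS : Rs Fil r S) :
    Rs Fil r (T + S) := fun n m hm => (Fil (n + r)).add_mem (hT n m hm) (hS n m hm)

theorem Rs.smul {r : ℕ} {T : Module.End k M} (c : k) (hT : Rs Fil r T) :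
    Rs Fil r (c • T) := fun n m hm => (Fil (n + r)).smul_mem c (hT n m hm)

theorem Rs.neg {r : ℕ} {T : Module.End k M} (hT : Rs Fil r T) :
    Rs Fil r (-T) := fun n m hm => (Fil (n + r)).neg_mem (hT n m hm)

theorem Rs.sub {r : ℕ} {T S : Module.End k M} (hT : Rs Fil r T) (hS : Rs Fil r S) :
    Rs Fil r (T - S) := fun n m hm => (Fil (n + r)).sub_mem (hT n m hm) (hS n m hm)

theorem Rs.zero (r : ℕ) : Rs Fil r (0 : Module.End k M) := fun n _ _ => (Fil (n + r)).zero_mem

theorem Rs.one : Rs Fil 0 (1 : Module.End k M) := fun _ _ hm => hm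

theorem Rs.mono (hF : Antitone Fil) {r s : ℕ} (hrs : s ≤ r) {T : Module.End k M}
    (hT : Rs Fil r T) : Rs Fil s T := fun n m hm => hF (by omega) (hT n m hm)

theorem word_zero {S : Type*} [Monoid S] (f : Fin 2 → S) (w : FreeMonoid (Fin 2)) (i : Fin 2) :
    FreeMonoid.lift f (FreeMonoid.of i * w) = f i * FreeMonoid.lift f w := by
  rw [MonoidHom.map_mul, FreeMonoid.lift_eval_of]

theorem count_of_mul_0 (w : FreeMonoid (Fin 2)) :
    (FreeMonoid.toList (FreeMonoid.of 0 * w)).count 1 = (FreeMonoid.toList w).count 1 := by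
  rw [FreeMonoid.toList_of_mul]; simp

theorem count_of_mul_1 (w : FreeMonoid (Fin 2)) :
    (FreeMonoid.toList (FreeMonoid.of 1 * w)).count 1 = (FreeMonoid.toList w).count 1 + 1 := by
  rw [FreeMonoid.toList_of_mul]; simp

theorem Rs_word {A B : Module.End k M} (hA : Rs Fil 0 A) (hB : Rs Fil 1 B)
    (w : FreeMonoid (Fin 2)) :
    Rs Fil ((FreeMonoid.toList w).count 1) (FreeMonoid.lift ![A, B] w) := by
  induction w using FreeMonoid.recOn with
  | one =>
    rw [MonoidHom.map_one]; exact Rs.one
  | of_mul i w ih =>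
    rw [word_zero]
    fin_cases i
    · change Rs Fil ((FreeMonoid.toList (FreeMonoid.of 0 * w)).count 1)
        (A * FreeMonoid.lift ![A, B] w)
      rw [count_of_mul_0]
      have := hA.mul ih
      rwa [zero_add] at this
    · change Rs Fil ((FreeMonoid.toList (FreeMonoid.of 1 * w)).count 1)
        (B * FreeMonoid.lift ![A, B] w)
      rw [count_of_mul_1]
      have := hB.mul ih
      rwa [add_comm] at this

theorem Rs_word_sub {A A0 B : Module.End k M} (hA : Rs Fil 0 A)
    (hA0 : Rs Fil 0 A0) (hd : Rs Fil 1 (A - A0)) (hB : Rs Fil 1 B) (w : FreeMonoid (Fin 2)) :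
    Rs Fil ((FreeMonoid.toList w).count 1 + 1)
      (FreeMonoid.lift ![A, B] w - FreeMonoid.lift ![A0, B] w) := by
  induction w using FreeMonoid.recOn with
  | one =>
    rw [MonoidHom.map_one, MonoidHom.map_one, sub_self]; exact Rs.zero _
  | of_mul i w ih =>
    rw [word_zero, word_zero]
    fin_cases i
    · change Rs Fil ((FreeMonoid.toList (FreeMonoid.of 0 * w)).count 1 + 1)
        (A * FreeMonoid.lift ![A, B] w - A0 * FreeMonoid.lift ![A0, B] w)
      rw [count_of_mul_0]
      have e : A * FreeMonoid.lift ![A, B] w - A0 * FreeMonoid.lift ![A0, B] w =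
          A * (FreeMonoid.lift ![A, B] w - FreeMonoid.lift ![A0, B] w) +
            (A - A0) * FreeMonoid.lift ![A0, B] w := by
        rw [mul_sub, sub_mul]; abel
      rw [e]
      refine Rs.add ?_ ?_
      · have := hA.mul ih
        rwa [zero_add] at this
      · have := hd.mul (Rs_word hA0 hB w)
        rwa [add_comm] at this
    · change Rs Fil ((FreeMonoid.toList (FreeMonoid.of 1 * w)).count 1 + 1)
        (B * FreeMonoid.lift ![A, B] w - B * FreeMonoid.lift ![A0, B] w)
      rw [count_of_mul_1, ← mul_sub]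
      have := hB.mul ih
      rwa [add_comm] at this

theorem Rs_word_len {A B : Module.End k M} (hA : Rs Fil 1 A) (hB : Rs Fil 1 B)
    (w : FreeMonoid (Fin 2)) :
    Rs Fil w.length (FreeMonoid.lift ![A, B] w) := by
  induction w using FreeMonoid.recOn with
  | one => rw [map_one]; exact Rs.one
  | of_mul i w ih =>
    rw [word_zero, FreeMonoid.length_mul, FreeMonoid.length_of]
    fin_cases i
    · exact hA.mul ih
    · exact hB.mul ih

theorem Rs_sum {d : ℕ} (p : FreeMonoid (Fin 2) →₀ k) (W : FreeMonoid (Fin 2) → Module.End k M)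
    (h : ∀ w, p w ≠ 0 → Rs Fil d (W w)) : Rs Fil d (p.sum fun w c => c • W w) := by
  intro n m hm
  rw [Finsupp.sum, LinearMap.sum_apply]
  refine Submodule.sum_mem _ fun w hw => ?_
  exact (Fil (n + d)).smul_mem _ (h w (Finsupp.mem_support_iff.mp hw) n m hm)

theorem Rs_subst (hF : Antitone Fil) {d : ℕ} {ψ : F2 k} (h : DepthGE k d ψ)
    {A B : Module.End k M} (hA : Rs Fil 0 A) (hB : Rs Fil 1 B) :
    Rs Fil d (subst k A B ψ) := by
  rw [subst_eq_sum]
  refine Rs_sum _ _ fun w hw => ?_
  refine (Rs_word hA hB w).mono hF ?_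
  by_contra hlt
  exact hw (h w (not_le.mp hlt))

theorem Rs_subst_sub (hF : Antitone Fil) {d : ℕ} {ψ : F2 k} (h : DepthGE k d ψ)
    {A A0 B : Module.End k M} (hA : Rs Fil 0 A) (hA0 : Rs Fil 0 A0) (hd : Rs Fil 1 (A - A0))
    (hB : Rs Fil 1 B) :
    Rs Fil (d + 1) (subst k A B ψ - subst k A0 B ψ) := by
  rw [subst_eq_sum, subst_eq_sum, ← Finsupp.sum_sub]
  simp only [← smul_sub]
  refine Rs_sum _ _ fun w hw => ?_
  refine (Rs_word_sub hA hA0 hd hB w).mono hF ?_
  by_contra hlt
  exact hw (h w (by omega))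

end fil

section pure

variable {k : Type u} [Field k]

theorem subst_comm_ring {S : Type*} [CommRing S] [Algebra k S] {ψ : F2 k} (hψ : ψ ∈ D1 k)
    (a b : S) : subst k a b ψ = 0 := by
  refine lie_ind ⊤ ⊤ (fun u => subst k a b u = 0) ?_ ?_ ?_ ?_ hψ
  · exact map_zero _
  · intro u v hu hv
    rw [map_add, hu, hv, add_zero]
  · intro c u hu
    rw [map_smul, hu, smul_zero]
  · intro u _ v _
    rw [LieHom.map_lie, Ring.lie_def, mul_comm, sub_self]

theorem lift_pure (w : FreeMonoid (Fin 2)) : FreeMonoid.lift ![(0 : k[X]), X] w =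
    if (FreeMonoid.toList w).count 0 = 0 then X ^ w.length else 0 := by
  induction w using FreeMonoid.recOn with
  | one => rw [map_one]; simp
  | of_mul i w ih =>
    rw [word_zero, ih, FreeMonoid.toList_of_mul, FreeMonoid.length_mul, FreeMonoid.length_of]
    fin_cases i
    · simp
    · simp [pow_add]

theorem eq_pow_of_count {w : FreeMonoid (Fin 2)} (h : (FreeMonoid.toList w).count 0 = 0) :
    w = FreeMonoid.of 1 ^ w.length := by
  induction w using FreeMonoid.recOn with
  | one => simp
  | of_mul i w ih =>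
    rw [FreeMonoid.toList_of_mul] at h
    rw [FreeMonoid.length_mul, FreeMonoid.length_of, pow_add, pow_one]
    fin_cases i
    · simp at h
    · rw [List.count_cons] at h
      have h2 := ih (by simpa using h)
      change FreeMonoid.of 1 * w = _
      rw [← h2]

theorem wordCoeff_pure {ψ : F2 k} (hψ : ψ ∈ D1 k) {w : FreeMonoid (Fin 2)}
    (hw : (FreeMonoid.toList w).count 0 = 0) : wordCoeff k ψ w = 0 := by
  classical
  have h := subst_eq_sum (0 : k[X]) X ψ
  rw [subst_comm_ring hψ] at h
  have h1 := congrArg (fun p => coeff p w.length) h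
  simp only [coeff_zero, Finsupp.sum, finsetSum_coeff, coeff_smul, lift_pure] at h1
  by_contra hne
  rw [Finset.sum_eq_single w] at h1
  · rw [if_pos hw, coeff_X_pow_self, smul_eq_mul, mul_one] at h1
    exact hne h1.symm
  · intro w' _ hw'
    split_ifs with h2
    · rw [coeff_X_pow, if_neg, smul_zero]
      intro hl
      apply hw'
      rw [eq_pow_of_count h2, eq_pow_of_count hw, ← hl]
    · rw [coeff_zero, smul_zero]
  · intro hns
    rw [Finsupp.notMem_support_iff] at hns
    exact absurd hns hne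

theorem count_add (w : FreeMonoid (Fin 2)) :
    (FreeMonoid.toList w).count 0 + (FreeMonoid.toList w).count 1 = w.length := by
  induction w using FreeMonoid.recOn with
  | one => simp
  | of_mul i w ih =>
    rw [FreeMonoid.toList_of_mul, FreeMonoid.length_mul, FreeMonoid.length_of, ← ih]
    fin_cases i
    · simp; omega
    · simp; omega

variable {M : Type v} [AddCommGroup M] [Module k M] {Fil : ℕ → Submodule k M}

theorem Rs_subst_succ (hF : Antitone Fil) {d : ℕ} {ψ : F2 k} (h : DepthGE k d ψ) (hψ : ψ ∈ D1 k)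
    {A B : Module.End k M} (hA : Rs Fil 1 A) (hB : Rs Fil 1 B) :
    Rs Fil (d + 1) (subst k A B ψ) := by
  rw [subst_eq_sum]
  refine Rs_sum _ _ fun w hw => ?_
  refine (Rs_word_len hA hB w).mono hF ?_
  have h1 : d ≤ (FreeMonoid.toList w).count 1 := by
    by_contra hlt
    exact hw (h w (not_le.mp hlt))
  have h2 : (FreeMonoid.toList w).count 0 ≠ 0 := fun h0 => hw (wordCoeff_pure hψ h0)
  have h3 := count_add w
  omega

end pure

end Pool.Agent.J4H43.FR
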