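import Pool.Agent.J4H43.FR.PrimC

/-!
# Primitive elements: restrictions on the words
-/

set_option autoImplicit false

namespace Pool.Agent.J4H43.FR

open TensorProduct

universe u v

section words

variable {k : Type u} [Field k] {Y : Type v}

/-- the product of the letters of a word -/
noncomputable def wrd (v : FreeMonoid Y) : FreeAlgebra k Y := FreeMonoid.lift (FreeAlgebra.ι k) v

theorem wrd_one : (wrd 1 : FreeAlgebra k Y) = 1 := map_one _

theorem wrd_mul (v w : FreeMonoid Y) : (wrd (v * w) : FreeAlgebra k Y) = wrd v * wrd w :=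
  map_mul _ _ _

theorem wrd_of (y : Y) : (wrd (FreeMonoid.of y) : FreeAlgebra k Y) = FreeAlgebra.ι k y := by
  simp [wrd]

theorem equiv_wrd (v : FreeMonoid Y) :
    FreeAlgebra.equivMonoidAlgebraFreeMonoid (wrd v : FreeAlgebra k Y) = MonoidAlgebra.single v 1 := by
  induction v using FreeMonoid.inductionOn' with
  | one => rw [wrd_one, map_one]; rfl
  | of_mul y v ih =>
    rw [wrd_mul, map_mul, ih, wrd_of]
    simp [FreeAlgebra.equivMonoidAlgebraFreeMonoid, MonoidAlgebra.single_mul_single]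

theorem wc_wrd (v w : FreeMonoid Y) :
    wc v (wrd w : FreeAlgebra k Y) = (Finsupp.single w (1 : k)) v := by
  rw [wc_apply, equiv_wrd]; rfl

theorem wc_wrd_self (v : FreeMonoid Y) : wc v (wrd v : FreeAlgebra k Y) = 1 := by
  rw [wc_wrd, Finsupp.single_eq_same]

theorem wc_wrd_ne {v w : FreeMonoid Y} (h : v ≠ w) : wc v (wrd w : FreeAlgebra k Y) = 0 := by
  rw [wc_wrd, Finsupp.single_eq_of_ne h]

theorem sum_wc (b : FreeAlgebra k Y) :
    b = (FreeAlgebra.equivMonoidAlgebraFreeMonoid b).coeff.sum (fun v c => c • wrd v) := by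
  apply FreeAlgebra.equivMonoidAlgebraFreeMonoid.injective
  rw [Finsupp.sum, map_sum]
  have : ∀ x : MonoidAlgebra k (FreeMonoid Y), x = ∑ v ∈ x.coeff.support,
      (x.coeff v) • MonoidAlgebra.single v (1 : k) := by
    intro x
    apply MonoidAlgebra.coeff_injective
    rw [MonoidAlgebra.coeff_sum]
    nth_rewrite 1 [← Finsupp.sum_single x.coeff]
    rw [Finsupp.sum]
    refine Finset.sum_congr rfl fun v _ => ?_
    rw [MonoidAlgebra.coeff_smul, MonoidAlgebra.coeff_single, Finsupp.smul_single, smul_eq_mul,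
      mul_one]
  nth_rewrite 1 [this (FreeAlgebra.equivMonoidAlgebraFreeMonoid b)]
  refine Finset.sum_congr rfl fun v _ => ?_
  rw [map_smul, equiv_wrd]

/-- a linear map which vanishes on the words of `b` vanishes on `b` -/
theorem lin_zero {M : Type*} [AddCommGroup M] [Module k M] (G : FreeAlgebra k Y →ₗ[k] M)
    {b : FreeAlgebra k Y} (h : ∀ v, wc v b ≠ 0 → G (wrd v) = 0) : G b = 0 := by
  rw [sum_wc b, Finsupp.sum, map_sum]
  refine Finset.sum_eq_zero fun v hv => ?_
  rw [map_smul, h v (Finsupp.mem_support_iff.mp hv), smul_zero]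

theorem eq_zero_of_wc {b : FreeAlgebra k Y} (h : ∀ v, wc v b = 0) : b = 0 :=
  lin_zero (LinearMap.id) (b := b) fun v hv => absurd (h v) hv

theorem wc_one (b : FreeAlgebra k Y) : wc 1 b = eps b := by
  have h : ((wc 1 : FreeAlgebra k Y →ₗ[k] k) - (eps : FreeAlgebra k Y →ₐ[k] k).toLinearMap) b = 0 := by
    apply lin_zero
    intro v _
    rw [LinearMap.sub_apply]
    induction v using FreeMonoid.inductionOn' with
    | one => rw [wc_wrd_self, wrd_one]; simp
    | of_mul y v _ =>
      rw [wc_wrd_ne, wrd_mul, wrd_of]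
      · have : eps (FreeAlgebra.ι k y * wrd v) = 0 := by rw [map_mul, eps_ι, zero_mul]
        simp [this]
      · intro h
        have := congrArg FreeMonoid.length h
        simp at this
        omega
  rw [LinearMap.sub_apply, sub_eq_zero] at h
  exact h

theorem Prm.eps_zero {b : FreeAlgebra k Y} (hb : Prm b) : eps b = 0 := by
  have h1 := pph_eps_De b
  have h2 : De b = b ⊗ₜ[k] 1 + 1 ⊗ₜ[k] b := hb
  rw [h2, map_add, pph_tmul, pph_tmul] at h1
  have h3 : (eps : FreeAlgebra k Y →ₐ[k] k).toLinearMap 1 = 1 := map_one eps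
  rw [h3, one_smul, add_eq_right, smul_eq_zero] at h1
  rcases h1 with h | h
  · exact h
  · exact absurd h one_ne_zero

/-- the antipode -/
noncomputable def Sa : FreeAlgebra k Y →ₐ[k] (FreeAlgebra k Y)ᵐᵒᵖ :=
  FreeAlgebra.lift k (fun y => MulOpposite.op (-FreeAlgebra.ι k y))

/-- the antipode as a linear map -/
noncomputable def Sl : FreeAlgebra k Y →ₗ[k] FreeAlgebra k Y :=
  (MulOpposite.opLinearEquiv k).symm.toLinearMap ∘ₗ (Sa : FreeAlgebra k Y →ₐ[k] _).toLinearMap

theorem Sl_apply (u : FreeAlgebra k Y) : Sl u = MulOpposite.unop (Sa u) := rfl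

theorem Sl_mul_ι (u : FreeAlgebra k Y) (y : Y) : Sl (u * FreeAlgebra.ι k y) =
    -(FreeAlgebra.ι k y * Sl u) := by
  rw [Sl_apply, map_mul, MulOpposite.unop_mul, Sl_apply]
  have : Sa (FreeAlgebra.ι k y) = MulOpposite.op (-FreeAlgebra.ι k y) := by
    rw [Sa, FreeAlgebra.lift_ι_apply]
  rw [this, MulOpposite.unop_op, neg_mul]

theorem Sl_one : Sl (1 : FreeAlgebra k Y) = 1 := by
  rw [Sl_apply, map_one]; rfl

/-- the convolution with the antipode -/
noncomputable def cva (T : FreeAlgebra k Y →ₐ[k] FreeAlgebra k Y) :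
    (FreeAlgebra k Y ⊗[k] FreeAlgebra k Y) →ₗ[k] FreeAlgebra k Y :=
  LinearMap.mul' k (FreeAlgebra k Y) ∘ₗ TensorProduct.map T.toLinearMap Sl

theorem cva_tmul (T : FreeAlgebra k Y →ₐ[k] FreeAlgebra k Y) (x y : FreeAlgebra k Y) :
    cva T (x ⊗ₜ[k] y) = T x * Sl y := rfl

theorem cva_mul (T : FreeAlgebra k Y →ₐ[k] FreeAlgebra k Y) {y : Y}
    (hT : T (FreeAlgebra.ι k y) = FreeAlgebra.ι k y) (x : FreeAlgebra k Y ⊗[k] FreeAlgebra k Y) :
    cva T (x * (FreeAlgebra.ι k y ⊗ₜ[k] 1 + 1 ⊗ₜ[k] FreeAlgebra.ι k y)) = 0 := by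
  induction x using TensorProduct.induction_on with
  | zero => simp
  | tmul x z =>
    rw [mul_add, Algebra.TensorProduct.tmul_mul_tmul, Algebra.TensorProduct.tmul_mul_tmul,
      map_add, cva_tmul, cva_tmul, mul_one, mul_one, map_mul, hT, Sl_mul_ι, mul_neg, mul_assoc,
      add_neg_cancel]
  | add x z hx hz => rw [add_mul, map_add, hx, hz, add_zero]

theorem cva_De (T : FreeAlgebra k Y →ₐ[k] FreeAlgebra k Y) {y : Y}
    (hT : T (FreeAlgebra.ι k y) = FreeAlgebra.ι k y) (u : FreeAlgebra k Y) :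
    cva T (De (u * FreeAlgebra.ι k y)) = 0 := by
  rw [map_mul, De_ι, cva_mul T hT]

theorem cva_prm (T : FreeAlgebra k Y →ₐ[k] FreeAlgebra k Y) {b : FreeAlgebra k Y} (hb : Prm b) :
    cva T (De b) = T b + Sl b := by
  have h2 : De b = b ⊗ₜ[k] 1 + 1 ⊗ₜ[k] b := hb
  rw [h2, map_add, cva_tmul, cva_tmul, Sl_one, mul_one, map_one, one_mul]

end words

section nat

variable {k : Type u} [Field k]

/-- scaling of the letters `≥ 2` -/
noncomputable def Tc (c : k) : FreeAlgebra k ℕ →ₐ[k] FreeAlgebra k ℕ :=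
  FreeAlgebra.lift k (fun a => (if 2 ≤ a then c else 1) • FreeAlgebra.ι k a)

theorem Tc_ι (c : k) (a : ℕ) : Tc c (FreeAlgebra.ι k a) =
    (if 2 ≤ a then c else 1) • FreeAlgebra.ι k a := by
  rw [Tc, FreeAlgebra.lift_ι_apply]

theorem Tc_wrd (c : k) (v : FreeMonoid ℕ) : Tc c (wrd v : FreeAlgebra k ℕ) =
    c ^ (v.toList.countP (fun a => decide (2 ≤ a))) • wrd v := by
  induction v using FreeMonoid.inductionOn' with
  | one => rw [wrd_one, map_one, FreeMonoid.toList_one, List.countP_nil, pow_zero, one_smul]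
  | of_mul a v ih =>
    rw [wrd_mul, map_mul, ih, wrd_of, Tc_ι, FreeMonoid.toList_mul, FreeMonoid.toList_of,
      List.countP_append, pow_add, smul_mul_smul_comm]
    congr 1
    congr 1
    by_cases h : 2 ≤ a
    · simp [h]
    · simp [h]

theorem wc_Tc (c : k) (v : FreeMonoid ℕ) (b : FreeAlgebra k ℕ) : wc v (Tc c b) =
    c ^ (v.toList.countP (fun a => decide (2 ≤ a))) * wc v b := by
  have h : ((wc v) ∘ₗ (Tc c).toLinearMap - c ^ (v.toList.countP (fun a => decide (2 ≤ a))) •
      (wc v : FreeAlgebra k ℕ →ₗ[k] k)) b = 0 := by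
    apply lin_zero
    intro w _
    rw [LinearMap.sub_apply, LinearMap.comp_apply, LinearMap.smul_apply]
    change wc v (Tc c (wrd w)) - _ = 0
    rw [Tc_wrd, map_smul]
    by_cases hvw : v = w
    · subst hvw
      rw [sub_self]
    · rw [wc_wrd_ne hvw, smul_zero, smul_zero, sub_zero]
  rw [LinearMap.sub_apply, sub_eq_zero] at h
  exact h

/-- (T1) -/
theorem prim_T1 [CharZero k] {b : FreeAlgebra k ℕ} (hb : Prm b)
    (h : ∀ v : FreeMonoid ℕ, ∀ c, 2 ≤ c → wc (v * FreeMonoid.of c) b = 0) :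
    ∀ v : FreeMonoid ℕ, (∃ c ∈ v.toList, 2 ≤ c) → wc v b = 0 := by
  have key : ∀ c : k, Tc c b + Sl b = 0 := by
    intro c
    rw [← cva_prm (Tc c) hb]
    have : (cva (Tc c) ∘ₗ (De : FreeAlgebra k ℕ →ₐ[k] _).toLinearMap) b = 0 := by
      apply lin_zero
      intro v hv
      induction v using FreeMonoid.recOn with
      | one =>
        exfalso
        exact hv (by rw [wc_one, hb.eps_zero])
      | of_mul a w _ =>
        obtain ⟨w', a', hw'⟩ : ∃ (w' : FreeMonoid ℕ) (a' : ℕ),
            FreeMonoid.of a * w = w' * FreeMonoid.of a' := by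
          obtain ⟨l, x, hl⟩ := List.eq_nil_or_concat (a :: w.toList) |>.resolve_left (by simp)
          exact ⟨FreeMonoid.ofList l, x, by
            apply FreeMonoid.toList.injective
            rw [FreeMonoid.toList_mul, FreeMonoid.toList_mul, FreeMonoid.toList_of,
              FreeMonoid.toList_of]
            simpa using hl⟩
        rw [hw'] at hv ⊢
        have ha' : a' < 2 := by
          by_contra hcon
          exact hv (h w' a' (by omega))
        rw [wrd_mul, wrd_of]
        refine cva_De (Tc c) ?_ (wrd w')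
        rw [Tc_ι, if_neg (by omega), one_smul]
    exact this
  intro v ⟨a, hav, ha⟩
  have h1 := key 2
  have h2 := key 1
  have h3 : Tc (2 : k) b = Tc 1 b := by
    rw [eq_neg_of_add_eq_zero_left h1, eq_neg_of_add_eq_zero_left h2]
  have h4 := congrArg (wc v) h3
  rw [wc_Tc, wc_Tc, one_pow, one_mul] at h4
  have hm : 0 < v.toList.countP (fun a => decide (2 ≤ a)) := by
    rw [List.countP_pos_iff]
    exact ⟨a, hav, by simpa using ha⟩
  set m := v.toList.countP (fun a => decide (2 ≤ a)) with hmdef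
  have h5 : ((2 : k) ^ m - 1) * wc v b = 0 := by rw [sub_mul, one_mul, h4, sub_self]
  rcases mul_eq_zero.mp h5 with h6 | h6
  · exfalso
    rw [sub_eq_zero] at h6
    have h7 : ((2 ^ m : ℕ) : k) = ((1 : ℕ) : k) := by push_cast; exact h6
    have h8 := Nat.cast_injective h7
    have h9 : 1 < 2 ^ m := Nat.one_lt_two_pow (by omega)
    omega
  · exact h6

/-- the character with value `s` at the letters -/
noncomputable def chs (s : k) : FreeAlgebra k ℕ →ₐ[k] k := FreeAlgebra.lift k (fun _ => s)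

theorem chs_ι (s : k) (a : ℕ) : chs s (FreeAlgebra.ι k a) = s := by
  rw [chs, FreeAlgebra.lift_ι_apply]

theorem chs_wrd (s : k) (v : FreeMonoid ℕ) : chs s (wrd v) = s ^ v.toList.length := by
  induction v using FreeMonoid.inductionOn' with
  | one => rw [wrd_one, map_one, FreeMonoid.toList_one, List.length_nil, pow_zero]
  | of_mul a v ih =>
    rw [wrd_mul, map_mul, ih, wrd_of, chs_ι, FreeMonoid.toList_mul, FreeMonoid.toList_of,
      List.length_append, pow_add]
    simp

theorem chs_De (b : FreeAlgebra k ℕ) :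
    (LinearMap.mul' k k ∘ₗ TensorProduct.map (chs (1 : k)).toLinearMap (chs (1 : k)).toLinearMap)
      (De b) = chs (2 : k) b := by
  have h : (Algebra.TensorProduct.lmul' k (S := k)).comp
      ((Algebra.TensorProduct.map (chs (1 : k)) (chs (1 : k))).comp De) = chs (2 : k) := by
    apply FreeAlgebra.hom_ext
    funext a
    change (Algebra.TensorProduct.lmul' k (S := k))
      ((Algebra.TensorProduct.map (chs (1 : k)) (chs (1 : k))) (De (FreeAlgebra.ι k a))) =
      chs (2 : k) (FreeAlgebra.ι k a)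
    rw [De_ι, map_add, Algebra.TensorProduct.map_tmul, Algebra.TensorProduct.map_tmul, map_add,
      chs_ι, chs_ι, map_one]
    simp
    norm_num
  have := congrArg (fun f : FreeAlgebra k ℕ →ₐ[k] k => f b) h
  exact this

/-- (T2) -/
theorem prim_T2 [CharZero k] {b : FreeAlgebra k ℕ} (hb : Prm b) {d : ℕ} (hd : 2 ≤ d)
    (h : ∀ v : FreeMonoid ℕ, wc v b ≠ 0 → v.toList = List.replicate d 1) : b = 0 := by
  have h1 : chs (2 : k) b = chs (1 : k) b + chs (1 : k) b := by
    rw [← chs_De b]
    have h2 : De b = b ⊗ₜ[k] 1 + 1 ⊗ₜ[k] b := hb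
    rw [h2, map_add]
    change chs (1 : k) b * chs (1 : k) 1 + chs (1 : k) 1 * chs (1 : k) b = _
    rw [map_one, mul_one, one_mul]
  have h3 : chs (2 : k) b = 2 ^ d * chs (1 : k) b := by
    have : ((chs (2 : k)).toLinearMap - (2 : k) ^ d • (chs (1 : k)).toLinearMap) b = 0 := by
      apply lin_zero
      intro v hv
      have hl : v.toList.length = d := by rw [h v hv, List.length_replicate]
      change chs (2 : k) (wrd v) - (2 : k) ^ d * chs (1 : k) (wrd v) = 0
      rw [chs_wrd, chs_wrd, hl, one_pow, mul_one, sub_self]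
    have h4 : chs (2 : k) b - (2 : k) ^ d * chs (1 : k) b = 0 := this
    exact sub_eq_zero.mp h4
  have h4 : ((2 : k) ^ d - 2) * chs (1 : k) b = 0 := by
    rw [sub_mul, ← h3, h1]; ring
  have h5 : chs (1 : k) b = 0 := by
    rcases mul_eq_zero.mp h4 with h6 | h6
    · exfalso
      rw [sub_eq_zero] at h6
      have h7 : ((2 ^ d : ℕ) : k) = ((2 : ℕ) : k) := by push_cast; exact h6
      have h8 := Nat.cast_injective h7
      have h9 : 2 ^ 2 ≤ 2 ^ d := Nat.pow_le_pow_right (by norm_num) hd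
      omega
    · exact h6
  apply eq_zero_of_wc
  intro v
  by_contra hv
  have hv' := h v hv
  have h6 : ((chs (1 : k)).toLinearMap - (wc v : FreeAlgebra k ℕ →ₗ[k] k)) b = 0 := by
    apply lin_zero
    intro w hw
    have hw' : w = v := by
      apply FreeMonoid.toList.injective
      rw [h w hw, hv']
    subst hw'
    change chs (1 : k) (wrd w) - wc w (wrd w) = 0
    rw [chs_wrd, one_pow, wc_wrd_self, sub_self]
  have h7 : chs (1 : k) b - wc v b = 0 := h6
  rw [h5, zero_sub, neg_eq_zero] at h7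
  exact hv h7

end nat

end Pool.Agent.J4H43.FR
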