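import Pool.Agent.J4H43.FR.Bz
import Pool.Agent.J4H43.FR.PrimT
import Pool.Agent.Helper392_GT.Depth1
import Pool.Agent.Helper392_GT.Defs2

/-!
# Words in solutions of the pentagon equation: reversal, exchange of the letters, and the top part
-/

set_option autoImplicit false

namespace Pool.Agent.J4H43.FR

open Polynomial Pool.Agent.Helper392_GT

universe u v

attribute [local instance 100] LieRing.ofAssociativeRing

section rev

variable {k : Type u} [Field k]

theorem wordCoeff_eq (ψ : F2 k) (w : FreeMonoid (Fin 2)) : wordCoeff k ψ w = wc w (toAssoc k ψ) := rfl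

/-- the reversed word -/
def rv {Y : Type v} (w : FreeMonoid Y) : FreeMonoid Y := FreeMonoid.ofList w.toList.reverse

theorem rv_one {Y : Type v} : rv (1 : FreeMonoid Y) = 1 := rfl

theorem rv_mul {Y : Type v} (v w : FreeMonoid Y) : rv (v * w) = rv w * rv v := by
  unfold rv
  rw [FreeMonoid.toList_mul, List.reverse_append]
  rfl

theorem rv_of {Y : Type v} (y : Y) : rv (FreeMonoid.of y) = FreeMonoid.of y := rfl

theorem rv_rv {Y : Type v} (w : FreeMonoid Y) : rv (rv w) = w := by
  unfold rv
  rw [FreeMonoid.toList_ofList, List.reverse_reverse, FreeMonoid.ofList_toList]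

theorem rv_length {Y : Type v} (w : FreeMonoid Y) : (rv w).length = w.length := by
  unfold rv FreeMonoid.length
  rw [FreeMonoid.toList_ofList, List.length_reverse]

theorem Sl_mul {Y : Type v} (a b : FreeAlgebra k Y) : Sl (a * b) = Sl b * Sl a := by
  rw [Sl_apply, map_mul, MulOpposite.unop_mul, Sl_apply, Sl_apply]

theorem Sl_ι {Y : Type v} (y : Y) : Sl (FreeAlgebra.ι k y) = -FreeAlgebra.ι k y := by
  rw [Sl_apply, Sa, FreeAlgebra.lift_ι_apply, MulOpposite.unop_op]

theorem Sl_wrd {Y : Type v} (v : FreeMonoid Y) :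
    Sl (wrd v : FreeAlgebra k Y) = (-1 : k) ^ v.length • wrd (rv v) := by
  induction v using FreeMonoid.recOn with
  | one => rw [wrd_one, Sl_one, rv_one, wrd_one]; simp
  | of_mul y v ih =>
    rw [wrd_mul, Sl_mul, ih, wrd_of, Sl_ι, rv_mul, wrd_mul, rv_of, wrd_of, FreeMonoid.length_mul,
      FreeMonoid.length_of, pow_add, pow_one, smul_mul_assoc, mul_neg, smul_neg, neg_one_mul,
      neg_smul]

theorem wc_Sl {Y : Type v} (w : FreeMonoid Y) (b : FreeAlgebra k Y) :
    wc w (Sl b) = (-1 : k) ^ w.length * wc (rv w) b := by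
  have h : (((wc w ∘ₗ Sl) - (-1 : k) ^ w.length • wc (rv w) : FreeAlgebra k Y →ₗ[k] k)) b = 0 := by
    apply lin_zero
    intro v _
    rw [LinearMap.sub_apply, LinearMap.comp_apply, LinearMap.smul_apply, Sl_wrd, map_smul, sub_eq_zero]
    by_cases hv : w = rv v
    · subst hv
      rw [rv_rv, wc_wrd_self, wc_wrd_self, rv_length]
    · rw [wc_wrd_ne hv, wc_wrd_ne, smul_zero, smul_zero]
      rintro rfl
      exact hv (rv_rv w).symm
  rw [LinearMap.sub_apply, sub_eq_zero] at h
  exact h

theorem Sl_toAssoc (ψ : F2 k) : Sl (toAssoc k ψ) = -toAssoc k ψ := by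
  let g : FreeAlgebra k (Fin 2) →ₗ⁅k⁆ FreeAlgebra k (Fin 2) :=
    { (-Sl : FreeAlgebra k (Fin 2) →ₗ[k] FreeAlgebra k (Fin 2)) with
      map_lie' := by
        intro a b
        change -Sl ⁅a, b⁆ = ⁅-Sl a, -Sl b⁆
        rw [LieRing.of_associative_ring_bracket, LieRing.of_associative_ring_bracket, map_sub, Sl_mul,
          Sl_mul, neg_mul_neg, neg_mul_neg]
        abel }
  have hg : ∀ a, g a = -Sl a := fun _ => rfl
  have h : g.comp (toAssoc k) = toAssoc k := by
    apply FreeLieAlgebra.hom_ext
    intro i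
    simp only [LieHom.comp_apply]
    rw [hg, toAssoc, FreeLieAlgebra.lift_of_apply, Sl_ι, neg_neg]
  have h2 := congrArg (fun f : F2 k →ₗ⁅k⁆ FreeAlgebra k (Fin 2) => f ψ) h
  simp only [LieHom.comp_apply] at h2
  rw [hg] at h2
  rw [← h2, neg_neg, h2]

theorem wordCoeff_reverse (ψ : F2 k) (w : FreeMonoid (Fin 2)) :
    wordCoeff k ψ (FreeMonoid.ofList w.toList.reverse) =
      (-1 : k) ^ (w.length + 1) * wordCoeff k ψ w := by
  have h := wc_Sl w (toAssoc k ψ)
  rw [Sl_toAssoc, map_neg] at h
  rw [wordCoeff_eq, wordCoeff_eq]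
  have e : wc (FreeMonoid.ofList w.toList.reverse) (toAssoc k ψ) = wc (rv w) (toAssoc k ψ) := rfl
  have h1 : ((-1 : k) ^ w.length) * ((-1 : k) ^ w.length) = 1 := by
    rw [← pow_add, ← two_mul, pow_mul, neg_one_sq, one_pow]
  rw [e, pow_succ]
  calc wc (rv w) (toAssoc k ψ) = (((-1 : k) ^ w.length) * ((-1 : k) ^ w.length)) * wc (rv w) (toAssoc k ψ) := by
        rw [h1, one_mul]
    _ = (-1 : k) ^ w.length * ((-1 : k) ^ w.length * wc (rv w) (toAssoc k ψ)) := by ring
    _ = _ := by rw [← h]; ring

/-- exchange of the letters -/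
def sw (w : FreeMonoid (Fin 2)) : FreeMonoid (Fin 2) := FreeMonoid.map (Equiv.swap 0 1) w

theorem sw_mul (v w : FreeMonoid (Fin 2)) : sw (v * w) = sw v * sw w := map_mul _ _ _

theorem sw_of (i : Fin 2) : sw (FreeMonoid.of i) = FreeMonoid.of (Equiv.swap 0 1 i) := rfl

theorem sw_sw (w : FreeMonoid (Fin 2)) : sw (sw w) = w := by
  induction w using FreeMonoid.recOn with
  | one => rfl
  | of_mul i w ih => rw [sw_mul, sw_mul, ih, sw_of, sw_of, Equiv.swap_apply_self]

theorem count_sw (w : FreeMonoid (Fin 2)) :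
    (FreeMonoid.toList (sw w)).count 1 = (FreeMonoid.toList w).count 0 := by
  induction w using FreeMonoid.recOn with
  | one => rfl
  | of_mul i w ih =>
    rw [sw_mul, sw_of, FreeMonoid.toList_of_mul, FreeMonoid.toList_of_mul, List.count_cons,
      List.count_cons, ih]
    fin_cases i <;> simp

theorem wordCoeff_swap {ψ : F2 k}
    (h : subst k (FreeLieAlgebra.of k 1 : F2 k) (FreeLieAlgebra.of k 0) ψ = -ψ)
    (w : FreeMonoid (Fin 2)) :
    wordCoeff k ψ (FreeMonoid.map (Equiv.swap 0 1) w) = -wordCoeff k ψ w := by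
  let σ : FreeAlgebra k (Fin 2) →ₐ[k] FreeAlgebra k (Fin 2) :=
    FreeAlgebra.lift k (fun i => FreeAlgebra.ι k (Equiv.swap 0 1 i))
  have hσ : ∀ i, σ (FreeAlgebra.ι k i) = FreeAlgebra.ι k (Equiv.swap 0 1 i) := fun i => by
    rw [FreeAlgebra.lift_ι_apply]
  have hw : ∀ v, σ (wrd v) = wrd (sw v) := by
    intro v
    induction v using FreeMonoid.recOn with
    | one => rw [wrd_one, map_one]; rfl
    | of_mul i v ih => rw [wrd_mul, map_mul, ih, wrd_of, hσ, sw_mul, wrd_mul, sw_of, wrd_of]
  have hwc : ∀ (v : FreeMonoid (Fin 2)) (b : FreeAlgebra k (Fin 2)), wc v (σ b) = wc (sw v) b := by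
    intro v b
    have h : (((wc v ∘ₗ σ.toLinearMap) - wc (sw v) : FreeAlgebra k (Fin 2) →ₗ[k] k)) b = 0 := by
      apply lin_zero
      intro u _
      rw [LinearMap.sub_apply, LinearMap.comp_apply, AlgHom.toLinearMap_apply, hw, sub_eq_zero]
      by_cases hv : v = sw u
      · subst hv
        rw [sw_sw, wc_wrd_self, wc_wrd_self]
      · rw [wc_wrd_ne hv, wc_wrd_ne]
        rintro rfl
        exact hv (sw_sw v).symm
    rw [LinearMap.sub_apply, sub_eq_zero] at h
    exact h
  have h1 : (toAssoc k).comp (subst k (FreeLieAlgebra.of k 1 : F2 k) (FreeLieAlgebra.of k 0)) =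
      ((σ : FreeAlgebra k (Fin 2) →ₗ⁅k⁆ FreeAlgebra k (Fin 2))).comp (toAssoc k) := by
    apply FreeLieAlgebra.hom_ext
    intro i
    fin_cases i
    · simp only [LieHom.comp_apply]
      change toAssoc k (subst k _ _ (FreeLieAlgebra.of k 0)) = σ (toAssoc k (FreeLieAlgebra.of k 0))
      rw [subst, FreeLieAlgebra.lift_of_apply, toAssoc, FreeLieAlgebra.lift_of_apply, hσ]
      simp
    · simp only [LieHom.comp_apply]
      change toAssoc k (subst k _ _ (FreeLieAlgebra.of k 1)) = σ (toAssoc k (FreeLieAlgebra.of k 1))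
      rw [subst, FreeLieAlgebra.lift_of_apply, toAssoc, FreeLieAlgebra.lift_of_apply, hσ]
      simp
  have h2 := congrArg (fun f : F2 k →ₗ⁅k⁆ FreeAlgebra k (Fin 2) => f ψ) h1
  simp only [LieHom.comp_apply] at h2
  rw [h, map_neg] at h2
  have h3 : wc w (-toAssoc k ψ) = wc w (σ (toAssoc k ψ)) := congrArg (wc w) h2
  rw [map_neg, hwc] at h3
  exact h3.symm

end rev

section top

variable {k : Type u} [Field k]

/-- the coefficient of a word ending in `z` in a product with `y` on the right -/
theorem wc_mul_ι {Y : Type v} (v : FreeMonoid Y) (y : Y) (b : FreeAlgebra k Y) :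
    wc (v * FreeMonoid.of y) (b * FreeAlgebra.ι k y) = wc v b := by
  have h : (((wc (v * FreeMonoid.of y) ∘ₗ LinearMap.mulRight k (FreeAlgebra.ι k y)) - wc v :
      FreeAlgebra k Y →ₗ[k] k)) b = 0 := by
    apply lin_zero
    intro u _
    rw [LinearMap.sub_apply, LinearMap.comp_apply, LinearMap.mulRight_apply, ← wrd_of, ← wrd_mul,
      sub_eq_zero]
    by_cases hv : v = u
    · subst hv
      rw [wc_wrd_self, wc_wrd_self]
    · rw [wc_wrd_ne hv, wc_wrd_ne]
      intro h
      exact hv (mul_right_cancel h)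
  rw [LinearMap.sub_apply, sub_eq_zero] at h
  exact h

theorem wc_mul_ι_ne {Y : Type v} (v : FreeMonoid Y) {y z : Y} (hyz : y ≠ z) (b : FreeAlgebra k Y) :
    wc (v * FreeMonoid.of y) (b * FreeAlgebra.ι k z) = 0 := by
  have h : ((wc (v * FreeMonoid.of y) ∘ₗ LinearMap.mulRight k (FreeAlgebra.ι k z))) b = 0 := by
    apply lin_zero
    intro u _
    rw [LinearMap.comp_apply, LinearMap.mulRight_apply, ← wrd_of, ← wrd_mul]
    apply wc_wrd_ne
    intro h
    have h1 := congrArg FreeMonoid.toList h
    rw [FreeMonoid.toList_mul, FreeMonoid.toList_mul, FreeMonoid.toList_of, FreeMonoid.toList_of] at h1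
    have h2 := congrArg List.getLast? h1
    rw [List.getLast?_append, List.getLast?_append] at h2
    simp at h2
    exact hyz h2
  exact h

theorem toAssoc_gx : toAssoc k (gx k) = FreeAlgebra.ι k 0 := by
  rw [toAssoc]
  exact FreeLieAlgebra.lift_of_apply _ _

theorem toAssoc_gy : toAssoc k (gy k) = FreeAlgebra.ι k 1 := by
  rw [toAssoc]
  exact FreeLieAlgebra.lift_of_apply _ _

/-- the coefficient of `x ^ n y` in `ad(x)^m y` -/
theorem wc_ad (m : ℕ) : ∀ n : ℕ,
    wordCoeff k (((LieAlgebra.ad k (F2 k) (gx k)) ^ m) (gy k)) (FreeMonoid.of 0 ^ n * FreeMonoid.of 1) =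
      if n = m then 1 else 0 := by
  induction m with
  | zero =>
    intro n
    rw [wordCoeff_eq, pow_zero, Module.End.one_apply, toAssoc_gy, ← wrd_of]
    by_cases hn : n = 0
    · subst hn
      rw [pow_zero, one_mul, wc_wrd_self, if_pos rfl]
    · rw [if_neg hn, wc_wrd_ne]
      intro h
      have := congrArg FreeMonoid.length h
      rw [FreeMonoid.length_mul, FreeMonoid.length_of] at this
      obtain ⟨n, rfl⟩ : ∃ n', n = n' + 1 := ⟨n - 1, by omega⟩
      rw [pow_succ, FreeMonoid.length_mul, FreeMonoid.length_of] at this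
      omega
  | succ m ih =>
    intro n
    rw [wordCoeff_eq, pow_succ', Module.End.mul_apply, LieAlgebra.ad_apply, LieHom.map_lie,
      LieRing.of_associative_ring_bracket, toAssoc_gx, map_sub, wc_mul_ι_ne _ (by decide), sub_zero]
    cases n with
    | zero =>
      rw [pow_zero, one_mul, if_neg (by omega)]
      have : (FreeMonoid.of 1 : FreeMonoid (Fin 2)) = FreeMonoid.of 1 * 1 := (mul_one _).symm
      rw [this, wc_ι_mul_ne (by decide)]
    | succ n =>
      rw [pow_succ', mul_assoc, wc_ι_mul]
      have := ih n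
      rw [wordCoeff_eq] at this
      rw [this]
      by_cases h : n = m
      · rw [if_pos h, if_pos (by omega)]
      · rw [if_neg h, if_neg (by omega)]

theorem wordCoeff_add (ψ φ : F2 k) (w : FreeMonoid (Fin 2)) :
    wordCoeff k (ψ + φ) w = wordCoeff k ψ w + wordCoeff k φ w := by
  rw [wordCoeff_eq, wordCoeff_eq, wordCoeff_eq, map_add, map_add]

theorem wordCoeff_sub (ψ φ : F2 k) (w : FreeMonoid (Fin 2)) :
    wordCoeff k (ψ - φ) w = wordCoeff k ψ w - wordCoeff k φ w := by
  rw [wordCoeff_eq, wordCoeff_eq, wordCoeff_eq, map_sub, map_sub]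

theorem wordCoeff_gam1 (c : k[X]) (n : ℕ) :
    wordCoeff k (gam1 k c) (FreeMonoid.of 0 ^ (n + 1) * FreeMonoid.of 1) = c.coeff n := by
  rw [gam1_eq, Polynomial.sum, wordCoeff_eq, map_sum, map_sum]
  have : ∀ i ∈ c.support, wc (FreeMonoid.of 0 ^ (n + 1) * FreeMonoid.of 1)
      (toAssoc k (c.coeff i • ((LieAlgebra.ad k (F2 k) (gx k)) ^ (i + 1)) (gy k))) =
      if n = i then c.coeff i else 0 := by
    intro i _
    rw [map_smul, map_smul]
    have := wc_ad (k := k) (i + 1) (n + 1)
    rw [wordCoeff_eq] at this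
    rw [this]
    by_cases h : n = i
    · rw [if_pos h, if_pos (by omega), smul_eq_mul, mul_one]
    · rw [if_neg h, if_neg (by omega), smul_zero]
  rw [Finset.sum_congr rfl this, Finset.sum_ite_eq]
  split_ifs with h
  · rfl
  · rw [Polynomial.notMem_support_iff] at h
    exact h.symm

theorem wd_pow (a : ℕ) (v : FreeMonoid ℕ) : wd a v = FreeMonoid.of 0 ^ a * wd 0 v := by
  rw [wd, wd, pow_zero, one_mul]

/-- the letters `x` in `wd 0 v` -/
theorem count_zero_wd (v : FreeMonoid ℕ) : ∀ a,
    (FreeMonoid.toList (wd a v)).count 0 = a + v.toList.sum := by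
  induction v using FreeMonoid.recOn with
  | one =>
    intro a
    induction a with
    | zero => rw [wd_zero_one]; rfl
    | succ a ih =>
      rw [wd_succ, FreeMonoid.toList_of_mul, List.count_cons, ih]
      simp
  | of_mul c v ih =>
    intro a
    induction a with
    | zero =>
      rw [wd_cons, FreeMonoid.toList_of_mul, List.count_cons, ih, FreeMonoid.toList_of_mul,
        List.sum_cons]
      simp
    | succ a ih2 =>
      rw [wd_succ, FreeMonoid.toList_of_mul, List.count_cons, ih2]
      simp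
      omega

/-- the reversal of a word `… y x ^ c` -/
theorem rv_wd (v : FreeMonoid ℕ) (c : ℕ) : ∃ v' : FreeMonoid ℕ, rv (wd 0 (v * FreeMonoid.of c)) = wd c v' := by
  have h1 : wd 0 (v * FreeMonoid.of c) = wd 0 v * (FreeMonoid.of 1 * FreeMonoid.of 0 ^ c) := by
    rw [wd, wd, pow_zero, one_mul, one_mul, map_mul, FreeMonoid.lift_eval_of]
  have h2 : ∀ n : ℕ, rv ((FreeMonoid.of 0 : FreeMonoid (Fin 2)) ^ n) = FreeMonoid.of 0 ^ n := by
    intro n
    induction n with
    | zero => rfl
    | succ n ih => rw [pow_succ, rv_mul, ih, rv_of, ← pow_succ', pow_succ]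
  obtain ⟨a, u, hu⟩ := wd_surj (rv (wd 0 v))
  refine ⟨FreeMonoid.of a * u, ?_⟩
  rw [h1, rv_mul, rv_mul, h2, rv_of, wd_pow c, wd_cons, mul_assoc, ← hu]

theorem rv_eq (w : FreeMonoid (Fin 2)) : FreeMonoid.ofList w.toList.reverse = rv w := rfl

theorem lemE [CharZero k] {ψ : F2 k} (hg : IsGRT k ψ) {d : ℕ} (hd : DepthGE k d ψ)
    (hnd : ¬ DepthGE k (d + 1) ψ) (hprm : ∀ a, Prm (hc d ((Ph ψ).coeff a)))
    (h01 : hc d ((Ph ψ).coeff 0) = 0 → hc d ((Ph ψ).coeff 1) = 0) :
    ∃ a, 2 ≤ a ∧ hc d ((Ph ψ).coeff a) ≠ 0 := by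
  have hψ := pentagon_mem_D1 hg.pent
  have hlam : ∀ (a : ℕ) (v : FreeMonoid ℕ), wc v (hc d ((Ph ψ).coeff a)) =
      if v.length = d then wordCoeff k ψ (wd a v) else 0 := by
    intro a v
    rw [wc_hc, wc_Ph]
  rcases Nat.lt_or_ge d 1 with hd0 | hd1
  · exfalso
    have : d = 0 := by omega
    subst this
    exact hnd (depth_D1 hψ)
  rcases Nat.lt_or_ge d 2 with hd2 | hd2
  · -- depth one
    have : d = 1 := by omega
    subst this
    obtain ⟨c, hc1, hc2⟩ := depth1_reduce hg
    obtain ⟨i, hi⟩ : ∃ i, c.coeff i ≠ 0 := by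
      by_contra hcon
      push Not at hcon
      apply hnd
      have h0 : c = 0 := by
        ext i
        rw [hcon i, coeff_zero]
      rw [h0, map_zero, sub_zero] at hc2
      exact hc2
    have hodd : ¬ Even i := fun he => hi (hc1 i he)
    have hi1 : 1 ≤ i := by
      rcases Nat.eq_zero_or_pos i with h | h
      · subst h
        exact absurd (Even.zero) hodd
      · exact h
    refine ⟨i + 1, by omega, fun h => hi ?_⟩
    have h1 := hlam (i + 1) (FreeMonoid.of 0)
    rw [h, map_zero, if_pos (FreeMonoid.length_of 0)] at h1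
    have e : wd (i + 1) (FreeMonoid.of 0) = FreeMonoid.of 0 ^ (i + 1) * FreeMonoid.of 1 := by
      rw [wd, FreeMonoid.lift_eval_of, pow_zero, mul_one]
    rw [e] at h1
    have h2 := hc2 (FreeMonoid.of 0 ^ (i + 1) * FreeMonoid.of 1) (by
      rw [← e, count_one_wd, FreeMonoid.length_of]
      norm_num)
    rw [wordCoeff_sub, wordCoeff_gam1, ← h1, zero_sub, neg_eq_zero] at h2
    exact h2
  · -- depth at least two
    by_contra hcon
    push Not at hcon
    have hT1 : ∀ v : FreeMonoid ℕ, (∃ c ∈ v.toList, 2 ≤ c) → wc v (hc d ((Ph ψ).coeff 0)) = 0 := by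
      apply prim_T1 (hprm 0)
      intro v c hc2
      rw [hlam]
      split_ifs with hl
      · obtain ⟨v', hv'⟩ := rv_wd v c
        have h1 := wordCoeff_reverse ψ (wd 0 (v * FreeMonoid.of c))
        rw [rv_eq, hv'] at h1
        have hlen : v'.length = d := by
          rw [← count_one_wd v' c, ← hv', rv, FreeMonoid.toList_ofList, List.count_reverse, count_one_wd, hl]
        have h2 := hlam c v'
        rw [hcon c hc2, map_zero, if_pos hlen] at h2
        rw [← h2] at h1
        rcases mul_eq_zero.1 h1.symm with h3 | h3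
        · exact absurd h3 (pow_ne_zero _ (by simp))
        · exact h3
      · rfl
    have hl0 : hc d ((Ph ψ).coeff 0) = 0 := by
      apply prim_T2 (hprm 0) hd2
      intro v hv
      have h1 : ∀ c ∈ v.toList, c ≤ 1 := by
        intro c hc'
        by_contra h
        exact hv (hT1 v ⟨c, hc', by omega⟩)
      rw [hlam] at hv
      have hlen : v.length = d := by
        by_contra h
        rw [if_neg h] at hv
        exact hv rfl
      rw [if_pos hlen] at hv
      have h2 : d ≤ v.toList.sum := by
        by_contra h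
        apply hv
        have h3 := wordCoeff_swap hg.anti (wd 0 v)
        have h4 : wordCoeff k ψ (FreeMonoid.map (Equiv.swap 0 1) (wd 0 v)) = 0 := by
          apply hd
          have := count_sw (wd 0 v)
          rw [count_zero_wd, zero_add] at this
          have e : FreeMonoid.map (Equiv.swap 0 1) (wd 0 v) = sw (wd 0 v) := rfl
          rw [e, this]
          omega
        rw [h4] at h3
        exact neg_eq_zero.1 h3.symm
      have h5 : v.toList.length = d := hlen
      rw [List.eq_replicate_iff]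
      refine ⟨h5, fun b hb => ?_⟩
      by_contra hb1
      have hb0 : b = 0 := by
        have := h1 b hb
        omega
      subst hb0
      have h6 : ∀ l : List ℕ, (∀ c ∈ l, c ≤ 1) → l.sum ≤ l.length := by
        intro l
        induction l with
        | nil => intro _; simp
        | cons a l ih =>
          intro h
          rw [List.sum_cons, List.length_cons]
          have := ih fun c hc => h c (List.mem_cons_of_mem _ hc)
          have := h a List.mem_cons_self
          omega
      have h7 : ∀ l : List ℕ, (∀ c ∈ l, c ≤ 1) → 0 ∈ l → l.sum < l.length := by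
        intro l
        induction l with
        | nil => intro _ h; simp at h
        | cons a l ih =>
          intro h h0
          rw [List.sum_cons, List.length_cons]
          have h8 := h6 l fun c hc => h c (List.mem_cons_of_mem _ hc)
          have h9 := h a List.mem_cons_self
          rcases List.mem_cons.1 h0 with h10 | h10
          · omega
          · have := ih (fun c hc => h c (List.mem_cons_of_mem _ hc)) h10
            omega
      have := h7 v.toList h1 hb
      omega
    have hl1 := h01 hl0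
    apply hnd
    intro w hw
    obtain ⟨a, v, rfl⟩ := wd_surj w
    rw [count_one_wd] at hw
    rcases Nat.lt_or_ge v.length d with h | h
    · exact hd _ (by rw [count_one_wd]; exact h)
    · have hlen : v.length = d := by omega
      have h1 := hlam a v
      rw [if_pos hlen] at h1
      rw [← h1]
      have : hc d ((Ph ψ).coeff a) = 0 := by
        rcases Nat.lt_or_ge a 2 with h2 | h2
        · have : a = 0 ∨ a = 1 := by omega
          rcases this with rfl | rfl
          · exact hl0
          · exact hl1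
        · exact hcon a h2
      rw [this, map_zero]

end top

end Pool.Agent.J4H43.FR
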