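import Pool.Agent.J4H43.FR.PrimB

/-!
# Primitivity of the leading coefficients
-/

set_option autoImplicit false

namespace Pool.Agent.J4H43.FR

open Polynomial Pool.Agent.Helper392_GT TensorProduct

universe u v w

attribute [local instance 100] LieRing.ofAssociativeRing

section grading

variable {k : Type u} [Field k]

theorem map_hc_left_succ (i j : ℕ) (y : ℕ) (t : BB k ⊗[k] BB k) :
    TensorProduct.map (hc (i + 1)) (hc j) ((ee k y ⊗ₜ[k] (1 : BB k)) * t) =
      (ee k y ⊗ₜ[k] (1 : BB k)) * TensorProduct.map (hc i) (hc j) t := by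
  induction t using TensorProduct.induction_on with
  | zero => rw [mul_zero, map_zero, map_zero, mul_zero]
  | tmul a b =>
    rw [Algebra.TensorProduct.tmul_mul_tmul, TensorProduct.map_tmul, TensorProduct.map_tmul,
      Algebra.TensorProduct.tmul_mul_tmul, one_mul, one_mul, hc_ι_mul]
  | add s t hs ht => rw [mul_add, map_add, hs, ht, map_add, mul_add]

theorem map_hc_left_zero (j : ℕ) (y : ℕ) (t : BB k ⊗[k] BB k) :
    TensorProduct.map (hc 0) (hc j) ((ee k y ⊗ₜ[k] (1 : BB k)) * t) = 0 := by
  induction t using TensorProduct.induction_on with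
  | zero => rw [mul_zero, map_zero]
  | tmul a b =>
    rw [Algebra.TensorProduct.tmul_mul_tmul, TensorProduct.map_tmul, hc_zero_ι_mul,
      TensorProduct.zero_tmul]
  | add s t hs ht => rw [mul_add, map_add, hs, ht, add_zero]

theorem map_hc_right_succ (i j : ℕ) (y : ℕ) (t : BB k ⊗[k] BB k) :
    TensorProduct.map (hc i) (hc (j + 1)) (((1 : BB k) ⊗ₜ[k] ee k y) * t) =
      ((1 : BB k) ⊗ₜ[k] ee k y) * TensorProduct.map (hc i) (hc j) t := by
  induction t using TensorProduct.induction_on with
  | zero => rw [mul_zero, map_zero, map_zero, mul_zero]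
  | tmul a b =>
    rw [Algebra.TensorProduct.tmul_mul_tmul, TensorProduct.map_tmul, TensorProduct.map_tmul,
      Algebra.TensorProduct.tmul_mul_tmul, one_mul, one_mul, hc_ι_mul]
  | add s t hs ht => rw [mul_add, map_add, hs, ht, map_add, mul_add]

theorem map_hc_right_zero (i : ℕ) (y : ℕ) (t : BB k ⊗[k] BB k) :
    TensorProduct.map (hc i) (hc 0) (((1 : BB k) ⊗ₜ[k] ee k y) * t) = 0 := by
  induction t using TensorProduct.induction_on with
  | zero => rw [mul_zero, map_zero]
  | tmul a b =>
    rw [Algebra.TensorProduct.tmul_mul_tmul, TensorProduct.map_tmul, hc_zero_ι_mul,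
      TensorProduct.tmul_zero]
  | add s t hs ht => rw [mul_add, map_add, hs, ht, add_zero]

theorem De_ι_mul (y : ℕ) (a : BB k) : De (FreeAlgebra.ι k y * a) =
    (ee k y ⊗ₜ[k] (1 : BB k)) * De a + ((1 : BB k) ⊗ₜ[k] ee k y) * De a := by
  rw [map_mul, De_ι, add_mul]

theorem De_graded (b : BB k) : ∀ i j, TensorProduct.map (hc i) (hc j) (De b) =
    TensorProduct.map (hc i) (hc j) (De (hc (i + j) b)) := by
  refine left_ind (fun b => ∀ i j, TensorProduct.map (hc i) (hc j) (De b) =
    TensorProduct.map (hc i) (hc j) (De (hc (i + j) b))) ?_ ?_ ?_ ?_ b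
  · intro i j
    rw [hc_one]
    split_ifs with h
    · rfl
    · rw [map_one, map_zero, map_zero, Algebra.TensorProduct.one_def, TensorProduct.map_tmul,
        hc_one, hc_one]
      by_cases hi : i = 0
      · rw [if_neg (show ¬ j = 0 by omega), TensorProduct.tmul_zero]
      · rw [if_neg hi, TensorProduct.zero_tmul]
  · intro a b ha hb i j
    simp only [map_add]
    rw [ha, hb]
  · intro c a ha i j
    simp only [map_smul]
    rw [ha]
  · intro y a ha i j
    rw [De_ι_mul, map_add]
    cases i with
    | zero =>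
      cases j with
      | zero =>
        rw [hc_zero_ι_mul, map_hc_left_zero, map_hc_right_zero, map_zero, map_zero, add_zero]
      | succ j =>
        rw [show 0 + (j + 1) = (0 + j) + 1 by omega, hc_ι_mul, De_ι_mul, map_add,
          map_hc_left_zero, map_hc_left_zero, map_hc_right_succ, map_hc_right_succ, ha 0 j]
    | succ i =>
      cases j with
      | zero =>
        rw [show i + 1 + 0 = (i + 0) + 1 by omega, hc_ι_mul, De_ι_mul, map_add,
          map_hc_left_succ, map_hc_left_succ, map_hc_right_zero, map_hc_right_zero, ha i 0, Nat.add_zero]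
      | succ j =>
        rw [show i + 1 + (j + 1) = (i + (j + 1)) + 1 by omega, hc_ι_mul, De_ι_mul, map_add,
           map_hc_left_succ, map_hc_left_succ, map_hc_right_succ, map_hc_right_succ,
          ha i (j + 1), ha (i + 1) j, show i + 1 + j = i + (j + 1) by omega]

theorem sum_map_hc (t : BB k ⊗[k] BB k) : ∃ N, ∀ M, N ≤ M →
    ∑ i ∈ Finset.range M, ∑ j ∈ Finset.range M, TensorProduct.map (hc i) (hc j) t = t := by
  induction t using TensorProduct.induction_on with
  | zero => exact ⟨0, fun M _ => by simp⟩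
  | tmul a b =>
    obtain ⟨N, hN⟩ := sum_hc a
    obtain ⟨N', hN'⟩ := sum_hc b
    refine ⟨max N N', fun M hM => ?_⟩
    have h1 := (hN M (by omega)).1
    have h2 := (hN' M (by omega)).1
    simp only [TensorProduct.map_tmul]
    simp only [← TensorProduct.tmul_sum]
    rw [h2, ← TensorProduct.sum_tmul, h1]
  | add s t hs ht =>
    obtain ⟨N, hN⟩ := hs
    obtain ⟨N', hN'⟩ := ht
    refine ⟨max N N', fun M hM => ?_⟩
    simp only [map_add, Finset.sum_add_distrib]
    rw [hN M (by omega), hN' M (by omega)]

theorem eq_of_map_hc {s t : BB k ⊗[k] BB k}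
    (h : ∀ i j, TensorProduct.map (hc i) (hc j) s = TensorProduct.map (hc i) (hc j) t) : s = t := by
  obtain ⟨N, hN⟩ := sum_map_hc s
  obtain ⟨N', hN'⟩ := sum_map_hc t
  rw [← hN (max N N') (le_max_left _ _), ← hN' (max N N') (le_max_right _ _)]
  exact Finset.sum_congr rfl fun i _ => Finset.sum_congr rfl fun j _ => h i j

/-- the counit on the right -/
noncomputable def cr : (BB k ⊗[k] BB k) →ₗ[k] BB k :=
  (TensorProduct.rid k (BB k)).toLinearMap ∘ₗ
    TensorProduct.map LinearMap.id (eps (k := k) (Y := ℕ)).toLinearMap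

theorem cr_tmul (a b : BB k) : cr (a ⊗ₜ[k] b) = eps b • a := by
  rw [cr, LinearMap.comp_apply, TensorProduct.map_tmul]
  exact TensorProduct.rid_tmul _ _

theorem cr_left (a : BB k) (t : BB k ⊗[k] BB k) : cr ((a ⊗ₜ[k] (1 : BB k)) * t) = a * cr t := by
  induction t using TensorProduct.induction_on with
  | zero => rw [mul_zero, map_zero, mul_zero]
  | tmul u v =>
    rw [Algebra.TensorProduct.tmul_mul_tmul, one_mul, cr_tmul, cr_tmul, mul_smul_comm]
  | add s t hs ht => rw [mul_add, map_add, hs, ht, map_add, mul_add]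

theorem cr_right (y : ℕ) (t : BB k ⊗[k] BB k) : cr (((1 : BB k) ⊗ₜ[k] ee k y) * t) = 0 := by
  induction t using TensorProduct.induction_on with
  | zero => rw [mul_zero, map_zero]
  | tmul u v =>
    rw [Algebra.TensorProduct.tmul_mul_tmul, one_mul, cr_tmul, map_mul, eps_ι, zero_mul, zero_smul]
  | add s t hs ht => rw [mul_add, map_add, hs, ht, add_zero]

theorem cr_De (b : BB k) : cr (De b) = b := by
  refine left_ind (fun b => cr (De b) = b) ?_ ?_ ?_ ?_ b
  · rw [map_one, Algebra.TensorProduct.one_def, cr_tmul, map_one, one_smul]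
  · intro a b ha hb
    rw [map_add, map_add, ha, hb]
  · intro c a ha
    rw [map_smul, map_smul, ha]
  · intro y a ha
    rw [map_mul, De_ι, add_mul, map_add, cr_left, cr_right, ha, add_zero]

/-- the leading coefficients are primitive -/
theorem prm_lead {ψ : F2 k} (hp : Pentagon k ψ) (hψ : ψ ∈ D1 k) {d : ℕ} (hd : DepthGE k d ψ)
    (hd1 : 1 ≤ d) (a : ℕ) : Prm (hc d ((Ph ψ).coeff a)) := by
  obtain ⟨c, hc'⟩ := prim_eq hp hψ hd a
  set b := (Ph ψ).coeff a with hb
  have h1 : De (hc d b) = (1 : BB k) ⊗ₜ[k] hc d b + hc d c ⊗ₜ[k] (1 : BB k) := by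
    apply eq_of_map_hc
    intro i j
    rw [De_graded, hc_hc, map_add, TensorProduct.map_tmul, TensorProduct.map_tmul, hc_hc, hc_hc]
    by_cases hij : i + j = d
    · rw [if_pos hij, ← hij, ← De_graded, hc' i j (by omega), hij]
      by_cases hi : i = 0
      · have hj : j = d := by omega
        rw [if_pos hj, hj, if_neg (by omega)]
        have : hc d (1 : BB k) = 0 := by rw [hc_one, if_neg (by omega)]
        rw [this, TensorProduct.tmul_zero, TensorProduct.zero_tmul]
      · have h0 : hc i (1 : BB k) = 0 := by rw [hc_one, if_neg hi]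
        rw [h0, TensorProduct.zero_tmul, TensorProduct.zero_tmul]
        by_cases hj : j = 0
        · have hi' : i = d := by omega
          rw [if_pos hi', hi']
        · have h0' : hc j (1 : BB k) = 0 := by rw [hc_one, if_neg hj]
          rw [h0', TensorProduct.tmul_zero, TensorProduct.tmul_zero]
    · rw [if_neg hij, map_zero, map_zero]
      by_cases hj : j = d
      · have hi : i ≠ 0 := by omega
        have h0 : hc i (1 : BB k) = 0 := by rw [hc_one, if_neg hi]
        have h0' : hc j (1 : BB k) = 0 := by rw [hc_one, if_neg (by omega)]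
        rw [h0, h0', TensorProduct.zero_tmul, TensorProduct.tmul_zero, add_zero]
      · rw [if_neg hj, TensorProduct.tmul_zero, zero_add]
        by_cases hi : i = d
        · have h0' : hc j (1 : BB k) = 0 := by rw [hc_one, if_neg (by omega)]
          rw [h0', TensorProduct.tmul_zero]
        · rw [if_neg hi, TensorProduct.zero_tmul]
  have h2 := cr_De (hc d b)
  rw [h1, map_add, cr_tmul, cr_tmul, map_one, one_smul, (Hm_hc d b).eps_zero hd1, zero_smul,
    zero_add] at h2
  rw [Prm, h1, h2, add_comm]

end grading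

end Pool.Agent.J4H43.FR
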