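import Pool.Agent.Helper392_GT.Defs
import Pool.Agent.Helper771.FreeLieGrad

/-!
# The free Lie algebra on two letters embeds in the free associative algebra (characteristic zero)
-/

set_option autoImplicit false

namespace Pool.Agent.J4H43.FR

open Pool.Agent.Helper392_GT Pool.Agent.Helper771.FreeLieGrad

universe u

attribute [local instance 100] LieRing.ofAssociativeRing

section witt

variable (k : Type u) [Field k]

/-- the operator of a letter on `k × L` -/
noncomputable def wM (y : Fin 2) : Module.End k (k × F2 k) where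
  toFun v := (0, v.1 • FreeLieAlgebra.of k y + ⁅FreeLieAlgebra.of k y, v.2⁆)
  map_add' v w := by
    rw [Prod.fst_add, Prod.snd_add, add_smul, lie_add]
    ext
    · simp
    · exact add_add_add_comm _ _ _ _
  map_smul' c v := by
    rw [Prod.smul_fst, Prod.smul_snd, lie_smul, smul_eq_mul, mul_smul, ← smul_add]
    ext
    · simp
    · rfl

theorem wM_apply (y : Fin 2) (v : k × F2 k) :
    wM k y v = (0, v.1 • FreeLieAlgebra.of k y + ⁅FreeLieAlgebra.of k y, v.2⁆) := rfl

/-- the action of the free associative algebra -/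
noncomputable def wA : FreeAlgebra k (Fin 2) →ₐ[k] Module.End k (k × F2 k) :=
  FreeAlgebra.lift k (wM k)

/-- the Euler derivation -/
noncomputable def wD : F2 k →ₗ[k] F2 k where
  toFun z := (wA k (toAssoc k z) (1, 0)).2
  map_add' a b := by rw [map_add, map_add]; rfl
  map_smul' c a := by rw [map_smul, map_smul]; rfl

theorem wD_apply (z : F2 k) : wD k z = (wA k (toAssoc k z) (1, 0)).2 := rfl

theorem toAssoc_of (y : Fin 2) : toAssoc k (FreeLieAlgebra.of k y) = FreeAlgebra.ι k y :=
  FreeLieAlgebra.lift_of_apply (R := k) (L := FreeAlgebra k (Fin 2)) _ y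

theorem toAssoc_lie (a b : F2 k) : toAssoc k ⁅a, b⁆ =
    toAssoc k a * toAssoc k b - toAssoc k b * toAssoc k a := by
  rw [LieHom.map_lie]; rfl

theorem wA_of (y : Fin 2) : wA k (toAssoc k (FreeLieAlgebra.of k y)) = wM k y := by
  rw [toAssoc_of, wA, FreeAlgebra.lift_ι_apply]

theorem wD_of (y : Fin 2) : wD k (FreeLieAlgebra.of k y) = FreeLieAlgebra.of k y := by
  rw [wD_apply, wA_of, wM_apply, one_smul, lie_zero, add_zero]

theorem wA_lie (a b : F2 k) (v : k × F2 k) : wA k (toAssoc k ⁅a, b⁆) v =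
    wA k (toAssoc k a) (wA k (toAssoc k b) v) - wA k (toAssoc k b) (wA k (toAssoc k a) v) := by
  rw [toAssoc_lie, map_sub, map_mul, map_mul, LinearMap.sub_apply, Module.End.mul_apply,
    Module.End.mul_apply]

theorem wA_eq (z : F2 k) : ∀ v : k × F2 k,
    wA k (toAssoc k z) v = (0, v.1 • wD k z + ⁅z, v.2⁆) := by
  refine free_induction (P := fun z => ∀ v : k × F2 k,
    wA k (toAssoc k z) v = (0, v.1 • wD k z + ⁅z, v.2⁆)) ?_ ?_ ?_ ?_ ?_ z
  · intro y v
    rw [wA_of, wM_apply, wD_of]
  · intro v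
    rw [map_zero, map_zero, map_zero, LinearMap.zero_apply, smul_zero, zero_lie, add_zero]
    rfl
  · intro a b ha hb v
    rw [map_add, map_add, LinearMap.add_apply, ha, hb, map_add, add_lie, smul_add, Prod.mk_add_mk,
      add_zero]
    congr 1
    abel
  · intro c a ha v
    rw [map_smul, map_smul, LinearMap.smul_apply, ha, map_smul, smul_lie, Prod.smul_mk, smul_zero,
      smul_add, smul_comm c v.1]
  · intro a b ha hb v
    have h1 : wD k ⁅a, b⁆ = ⁅a, wD k b⁆ - ⁅b, wD k a⁆ := by
      rw [wD_apply, wA_lie, ha, hb, ha, hb]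
      simp
    rw [wA_lie, ha, hb, ha, hb, h1]
    simp only [zero_smul, zero_add, lie_add, lie_smul, Prod.mk_sub_mk, sub_zero, smul_sub, lie_lie]
    congr 1
    abel

theorem wD_lie (a b : F2 k) : wD k ⁅a, b⁆ = ⁅a, wD k b⁆ + ⁅wD k a, b⁆ := by
  have h1 : wD k ⁅a, b⁆ = ⁅a, wD k b⁆ - ⁅b, wD k a⁆ := by
    rw [wD_apply, wA_lie, wA_eq, wA_eq, wA_eq, wA_eq]
    simp
  rw [h1, ← lie_skew b (wD k a)]
  abel

theorem wD_hom {n : ℕ} {z : F2 k} (hz : z ∈ Hom (K := k) (fun _ : Fin 2 => 1) n) :
    wD k z = (n : k) • z := by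
  have h := Hom_le (K := k) (fun _ : Fin 2 => 1)
    (T := fun n => LinearMap.ker (wD k - (n : k) • LinearMap.id)) (by
      intro i j a ha b hb _ _
      rw [LinearMap.mem_ker, LinearMap.sub_apply, LinearMap.smul_apply, LinearMap.id_apply,
        sub_eq_zero] at ha hb ⊢
      rw [wD_lie, ha, hb, lie_smul, smul_lie, ← add_smul]
      push_cast
      rw [add_comm]) (by
      intro y
      rw [LinearMap.mem_ker, LinearMap.sub_apply, LinearMap.smul_apply, LinearMap.id_apply,
        sub_eq_zero, wD_of]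
      simp) n hz
  rw [LinearMap.mem_ker, LinearMap.sub_apply, LinearMap.smul_apply, LinearMap.id_apply,
    sub_eq_zero] at h
  exact h

theorem comp_wD (m : ℕ) (z : F2 k) : comp (fun _ : Fin 2 => 1) m (wD k z) =
    (m : k) • comp (fun _ : Fin 2 => 1) m z := by
  obtain ⟨N, hN⟩ := exists_bound (K := k) (fun _ : Fin 2 => 1) z
  have h1 : wD k z = ∑ n ∈ Finset.range (max N (m + 1)), (n : k) • comp (fun _ : Fin 2 => 1) n z := by
    nth_rewrite 1 [← (hN (max N (m + 1)) (le_max_left _ _)).2]
    rw [map_sum]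
    exact Finset.sum_congr rfl fun n _ => wD_hom k (comp_mem_Hom _ n z)
  rw [h1, map_sum, Finset.sum_eq_single m]
  · rw [map_smul, comp_comp, if_pos rfl]
  · intro n _ hn
    rw [map_smul, comp_comp, if_neg (Ne.symm hn), smul_zero]
  · intro h
    exact absurd (Finset.mem_range.2 (by omega)) h

/-- the free Lie algebra on two letters embeds in the free associative algebra -/
theorem toAssoc_inj [CharZero k] {a : Pool.Agent.Helper392_GT.F2 k}
    (h : Pool.Agent.Helper392_GT.toAssoc k a = 0) : a = 0 := by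
  have h1 : wD k a = 0 := by
    rw [wD_apply, h, map_zero]; rfl
  apply eq_zero_of_comp (K := k) (fun _ : Fin 2 => 1)
  intro n
  rcases Nat.eq_zero_or_pos n with h0 | h0
  · subst h0
    exact comp_zero _ (fun _ => le_rfl) a
  · have h2 := comp_wD k n a
    rw [h1, map_zero] at h2
    rcases smul_eq_zero.mp h2.symm with h3 | h3
    · exact absurd (Nat.cast_eq_zero.mp h3) (by omega)
    · exact h3

end witt

end Pool.Agent.J4H43.FR
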