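import Pool.Agent.J4H43.FR.Op
import Pool.Agent.J4H43.FR.LemE
import Pool.Agent.J4H43.FR.PrimG
import Pool.Agent.J4H43.FR.Witt

/-!
# Two linearly independent elements generate a free Lie algebra
-/

set_option autoImplicit false
set_option linter.unusedSectionVars false

namespace Pool.Agent.J4H43.FR

open Polynomial Pool.Agent.Helper392_GT

universe u v w

attribute [local instance 100] LieRing.ofAssociativeRing

section lead

variable {k : Type u} [Field k]

/-- the leading data of `σ` -/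
structure Ld (σ : F2 k) (d e : ℕ) : Prop where
  dep : DepthGE k d σ
  d1 : 1 ≤ d
  e2 : 2 ≤ e
  ne : hc d ((Ph σ).coeff e) ≠ 0
  top : ∀ a, e < a → hc d ((Ph σ).coeff a) = 0

theorem Ld.sy {σ : F2 k} {d e : ℕ} (h : Ld σ d e) : Sy d e (Ph σ) :=
  ⟨fun j hj a => Ph_mem h.dep j hj a, h.top⟩

theorem exists_Ld [CharZero k] {σ : F2 k} (hg : IsGRT k σ) (h0 : σ ≠ 0) : ∃ d e, Ld σ d e := by
  classical
  have hψ := pentagon_mem_D1 hg.pent
  have hex : ∃ n, ¬ DepthGE k n σ := by
    by_contra hcon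
    push Not at hcon
    apply h0
    apply toAssoc_inj
    refine wc_ext fun v => ?_
    exact hcon ((FreeMonoid.toList v).count 1 + 1) v (Nat.lt_succ_self _)
  set n := Nat.find hex with hn
  have hn0 : ¬ DepthGE k n σ := Nat.find_spec hex
  have hn2 : 2 ≤ n := by
    by_contra hlt
    have h1 : n = 0 ∨ n = 1 := by omega
    rcases h1 with h1 | h1
    · rw [h1] at hn0; exact hn0 (depth_all σ)
    · rw [h1] at hn0; exact hn0 (depth_D1 hψ)
  obtain ⟨d, hd⟩ : ∃ d, n = d + 1 := ⟨n - 1, by omega⟩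
  have hdep : DepthGE k d σ := by
    by_contra hcon
    exact Nat.find_min hex (show d < n by omega) hcon
  rw [hd] at hn0
  have hd1 : 1 ≤ d := by omega
  obtain ⟨a, ha2, ha⟩ := lemE hg hdep hn0 (prm_lead hg.pent hψ hdep hd1) (by
    intro h
    have h1 := trans_lead hψ d 0
    rw [h, map_zero, neg_zero, Nat.cast_zero, zero_add, one_smul, zero_add] at h1
    exact h1)
  have ha' : a ≤ (Ph σ).natDegree := by
    by_contra hlt
    apply ha
    rw [coeff_eq_zero_of_natDegree_lt (not_le.mp hlt), map_zero]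
  refine ⟨d, Nat.findGreatest (fun a => hc d ((Ph σ).coeff a) ≠ 0) (Ph σ).natDegree, hdep, hd1,
    ?_, ?_, ?_⟩
  · exact le_trans ha2 (Nat.le_findGreatest ha' ha)
  · exact Nat.findGreatest_spec (P := fun a => hc d ((Ph σ).coeff a) ≠ 0) ha' ha
  · intro b hb
    by_cases hb2 : b ≤ (Ph σ).natDegree
    · by_contra hcon
      exact Nat.findGreatest_is_greatest hb hb2 hcon
    · rw [coeff_eq_zero_of_natDegree_lt (not_le.mp hb2), map_zero]

theorem Ld.sym {σ : F2 k} {d e : ℕ} (h : Ld σ d e) :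
    HasSym (rr σ) d e (-hc d ((Ph σ).coeff e)) :=
  HasSym_of (Low_cq h.dep (by have := h.e2; omega)) h.sy

theorem eps_toAssoc (R : F2 k) : wc 1 (toAssoc k R) = 0 := by
  rw [wc_one]
  refine free_ind (fun R => eps (toAssoc k R) = 0) ?_ ?_ ?_ ?_ ?_ ?_ R
  · rw [map_zero, map_zero]
  · intro a b ha hb
    rw [map_add, map_add, ha, hb, add_zero]
  · intro c a ha
    rw [map_smul, map_smul, ha, smul_zero]
  · intro a b ha hb
    rw [LieHom.map_lie, Ring.lie_def, map_sub, map_mul, map_mul, ha, hb, mul_zero, sub_zero]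
  · have : toAssoc k (gx k) = FreeAlgebra.ι k 0 := toAssoc_of k 0
    rw [this, eps_ι]
  · have : toAssoc k (gy k) = FreeAlgebra.ι k 1 := toAssoc_of k 1
    rw [this, eps_ι]

/-- the vanishing forced by a depth drop -/
def Vn (σ τ R : F2 k) (d d' : ℕ) : Prop := ∀ u m, wc u (toAssoc k R) ≠ 0 → 1 ≤ m →
  hc (wg d d' u) ((FreeAlgebra.lift k ![rr σ, rr τ] (toAssoc k R) 1).coeff m) = 0

theorem Vn_of {σ τ : F2 k} {D E : LieDerivation k (F2 k) (F2 k)} (hD : IsIharaDer D σ)
    (hE : IsIharaDer E τ) {R h : F2 k}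
    (hR : FreeLieAlgebra.lift k ![D, E] R (gy k) = ⁅gy k, h⁆) {d d' p : ℕ}
    (hp : ∀ u, wc u (toAssoc k R) ≠ 0 → wg d d' u ≤ p) (hh : DepthGE k (p + 1) h) :
    Vn σ τ R d d' := by
  obtain ⟨h0, H⟩ := op_main hD hE R
  have h1 : ⁅gy k, h - h0⁆ = 0 := by
    rw [lie_sub, ← H.gyh, hR, sub_self]
  intro u m hu hm
  have h2 : FreeAlgebra.lift k ![rr σ, rr τ] (toAssoc k R) = subst k (rr σ) (rr τ) R :=
    (subst_eq_lift (rr σ) (rr τ) R).symm
  have h3 := y_comm h1 m hm
  rw [Ph_sub, coeff_sub, sub_eq_zero] at h3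
  rw [h2, H.one, coeff_neg, ← h3, map_neg, Ph_mem hh _ (Nat.lt_succ_of_le (hp u hu)) m, neg_zero]

theorem case_A [CharZero k] {σ τ : F2 k} {d e d' e' : ℕ} (hσ : Ld σ d e) (hτ : Ld τ d' e')
    (hne : hc d ((Ph σ).coeff e) * hc d' ((Ph τ).coeff e') ≠
      hc d' ((Ph τ).coeff e') * hc d ((Ph σ).coeff e))
    {R : F2 k} (hR : Vn σ τ R d d') : R = 0 := by
  apply toAssoc_inj
  refine caseA hσ.sym hτ.sym (fun G hG => ?_) (by have := hσ.e2; omega) (by have := hτ.e2; omega)
    (eps_toAssoc R) hR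
  refine free_pair hσ.d1 hτ.d1 (Hm_hc _ _).neg (Hm_hc _ _).neg ?_ hG
  rwa [neg_mul_neg, neg_mul_neg]

theorem case_B [CharZero k] {σ τ : F2 k} {d e e' : ℕ} (hσ : Ld σ d e) (hτ : Ld τ d e')
    (gσ : σ ∈ D1 k) (gτ : τ ∈ D1 k)
    {c : k} (hc0 : hc d ((Ph τ).coeff e') = c • hc d ((Ph σ).coeff e)) (hee : e ≠ e')
    {R : F2 k} (hR : Vn σ τ R d d) : R = 0 := by
  have hσe := hσ.e2
  have hτe := hτ.e2
  have hcne : c ≠ 0 := by
    rintro rfl
    apply hτ.ne
    rw [hc0, zero_smul]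
  set Ψ : (BB k)[X] := X ^ e * Ph τ - c • (X ^ e' * Ph σ) with hΨ
  have hcoef : ∀ n, e ≤ n → e' ≤ n → hc d (Ψ.coeff n) =
      hc d ((Ph τ).coeff (n - e)) - c • hc d ((Ph σ).coeff (n - e')) := by
    intro n h1 h2
    rw [hΨ, coeff_sub, coeff_smul, coeff_X_pow_mul', coeff_X_pow_mul', if_pos h1, if_pos h2,
      map_sub, map_smul]
  have hsy : Sy d (e + e' - 1) Ψ := by
    refine ⟨?_, ?_⟩
    · have h1 : Ψ ∈ Fz k d := by
        refine Submodule.sub_mem _ ?_ (Submodule.smul_mem _ _ ?_)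
        · have := Fz_mul (Fz_zero (X ^ e : (BB k)[X])) (Ph_mem hτ.dep)
          rwa [zero_add] at this
        · have := Fz_mul (Fz_zero (X ^ e' : (BB k)[X])) (Ph_mem hσ.dep)
          rwa [zero_add] at this
      exact h1
    · intro a ha
      rw [hcoef a (by omega) (by omega)]
      by_cases h : a = e + e'
      · rw [h, Nat.add_sub_cancel, Nat.add_sub_cancel_left, hc0, sub_self]
      · rw [hτ.top _ (by omega), hσ.top _ (by omega), smul_zero, sub_zero]
  set T : Module.End k (BB k)[X] := LinearMap.mulLeft k (X ^ e) ∘ₗ cq (dh τ) -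
    c • (LinearMap.mulLeft k (X ^ e') ∘ₗ cq (dh σ)) with hT
  have hTa : ∀ F, T F = X ^ e * cq (dh τ) F - c • (X ^ e' * cq (dh σ) F) := fun F => rfl
  have hlow : Low T d (e + e' - 1) := by
    intro p m F hF
    have l1 := Low_cq hσ.dep (e := 1) le_rfl p m F hF
    have l2 := Low_cq hτ.dep (e := 1) le_rfl p m F hF
    refine ⟨fun j hj a => ?_, fun a ha => ?_⟩
    · rw [hTa, coeff_sub, coeff_smul, coeff_X_pow_mul', coeff_X_pow_mul', map_sub, map_smul]
      have e1 : hc j (if e ≤ a then (cq (dh τ) F).coeff (a - e) else 0) = 0 := by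
        split_ifs
        · exact l2.1 j hj _
        · exact map_zero _
      have e2 : hc j (if e' ≤ a then (cq (dh σ) F).coeff (a - e') else 0) = 0 := by
        split_ifs
        · exact l1.1 j hj _
        · exact map_zero _
      rw [e1, e2, smul_zero, sub_zero]
    · rw [hTa, coeff_sub, coeff_smul, coeff_X_pow_mul', coeff_X_pow_mul', map_sub, map_smul,
        if_pos (by omega), if_pos (by omega), l2.2 _ (by omega), l1.2 _ (by omega), smul_zero,
        sub_zero]
  have hW : HasSym (LinearMap.mulLeft k (X ^ e) ∘ₗ rr τ - c • (LinearMap.mulLeft k (X ^ e') ∘ₗ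
      rr σ)) d (e + e' - 1) (-hc d (Ψ.coeff (e + e' - 1))) := by
    have h1 := HasSym_of hlow hsy
    have h2 : T - LinearMap.mulLeft k Ψ = LinearMap.mulLeft k (X ^ e) ∘ₗ rr τ -
        c • (LinearMap.mulLeft k (X ^ e') ∘ₗ rr σ) := by
      refine LinearMap.ext fun F => ?_
      change T F - Ψ * F = X ^ e * rr τ F - c • (X ^ e' * rr σ F)
      rw [hTa, hΨ, rr_apply, rr_apply, mul_sub, mul_sub, sub_mul, smul_sub, smul_mul_assoc,
        mul_assoc, mul_assoc]
      abel
    rwa [h2] at h1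
  have hpH : pd (hc d ((Ph σ).coeff e)) = 0 := by
    have h1 := trans_lead gσ d e
    rw [hσ.top _ (Nat.lt_succ_self e), smul_zero] at h1
    exact neg_eq_zero.mp h1.symm
  have hpb : pd (hc d (Ψ.coeff (e + e' - 1))) =
      (c * ((e : k) - (e' : k))) • hc d ((Ph σ).coeff e) := by
    rw [hcoef _ (by omega) (by omega), map_sub, map_smul,
      show e + e' - 1 - e = e' - 1 by omega, show e + e' - 1 - e' = e - 1 by omega]
    have h1 := trans_lead gτ d (e' - 1)
    have h2 := trans_lead gσ d (e - 1)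
    rw [show e' - 1 + 1 = e' by omega, Nat.cast_sub (by omega), Nat.cast_one,
      sub_add_cancel] at h1
    rw [show e - 1 + 1 = e by omega, Nat.cast_sub (by omega), Nat.cast_one,
      sub_add_cancel] at h2
    rw [← neg_eq_iff_eq_neg] at h1 h2
    rw [← h1, ← h2, hc0, smul_neg, sub_neg_eq_add, smul_smul, smul_smul, ← neg_smul, ← add_smul]
    congr 1
    ring
  apply toAssoc_inj
  refine caseB hσ.sym hW (rr_xh σ) (rr_xh τ) (Rs_rr hσ.dep) (Rs_rr hτ.dep) hσ.d1 (by omega)
    hτe (fun G hG => ?_) (eps_toAssoc R) hR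
  refine free_pair hσ.d1 hσ.d1 (Hm_hc _ _).neg (Hm_hc _ _).neg ?_ hG
  rw [neg_mul_neg, neg_mul_neg]
  intro hcomm
  obtain ⟨g, hg, hgb⟩ := div_gen (le_refl d) (Hm_hc d ((Ph σ).coeff e))
    (Hm_hc d (Ψ.coeff (e + e' - 1))) hσ.ne hcomm.symm
  rw [Nat.sub_self] at hg
  have hg2 : g = algebraMap k _ (eps g) := by rw [← hc_zero_eq, hg.self]
  have h3 : pd (hc d (Ψ.coeff (e + e' - 1))) = 0 := by
    rw [hgb, hg2, ← Algebra.smul_def, map_smul, hpH, smul_zero]
  rw [hpb] at h3
  rcases smul_eq_zero.mp h3 with h4 | h4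
  · rcases mul_eq_zero.mp h4 with h5 | h5
    · exact hcne h5
    · apply hee
      exact Nat.cast_injective (sub_eq_zero.mp h5)
  · exact hσ.ne h4

end lead

section final

variable {k : Type u} [Field k] [CharZero k]

/-- the change of variables -/
noncomputable def chv (k : Type u) [Field k] (c : k) : F2 k →ₗ⁅k⁆ F2 k :=
  subst k (gx k) (gy k + c • gx k)

theorem chv_comp (c : k) {g : Type*} [LieRing g] [LieAlgebra k g] (a b : g) (R : F2 k) :
    subst k a b (chv k c R) = subst k a (b + c • a) R := by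
  have h : (subst k a b).comp (chv k c) = subst k a (b + c • a) := by
    apply FreeLieAlgebra.hom_ext
    intro i
    fin_cases i
    · change subst k a b (chv k c (gx k)) = subst k a (b + c • a) (gx k)
      rw [chv, subst_x, subst_x, subst_x]
    · change subst k a b (chv k c (gy k)) = subst k a (b + c • a) (gy k)
      rw [chv, subst_y, map_add, map_smul, subst_x, subst_y, subst_y]
  exact congrArg (fun f : F2 k →ₗ⁅k⁆ g => f R) h

theorem chv_inj {c : k} {R : F2 k} (h : chv k c R = 0) : R = 0 := by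
  have h1 := chv_comp c (gx k) (gy k - c • gx k) R
  rw [h, map_zero, sub_add_cancel] at h1
  have h2 : subst k (gx k) (gy k) = LieHom.id := by
    apply FreeLieAlgebra.hom_ext
    intro i
    fin_cases i
    · exact subst_x _ _
    · exact subst_y _ _
  rw [h2] at h1
  exact h1.symm

/-- the words of a change of variables have the lengths of the old words -/
theorem hc_chv (c : k) (R : F2 k) (n : ℕ) :
    hc n (toAssoc k (chv k c R)) = FreeAlgebra.lift k ![FreeAlgebra.ι k 0,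
      FreeAlgebra.ι k 1 + c • FreeAlgebra.ι k 0] (hc n (toAssoc k R)) := by
  have h1 : toAssoc k (chv k c R) = FreeAlgebra.lift k ![FreeAlgebra.ι k 0,
      FreeAlgebra.ι k 1 + c • FreeAlgebra.ι k 0] (toAssoc k R) := by
    have e1 : ∀ u : F2 k, toAssoc k u = subst k (FreeAlgebra.ι k (0 : Fin 2))
        (FreeAlgebra.ι k 1) u := by
      intro u
      have : toAssoc k = subst k (FreeAlgebra.ι k (0 : Fin 2)) (FreeAlgebra.ι k 1) := by
        apply FreeLieAlgebra.hom_ext
        intro i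
        fin_cases i
        · exact (toAssoc_of k 0).trans (subst_x _ _).symm
        · exact (toAssoc_of k 1).trans (subst_y _ _).symm
      rw [this]
    rw [e1, chv_comp, subst_eq_lift]
  rw [h1]
  generalize toAssoc k R = g
  revert n
  refine left_ind (fun g => ∀ n, hc n (FreeAlgebra.lift k ![FreeAlgebra.ι k 0,
    FreeAlgebra.ι k 1 + c • FreeAlgebra.ι k 0] g) = FreeAlgebra.lift k ![FreeAlgebra.ι k 0,
      FreeAlgebra.ι k 1 + c • FreeAlgebra.ι k 0] (hc n g)) ?_ ?_ ?_ ?_ g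
  · intro n
    rw [map_one, hc_one]
    split_ifs
    · rw [map_one]
    · rw [map_zero]
  · intro a b ha hb n
    simp only [map_add, ha, hb]
  · intro r a ha n
    simp only [map_smul, ha]
  · intro i a ha n
    rw [map_mul, FreeAlgebra.lift_ι_apply]
    cases n with
    | zero =>
      rw [hc_zero_ι_mul, map_zero]
      fin_cases i
      · exact hc_zero_ι_mul 0 _
      · change hc 0 ((FreeAlgebra.ι k 1 + c • FreeAlgebra.ι k 0) * _) = 0
        rw [add_mul, smul_mul_assoc, map_add, map_smul, hc_zero_ι_mul, hc_zero_ι_mul, smul_zero,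
          add_zero]
    | succ n =>
      rw [hc_ι_mul, map_mul (FreeAlgebra.lift k _) (FreeAlgebra.ι k i),
        FreeAlgebra.lift_ι_apply, ← ha]
      fin_cases i
      · exact hc_ι_mul n 0 _
      · change hc (n + 1) ((FreeAlgebra.ι k 1 + c • FreeAlgebra.ι k 0) * _) =
          (FreeAlgebra.ι k 1 + c • FreeAlgebra.ι k 0) * hc n _
        rw [add_mul, smul_mul_assoc, map_add, map_smul, hc_ι_mul, hc_ι_mul, add_mul,
          smul_mul_assoc]

theorem Ld.not {σ : F2 k} {d e : ℕ} (h : Ld σ d e) : ¬ DepthGE k (d + 1) σ := fun h1 =>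
  h.ne (Ph_mem h1 d (Nat.lt_succ_self d) e)

theorem depth_mono {σ : F2 k} {m n : ℕ} (h : m ≤ n) (hn : DepthGE k n σ) : DepthGE k m σ :=
  fun w hw => hn w (lt_of_lt_of_le hw h)

/-- the exact depth is unique -/
theorem depth_unique {σ : F2 k} {m n : ℕ} (h1 : DepthGE k m σ) (h2 : ¬ DepthGE k (m + 1) σ)
    (h3 : DepthGE k n σ) (h4 : ¬ DepthGE k (n + 1) σ) : m = n := by
  by_contra hne
  rcases Nat.lt_or_gt_of_ne hne with h | h
  · exact h2 (depth_mono (by omega) h3)
  · exact h4 (depth_mono (by omega) h1)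

/-- no depth drop -/
theorem no_drop {σ τ : F2 k} (hσ : IsGRT k σ) (hτ : IsGRT k τ)
    {D E : LieDerivation k (F2 k) (F2 k)} (hD : IsIharaDer D σ) (hE : IsIharaDer E τ)
    {d d' : ℕ} (h1 : DepthGE k d σ) (h2 : ¬ DepthGE k (d + 1) σ) (h3 : DepthGE k d' τ)
    (h4 : ∀ c : k, ¬ DepthGE k (d' + 1) (τ - c • σ)) {R : F2 k} {p : ℕ}
    (hp : ∀ u, wordCoeff k R u ≠ 0 → wg d d' u ≤ p) {h : F2 k}
    (hR : FreeLieAlgebra.lift k ![D, E] R (gy k) = ⁅gy k, h⁆) (hh : DepthGE k (p + 1) h) :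
    R = 0 := by
  have gσ := pentagon_mem_D1 hσ.pent
  have gτ := pentagon_mem_D1 hτ.pent
  have hσ0 : σ ≠ 0 := by
    rintro rfl
    exact h2 (DepthGE.zero _)
  have h40 : ¬ DepthGE k (d' + 1) τ := by
    have := h4 0
    rwa [zero_smul, sub_zero] at this
  have hτ0 : τ ≠ 0 := by
    rintro rfl
    exact h40 (DepthGE.zero _)
  obtain ⟨d0, e, lσ⟩ := exists_Ld hσ hσ0
  obtain ⟨d0', e', lτ⟩ := exists_Ld hτ hτ0
  obtain rfl := depth_unique h1 h2 lσ.dep lσ.not
  obtain rfl := depth_unique h3 h40 lτ.dep lτ.not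
  have hV : Vn σ τ R d d' := Vn_of hD hE hR hp hh
  by_cases hcm : hc d ((Ph σ).coeff e) * hc d' ((Ph τ).coeff e') =
      hc d' ((Ph τ).coeff e') * hc d ((Ph σ).coeff e)
  swap
  · exact case_A lσ lτ hcm hV
  obtain ⟨hdd, c, hc'⟩ := prim_comm lσ.d1 lτ.d1 (Hm_hc _ _) (Hm_hc _ _)
    (prm_lead hσ.pent gσ lσ.dep lσ.d1 e) (prm_lead hτ.pent gτ lτ.dep lτ.d1 e') lσ.ne lτ.ne hcm
  subst hdd
  by_cases hee : e = e'
  swap
  · exact case_B lσ lτ gσ gτ hc' hee hV
  subst hee
  -- replace `τ` by `τ - c σ`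
  have hτ' : IsGRT k (τ - c • σ) := (grtSub k).sub_mem hτ ((grtSub k).smul_mem c hσ)
  have hd' : DepthGE k d (τ - c • σ) := h3.sub (h1.smul c)
  have hτ0' : τ - c • σ ≠ 0 := by
    intro h0
    apply h4 c
    rw [h0]; exact DepthGE.zero _
  have gτ' := pentagon_mem_D1 hτ'.pent
  obtain ⟨d'', e'', lτ'⟩ := exists_Ld hτ' hτ0'
  obtain rfl := depth_unique hd' (h4 c) lτ'.dep lτ'.not
  have hE' : IsIharaDer (E - c • D) (τ - c • σ) := by
    constructor
    · rw [LieDerivation.sub_apply, LieDerivation.smul_apply, hD.1, hE.1, smul_zero, sub_zero]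
    · rw [LieDerivation.sub_apply, LieDerivation.smul_apply, hD.2, hE.2, lie_sub, lie_smul]
  have hR' : FreeLieAlgebra.lift k ![D, E - c • D] (chv k c R) (gy k) = ⁅gy k, h⁆ := by
    have e1 := chv_comp c D (E - c • D) R
    rw [sub_add_cancel] at e1
    have e2 : FreeLieAlgebra.lift k ![D, E - c • D] (chv k c R) =
      FreeLieAlgebra.lift k ![D, E] R := e1
    rw [e2]; exact hR
  have hp' : ∀ u, wc u (toAssoc k (chv k c R)) ≠ 0 → wg d d u ≤ p := by
    intro u hu
    have e1 : hc u.length (toAssoc k (chv k c R)) ≠ 0 := by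
      intro h0
      apply hu
      have := wc_hc u u.length (toAssoc k (chv k c R))
      rw [if_pos rfl, h0, map_zero] at this
      exact this.symm
    rw [hc_chv] at e1
    have e2 : hc u.length (toAssoc k R) ≠ 0 := by
      intro h0
      apply e1
      rw [h0, map_zero]
    obtain ⟨w, hw⟩ : ∃ w, wc w (hc u.length (toAssoc k R)) ≠ 0 := by
      by_contra hcon
      push Not at hcon
      exact e2 (wc_ext hcon)
    rw [wc_hc] at hw
    have hl : w.length = u.length := by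
      by_contra hl
      rw [if_neg hl] at hw
      exact hw rfl
    rw [if_pos hl] at hw
    have e3 := hp w hw
    rw [wg, ← add_mul, count_add] at e3 ⊢
    rwa [← hl]
  have hV' : Vn σ (τ - c • σ) (chv k c R) d d := Vn_of hD hE' hR' hp' hh
  apply chv_inj (c := c)
  by_cases hcm' : hc d ((Ph σ).coeff e) * hc d ((Ph (τ - c • σ)).coeff e'') =
      hc d ((Ph (τ - c • σ)).coeff e'') * hc d ((Ph σ).coeff e)
  swap
  · exact case_A lσ lτ' hcm' hV'
  obtain ⟨-, c', hc''⟩ := prim_comm lσ.d1 lτ'.d1 (Hm_hc _ _) (Hm_hc _ _)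
    (prm_lead hσ.pent gσ lσ.dep lσ.d1 e) (prm_lead hτ'.pent gτ' lτ'.dep lτ'.d1 e'') lσ.ne
    lτ'.ne hcm'
  refine case_B lσ lτ' gσ gτ' hc'' ?_ hV'
  rintro rfl
  apply lτ'.ne
  rw [Ph_sub, Ph_smul, coeff_sub, coeff_smul, map_sub, map_smul, hc', sub_self]

/-- the degrees of the words of an element are bounded -/
theorem exists_wg_bound (R : F2 k) (d d' : ℕ) : ∃ p, ∀ u, wordCoeff k R u ≠ 0 → wg d d' u ≤ p := by
  refine ⟨(FreeAlgebra.equivMonoidAlgebraFreeMonoid (toAssoc k R)).coeff.support.sup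
    (fun u => wg d d' u), fun u hu => ?_⟩
  exact Finset.le_sup (f := fun u => wg d d' u) (Finsupp.mem_support_iff.mpr hu)

theorem two_free {σ τ : F2 k} (hσ : IsGRT k σ) (hτ : IsGRT k τ)
    (hli : LinearIndependent k ![σ, τ]) {D E : LieDerivation k (F2 k) (F2 k)}
    (hD : IsIharaDer D σ) (hE : IsIharaDer E τ) :
    Function.Injective (FreeLieAlgebra.lift k ![D, E]) := by
  rw [LinearIndependent.pair_iff] at hli
  have hσ0 : σ ≠ 0 := by
    rintro rfl
    have := hli 1 0 (by simp)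
    exact one_ne_zero this.1
  have hτ0 : τ ≠ 0 := by
    rintro rfl
    have := hli 0 1 (by simp)
    exact one_ne_zero this.2
  obtain ⟨d, e, lσ⟩ := exists_Ld hσ hσ0
  obtain ⟨d', e', lτ⟩ := exists_Ld hτ hτ0
  rw [injective_iff_map_eq_zero]
  intro R hR
  have hz : ∀ {D' E' : LieDerivation k (F2 k) (F2 k)} {R' : F2 k},
      FreeLieAlgebra.lift k ![D', E'] R' = 0 →
      FreeLieAlgebra.lift k ![D', E'] R' (gy k) = ⁅gy k, (0 : F2 k)⁆ := by
    intro D' E' R' h
    rw [h, lie_zero]; rfl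
  by_cases h4 : ∀ c : k, ¬ DepthGE k (d' + 1) (τ - c • σ)
  · obtain ⟨p, hp⟩ := exists_wg_bound R d d'
    exact no_drop hσ hτ hD hE lσ.dep lσ.not lτ.dep h4 hp (hz hR) (DepthGE.zero _)
  push Not at h4
  obtain ⟨c, hc'⟩ := h4
  have hc0 : c ≠ 0 := by
    rintro rfl
    rw [zero_smul, sub_zero] at hc'
    exact lτ.not hc'
  -- the depths agree
  have hdd : d = d' := by
    apply depth_unique lσ.dep lσ.not
    · have : σ = c⁻¹ • (τ - (τ - c • σ)) := by
        rw [sub_sub_cancel, smul_smul, inv_mul_cancel₀ hc0, one_smul]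
      rw [this]
      exact (lτ.dep.sub (depth_mono (Nat.le_succ _) hc')).smul _
    · intro h5
      apply lτ.not
      have : τ = (τ - c • σ) + c • σ := by rw [sub_add_cancel]
      rw [this]
      exact hc'.add (h5.smul c)
  subst hdd
  have hτ' : IsGRT k (τ - c • σ) := (grtSub k).sub_mem hτ ((grtSub k).smul_mem c hσ)
  have hτ0' : τ - c • σ ≠ 0 := by
    intro h0
    have := hli (-c) 1 (by rw [one_smul, neg_smul, ← h0]; abel)
    exact one_ne_zero this.2
  obtain ⟨d'', e'', lτ'⟩ := exists_Ld hτ' hτ0'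
  have hdd' : d + 1 ≤ d'' := by
    by_contra hlt
    exact lτ'.not (depth_mono (by omega) hc')
  have hE' : IsIharaDer (E - c • D) (τ - c • σ) := by
    constructor
    · rw [LieDerivation.sub_apply, LieDerivation.smul_apply, hD.1, hE.1, smul_zero, sub_zero]
    · rw [LieDerivation.sub_apply, LieDerivation.smul_apply, hD.2, hE.2, lie_sub, lie_smul]
  have hR' : FreeLieAlgebra.lift k ![D, E - c • D] (chv k c R) = 0 := by
    have h1 := chv_comp c D (E - c • D) R
    rw [sub_add_cancel] at h1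
    exact h1.trans hR
  apply chv_inj (c := c)
  obtain ⟨p, hp⟩ := exists_wg_bound (chv k c R) d d''
  refine no_drop hσ hτ' hD hE' lσ.dep lσ.not lτ'.dep ?_ hp (hz hR') (DepthGE.zero _)
  intro c' h6
  by_cases hc1 : c' = 0
  · rw [hc1, zero_smul, sub_zero] at h6
    exact lτ'.not h6
  · apply lσ.not
    have : σ = c'⁻¹ • ((τ - c • σ) - ((τ - c • σ) - c' • σ)) := by
      rw [sub_sub_cancel, smul_smul, inv_mul_cancel₀ hc1, one_smul]
    rw [this]
    exact (((depth_mono hdd' lτ'.dep).sub (depth_mono (by omega) h6))).smul _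

end final

end Pool.Agent.J4H43.FR
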