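import Pool.Agent.J4H43.FR.Trans
import Pool.Agent.J4H43.FR.Cas
import Pool.Agent.Helper392_GT.Defs5

/-!
# Derivations acting on `B[z]`
-/

set_option autoImplicit false

namespace Pool.Agent.J4H43.FR

open Polynomial Pool.Agent.Helper392_GT

universe u v w

attribute [local instance 100] LieRing.ofAssociativeRing

section dr

variable {k : Type u} [Field k]

/-- dual numbers version of a derivation -/
noncomputable def drA (f : ℕ → BB k) : BB k →ₐ[k] (BB k)[X] :=
  FreeAlgebra.lift k (fun a => C (ee k a) + X * C (f a))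

theorem drA_ι (f : ℕ → BB k) (a : ℕ) : drA f (ee k a) = C (ee k a) + X * C (f a) := by
  rw [drA, FreeAlgebra.lift_ι_apply]

theorem drA_zero (f : ℕ → BB k) (b : BB k) : (drA f b).coeff 0 = b := by
  refine left_ind (fun b => (drA f b).coeff 0 = b) ?_ ?_ ?_ ?_ b
  · rw [map_one, coeff_one_zero]
  · intro a b ha hb
    rw [map_add, coeff_add, ha, hb]
  · intro c a ha
    rw [map_smul, coeff_smul, ha]
  · intro y a ha
    rw [map_mul, mul_coeff_zero, ha, drA_ι, coeff_add, coeff_C_zero, coeff_X_mul_zero, add_zero]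

/-- the derivation with given values on the letters -/
noncomputable def dr (f : ℕ → BB k) : BB k →ₗ[k] BB k where
  toFun b := (drA f b).coeff 1
  map_add' a b := by rw [map_add, coeff_add]
  map_smul' c a := by rw [map_smul, coeff_smul, RingHom.id_apply]

theorem dr_apply (f : ℕ → BB k) (b : BB k) : dr f b = (drA f b).coeff 1 := rfl

theorem dr_one (f : ℕ → BB k) : dr f (1 : BB k) = 0 := by
  rw [dr_apply, map_one, coeff_one, if_neg (by omega)]

theorem dr_ι_mul (f : ℕ → BB k) (a : ℕ) (b : BB k) : dr f (ee k a * b) =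
    f a * b + ee k a * dr f b := by
  rw [dr_apply, map_mul, mul_coeff_one, drA_zero, drA_zero, drA_ι, coeff_add, coeff_C_succ,
    zero_add, coeff_X_mul, coeff_C_zero, add_comm]
  rfl

end dr

section op

variable {k : Type u} [Field k]

/-- the representation of Lie elements -/
noncomputable abbrev rs (ψ : F2 k) : Module.End k (BB k)[X] :=
  subst k (xh : Module.End k (BB k)[X]) yh ψ

theorem RL_rs (ψ : F2 k) : RL (rs ψ) := by
  rw [rs, subst_rh]; exact RL_rh _

theorem rs_C (ψ : F2 k) (b : BB k) : rs ψ (C b) = Ph ψ * C b := by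
  have := RL_rs ψ 1 b
  rwa [one_mul] at this

/-- the values of the derivation -/
noncomputable def fh (ψ : F2 k) (a : ℕ) : BB k := kap (rs ψ (X ^ a)) - kap (X ^ a * Ph ψ)

/-- the derivation of `B` -/
noncomputable def dh (ψ : F2 k) : BB k →ₗ[k] BB k := dr (fh ψ)

/-- the operator of `ψ` -/
noncomputable def rr (ψ : F2 k) : Module.End k (BB k)[X] :=
  cq (dh ψ) - LinearMap.mulLeft k (Ph ψ)

theorem rr_apply (ψ : F2 k) (F : (BB k)[X]) : rr ψ F = cq (dh ψ) F - Ph ψ * F := rfl

theorem cq_X (T : BB k →ₗ[k] BB k) (F : (BB k)[X]) : cq T (X * F) = X * cq T F := by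
  ext a
  rw [cq_coeff]
  cases a with
  | zero => rw [coeff_X_mul_zero, coeff_X_mul_zero, map_zero]
  | succ a => rw [coeff_X_mul, coeff_X_mul, cq_coeff]

theorem rr_xh (ψ : F2 k) (F : (BB k)[X]) : rr ψ (X * F) = X * rr ψ F := by
  have e : Ph ψ * (X * F) = X * (Ph ψ * F) := by
    rw [← mul_assoc, ← mul_assoc, ← X_mul]
  rw [rr_apply, rr_apply, cq_X, mul_sub, e]

theorem cq_C (T : BB k →ₗ[k] BB k) (c : BB k) : cq T (C c) = C (T c) := by
  rw [← monomial_zero_left, cq_monomial, monomial_zero_left]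

theorem rr_one (ψ : F2 k) : rr ψ 1 = -Ph ψ := by
  rw [rr_apply, ← C_1, cq_C, dh, dr_one, C_0, zero_sub, C_1, mul_one]

theorem rr_yh (ψ : F2 k) (F : (BB k)[X]) :
    rr ψ (yh F) = yh (rr ψ F) + (yh (rs ψ F) - rs ψ (yh F)) := by
  induction F using Polynomial.induction_on' with
  | add p q hp hq =>
    simp only [map_add, hp, hq]
    abel
  | monomial n c =>
    have e1 : (monomial n c : (BB k)[X]) = X ^ n * C c := by
      rw [X_pow_mul, C_mul_X_pow_eq_monomial]
    have e2 : rs ψ (monomial n c) = rs ψ (X ^ n) * C c := by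
      rw [e1, RL_rs]
    have e3 : Ph ψ * monomial n c = X ^ n * Ph ψ * C c := by
      rw [e1, ← mul_assoc, X_pow_mul]
    rw [e2, rr_apply, rr_apply, e3, cq_monomial, yh_apply, yh_apply, yh_apply, kap_monomial,
      cq_C, rs_C, map_sub, kap_monomial, kap_mul_C, kap_mul_C, dh, dr_ι_mul, fh, sub_mul,
      C_add, C_sub, C_sub]
    abel

theorem hc_fh {ψ : F2 k} {d : ℕ} (h : DepthGE k d ψ) (a : ℕ) {j : ℕ} (hj : j < d + 1) :
    hc j (fh ψ a) = 0 := by
  have h1 : rs ψ (X ^ a) ∈ Fz k d := by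
    have := Rs_subst Fz_anti h Rs_xh Rs_yh 0 (X ^ a : (BB k)[X]) (Fz_zero _)
    rwa [zero_add] at this
  have h2 : X ^ a * Ph ψ ∈ Fz k d := by
    have := Fz_mul (Fz_zero (X ^ a : (BB k)[X])) (Ph_mem h)
    rwa [zero_add] at this
  rw [fh, map_sub, hc_kap h1 hj, hc_kap h2 hj, sub_zero]

theorem hc_wrd (v : FreeMonoid ℕ) {j : ℕ} (hj : j < v.length) : hc j (wrd v : BB k) = 0 := by
  refine wc_ext fun w => ?_
  rw [wc_hc]
  split_ifs with h
  · apply wc_wrd_ne
    rintro rfl
    omega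
  · rfl

theorem dh_wrd {ψ : F2 k} {d : ℕ} (h : DepthGE k d ψ) (v : FreeMonoid ℕ) :
    ∀ j, j < v.length + d → hc j (dh ψ (wrd v)) = 0 := by
  induction v using FreeMonoid.recOn with
  | one =>
    intro j _
    rw [wrd_one, dh, dr_one, map_zero]
  | of_mul a v ih =>
    intro j hj
    rw [FreeMonoid.length_mul, FreeMonoid.length_of] at hj
    rw [wrd_mul, wrd_of, dh, dr_ι_mul, map_add, hc_mul_lt (p := d + 1) (q := v.length)
      (fun i hi => hc_fh h a hi) (fun i hi => hc_wrd v hi) (by omega), zero_add]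
    refine hc_mul_lt (p := 1) (q := v.length + d) (fun i hi => ?_) ih (by omega)
    rw [hc_ι, if_neg (by omega)]

theorem dh_hc {ψ : F2 k} {d p : ℕ} (h : DepthGE k d ψ) {b : BB k}
    (hb : ∀ j, j < p → hc j b = 0) : ∀ j, j < p + d → hc j (dh ψ b) = 0 := by
  intro j hj
  have : ((hc j) ∘ₗ (dh ψ)) b = 0 := by
    refine lin_zero _ fun v hv => ?_
    rw [LinearMap.comp_apply]
    apply dh_wrd h v
    have h1 : p ≤ v.length := by
      by_contra hlt
      apply hv
      have h2 := wc_hc v v.length b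
      rw [if_pos rfl, hb _ (by omega), map_zero] at h2
      exact h2.symm
    omega
  exact this

theorem Low_cq {ψ : F2 k} {d : ℕ} (h : DepthGE k d ψ) {e : ℕ} (he : 1 ≤ e) :
    Low (cq (dh ψ)) d e := by
  intro p m F hF
  refine ⟨fun j hj a => ?_, fun a ha => ?_⟩
  · rw [cq_coeff]
    exact dh_hc h (fun i hi => hF.1 i hi a) j hj
  · rw [cq_coeff]
    refine dh_hc (p := p + 1) h (fun i hi => ?_) (p + d) (by omega)
    by_cases hip : i < p
    · exact hF.1 i hip a
    · have : i = p := by omega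
      rw [this]; exact hF.2 a (by omega)

theorem Rs_rr {ψ : F2 k} {d : ℕ} (h : DepthGE k d ψ) : Rs (Fz k) d (rr ψ) := by
  intro n F hF
  rw [rr_apply]
  refine Submodule.sub_mem _ ?_ ?_
  · intro j hj a
    rw [cq_coeff]
    exact dh_hc h (fun i hi => hF i hi a) j hj
  · have := Fz_mul (Ph_mem h) hF
    rwa [add_comm] at this

/-- the closure property -/
structure PrO (D : LieDerivation k (F2 k) (F2 k)) (r : Module.End k (BB k)[X]) (h : F2 k) :
    Prop where
  cm : ∀ u F, r (rs u F) = rs u (r F) + rs (D u) F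
  gx0 : D (gx k) = 0
  gyh : D (gy k) = ⁅gy k, h⁆
  one : r 1 = -Ph h

theorem PrO.base {σ : F2 k} {D : LieDerivation k (F2 k) (F2 k)} (hD : IsIharaDer D σ) :
    PrO D (rr σ) σ where
  cm := by
    intro u
    refine free_ind (fun u => ∀ F, rr σ (rs u F) = rs u (rr σ F) + rs (D u) F)
      ?_ ?_ ?_ ?_ ?_ ?_ u
    · intro F
      simp [rs]
    · intro a b ha hb F
      have h1 : ∀ F, rs (a + b) F = rs a F + rs b F := fun F => by
        rw [rs, map_add]; rfl
      have h2 : ∀ F, rs (D (a + b)) F = rs (D a) F + rs (D b) F := fun F => by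
        rw [rs, map_add, map_add]; rfl
      rw [h1, h1, h2, map_add, ha, hb]; abel
    · intro c a ha F
      have h1 : ∀ F, rs (c • a) F = c • rs a F := fun F => by
        rw [rs, map_smul]; rfl
      have h2 : ∀ F, rs (D (c • a)) F = c • rs (D a) F := fun F => by
        rw [rs, map_smul, map_smul]; rfl
      rw [h1, h1, h2, map_smul, ha, smul_add]
    · intro a b ha hb F
      have h1 : ∀ (a b : F2 k) F, rs ⁅a, b⁆ F = rs a (rs b F) - rs b (rs a F) := fun a b F => by
        rw [rs, LieHom.map_lie, Ring.lie_def]; rfl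
      have h2 : rs (D ⁅a, b⁆) F = rs ⁅a, D b⁆ F - rs ⁅b, D a⁆ F := by
        rw [LieDerivation.apply_lie_eq_sub, rs, map_sub]; rfl
      rw [h2, h1, h1, h1, h1, map_sub, ha, hb, hb, ha, map_add, map_add]
      abel
    · intro F
      have h1 : ∀ F, rs (gx k) F = xh F := fun F => by rw [rs, subst_x]
      have h2 : D (gx k) = 0 := hD.1
      rw [h1, h1, h2, xh_apply, rr_xh, rs, map_zero, LinearMap.zero_apply, add_zero]; rfl
    · intro F
      have h1 : ∀ F, rs (gy k) F = yh F := fun F => by rw [rs, subst_y]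
      have h2 : D (gy k) = ⁅gy k, σ⁆ := hD.2
      have h3 : rs ⁅gy k, σ⁆ F = yh (rs σ F) - rs σ (yh F) := by
        rw [rs, LieHom.map_lie, Ring.lie_def, subst_y]; rfl
      rw [h1, h1, h2, h3, rr_yh]
  gx0 := hD.1
  gyh := hD.2
  one := rr_one σ

theorem PrO.zero : PrO (0 : LieDerivation k (F2 k) (F2 k)) (0 : Module.End k (BB k)[X]) 0 where
  cm := by intro u F; simp
  gx0 := rfl
  gyh := by simp
  one := by simp [Ph]

theorem PrO.add {D D' : LieDerivation k (F2 k) (F2 k)} {r r' : Module.End k (BB k)[X]}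
    {h h' : F2 k} (H : PrO D r h) (H' : PrO D' r' h') : PrO (D + D') (r + r') (h + h') where
  cm := by
    intro u F
    have h2 : rs ((D + D') u) F = rs (D u) F + rs (D' u) F := by
      rw [LieDerivation.add_apply, rs, map_add]; rfl
    rw [h2, LinearMap.add_apply, LinearMap.add_apply, H.cm, H'.cm, map_add]; abel
  gx0 := by rw [LieDerivation.add_apply, H.gx0, H'.gx0, add_zero]
  gyh := by rw [LieDerivation.add_apply, H.gyh, H'.gyh, lie_add]
  one := by rw [LinearMap.add_apply, H.one, H'.one, Ph_add, neg_add]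

theorem PrO.smul {D : LieDerivation k (F2 k) (F2 k)} {r : Module.End k (BB k)[X]}
    {h : F2 k} (c : k) (H : PrO D r h) : PrO (c • D) (c • r) (c • h) where
  cm := by
    intro u F
    have h2 : rs ((c • D) u) F = c • rs (D u) F := by
      rw [LieDerivation.smul_apply, rs, map_smul]; rfl
    rw [h2, LinearMap.smul_apply, LinearMap.smul_apply, H.cm, map_smul, smul_add]
  gx0 := by rw [LieDerivation.smul_apply, H.gx0, smul_zero]
  gyh := by rw [LieDerivation.smul_apply, H.gyh, lie_smul]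
  one := by rw [LinearMap.smul_apply, H.one, Ph_smul, smul_neg]

theorem PrO.lie {D1 D2 : LieDerivation k (F2 k) (F2 k)} {r1 r2 : Module.End k (BB k)[X]}
    {h1 h2 : F2 k} (H1 : PrO D1 r1 h1) (H2 : PrO D2 r2 h2) :
    PrO ⁅D1, D2⁆ (r1 * r2 - r2 * r1) (⁅h1, h2⁆ + D1 h2 - D2 h1) where
  cm := by
    intro u F
    have e1 : rs (⁅D1, D2⁆ u) F = rs (D1 (D2 u)) F - rs (D2 (D1 u)) F := by
      rw [LieDerivation.commutator_apply, rs, map_sub]; rfl
    have e2 : ∀ G, (r1 * r2 - r2 * r1) G = r1 (r2 G) - r2 (r1 G) := fun G => rfl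
    rw [e1, e2, e2, H1.cm, H2.cm, map_add, map_add, H1.cm, H2.cm, H1.cm, H2.cm, map_sub]
    abel
  gx0 := by
    rw [LieDerivation.commutator_apply, H1.gx0, H2.gx0, map_zero, map_zero, sub_zero]
  gyh := by
    rw [LieDerivation.commutator_apply, H1.gyh, H2.gyh, LieDerivation.apply_lie_eq_sub,
      LieDerivation.apply_lie_eq_sub, H1.gyh, H2.gyh, lie_sub, lie_add, leibniz_lie (gy k) h1 h2,
      ← lie_skew h2 ⁅gy k, h1⁆]
    abel
  one := by
    have e2 : ∀ G, (r1 * r2 - r2 * r1) G = r1 (r2 G) - r2 (r1 G) := fun G => rfl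
    have p1 : r1 (Ph h2) = -rs h2 (Ph h1) + Ph (D1 h2) := by
      have := H1.cm h2 1
      rw [H1.one, map_neg] at this
      exact this
    have p2 : r2 (Ph h1) = -rs h1 (Ph h2) + Ph (D2 h1) := by
      have := H2.cm h1 1
      rw [H2.one, map_neg] at this
      exact this
    have p3 : Ph ⁅h1, h2⁆ = rs h1 (Ph h2) - rs h2 (Ph h1) := by
      rw [Ph, LieHom.map_lie, Ring.lie_def]; rfl
    rw [e2, H1.one, H2.one, map_neg, map_neg, p1, p2, Ph_sub, Ph_add, p3]
    abel

theorem op_main {σ τ : F2 k} {D E : LieDerivation k (F2 k) (F2 k)} (hD : IsIharaDer D σ)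
    (hE : IsIharaDer E τ) (R : F2 k) :
    ∃ h : F2 k, PrO (FreeLieAlgebra.lift k ![D, E] R) (subst k (rr σ) (rr τ) R) h := by
  refine free_ind (fun R => ∃ h : F2 k,
    PrO (FreeLieAlgebra.lift k ![D, E] R) (subst k (rr σ) (rr τ) R) h) ?_ ?_ ?_ ?_ ?_ ?_ R
  · refine ⟨0, ?_⟩
    rw [map_zero, map_zero]
    exact PrO.zero
  · rintro a b ⟨h, H⟩ ⟨h', H'⟩
    refine ⟨h + h', ?_⟩
    rw [map_add, map_add]
    exact H.add H'
  · rintro c a ⟨h, H⟩
    refine ⟨c • h, ?_⟩
    rw [map_smul, map_smul]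
    exact H.smul c
  · rintro a b ⟨h, H⟩ ⟨h', H'⟩
    refine ⟨⁅h, h'⁆ + (FreeLieAlgebra.lift k ![D, E] a) h' -
      (FreeLieAlgebra.lift k ![D, E] b) h, ?_⟩
    rw [LieHom.map_lie, LieHom.map_lie, Ring.lie_def]
    exact H.lie H'
  · refine ⟨σ, ?_⟩
    have e1 : FreeLieAlgebra.lift k ![D, E] (gx k) = D := FreeLieAlgebra.lift_of_apply (R := k) ![D, E] 0
    rw [e1, subst_x]
    exact PrO.base hD
  · refine ⟨τ, ?_⟩
    have e1 : FreeLieAlgebra.lift k ![D, E] (gy k) = E := FreeLieAlgebra.lift_of_apply (R := k) ![D, E] 1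
    rw [e1, subst_y]
    exact PrO.base hE

theorem y_comm {h : F2 k} (hh : ⁅gy k, h⁆ = 0) : ∀ m, 1 ≤ m → (Ph h).coeff m = 0 := by
  intro m hm
  have h1 : rs ⁅gy k, h⁆ (1 : (BB k)[X]) = yh (Ph h) - rs h (yh 1) := by
    rw [rs, LieHom.map_lie, Ring.lie_def, subst_y]; rfl
  rw [hh, rs, map_zero, LinearMap.zero_apply, yh_apply, yh_apply, kap_one] at h1
  have h2 := rs_C h (ee k 0)
  have h3 : C (kap (Ph h)) = Ph h * C (ee k 0) := by
    rw [← h2]
    exact (sub_eq_zero.mp h1.symm)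
  have h4 := congrArg (fun F => F.coeff m) h3
  simp only [coeff_mul_C] at h4
  rw [coeff_C, if_neg (by omega)] at h4
  rcases mul_eq_zero.mp h4.symm with h5 | h5
  · exact h5
  · exact absurd h5 (FreeAlgebra.ι_ne_zero _)

end op

end Pool.Agent.J4H43.FR
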