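import Pool.Agent.J4H43.FR.T4r
import Pool.Agent.J4H43.FR.Bz

/-!
# The leading depth part of a solution of the pentagon has primitive coefficients
-/

set_option autoImplicit false

namespace Pool.Agent.J4H43.FR

open Polynomial Pool.Agent.Helper392_GT TensorProduct

universe u v w

attribute [local instance 100] LieRing.ofAssociativeRing

section prim

variable {k : Type u} [Field k]

noncomputable instance instNG : AddCommGroup ((BB k)[X] ⊗[k] (BB k)[X]) :=
  TensorProduct.addCommGroup

/-- monomials of degree `a` -/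
noncomputable def mo (a : ℕ) : BB k →ₗ[k] (BB k)[X] where
  toFun c := monomial a c
  map_add' c d := by rw [map_add]
  map_smul' r c := by rw [RingHom.id_apply, smul_monomial]

theorem mo_apply (a : ℕ) (c : BB k) : mo a c = monomial a c := rfl

/-- coefficients -/
noncomputable def lc (a : ℕ) : (BB k)[X] →ₗ[k] BB k where
  toFun F := F.coeff a
  map_add' F G := coeff_add F G a
  map_smul' r F := coeff_smul r F a

theorem lc_apply (a : ℕ) (F : (BB k)[X]) : lc a F = F.coeff a := rfl

theorem xh_mo (a : ℕ) : xh ∘ₗ mo a = (mo (a + 1) : BB k →ₗ[k] (BB k)[X]) := by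
  refine LinearMap.ext fun c => ?_
  rw [LinearMap.comp_apply, mo_apply, xh_apply, X_mul_monomial, mo_apply]

theorem yh_mo (a : ℕ) : yh ∘ₗ mo a = (mo 0 : BB k →ₗ[k] (BB k)[X]) ∘ₗ
    LinearMap.mulLeft k (ee k a) := by
  refine LinearMap.ext fun c => ?_
  rw [LinearMap.comp_apply, mo_apply, yh_apply, kap_monomial, LinearMap.comp_apply, mo_apply,
    monomial_zero_left]; rfl

theorem map_mulLeft_id (a : BB k) (t : BB k ⊗[k] BB k) :
    TensorProduct.map (LinearMap.mulLeft k a) LinearMap.id t = (a ⊗ₜ[k] (1 : BB k)) * t := by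
  induction t using TensorProduct.induction_on with
  | zero => rw [map_zero, mul_zero]
  | tmul u v => rw [TensorProduct.map_tmul, Algebra.TensorProduct.tmul_mul_tmul, one_mul]; rfl
  | add s t hs ht => rw [map_add, hs, ht, mul_add]

theorem map_id_mulLeft (a : BB k) (t : BB k ⊗[k] BB k) :
    TensorProduct.map LinearMap.id (LinearMap.mulLeft k a) t = ((1 : BB k) ⊗ₜ[k] a) * t := by
  induction t using TensorProduct.induction_on with
  | zero => rw [map_zero, mul_zero]
  | tmul u v => rw [TensorProduct.map_tmul, Algebra.TensorProduct.tmul_mul_tmul, one_mul]; rfl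
  | add s t hs ht => rw [map_add, hs, ht, mul_add]

/-- the first embedding of polynomials -/
noncomputable def j1 : (BB k)[X] →ₗ[k] ((BB k)[X] ⊗[k] (BB k)[X]) :=
  Polynomial.lsum (fun a => TensorProduct.map (mo a) (mo 0) ∘ₗ (De (k := k) (Y := ℕ)).toLinearMap)

/-- the second embedding of polynomials -/
noncomputable def j2 : (BB k)[X] →ₗ[k] ((BB k)[X] ⊗[k] (BB k)[X]) :=
  Polynomial.lsum (fun a => TensorProduct.map (mo 0) (mo a) ∘ₗ (De (k := k) (Y := ℕ)).toLinearMap)

theorem j1_monomial (a : ℕ) (c : BB k) : j1 (monomial a c) =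
    TensorProduct.map (mo a) (mo 0) (De c) := by
  rw [j1]
  change (monomial a c).sum _ = _
  rw [sum_monomial_index]
  · rfl
  · rw [map_zero]

theorem j2_monomial (a : ℕ) (c : BB k) : j2 (monomial a c) =
    TensorProduct.map (mo 0) (mo a) (De c) := by
  rw [j2]
  change (monomial a c).sum _ = _
  rw [sum_monomial_index]
  · rfl
  · rw [map_zero]

/-- the operators -/
noncomputable def z1 : Module.End k ((BB k)[X] ⊗[k] (BB k)[X]) :=
  TensorProduct.map xh LinearMap.id
noncomputable def z2 : Module.End k ((BB k)[X] ⊗[k] (BB k)[X]) :=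
  TensorProduct.map LinearMap.id xh
noncomputable def w1 : Module.End k ((BB k)[X] ⊗[k] (BB k)[X]) :=
  TensorProduct.map yh LinearMap.id
noncomputable def w2 : Module.End k ((BB k)[X] ⊗[k] (BB k)[X]) :=
  TensorProduct.map LinearMap.id yh

theorem ops_comm (S T : Module.End k (BB k)[X]) (v : (BB k)[X] ⊗[k] (BB k)[X]) :
    TensorProduct.map LinearMap.id S (TensorProduct.map T LinearMap.id v) =
      TensorProduct.map T LinearMap.id (TensorProduct.map LinearMap.id S v) := by
  induction v using TensorProduct.induction_on with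
  | zero => simp
  | tmul u v => simp
  | add s t hs ht => rw [map_add, map_add, hs, ht, map_add, map_add]

theorem j1_x (F : (BB k)[X]) : z1 (j1 F) = j1 (xh F) := by
  induction F using Polynomial.induction_on' with
  | add p q hp hq => rw [map_add, map_add, hp, hq, map_add, map_add]
  | monomial n a =>
    rw [xh_apply, X_mul_monomial, j1_monomial, j1_monomial, z1]
    generalize De a = t
    rw [TensorProduct.map_map, xh_mo, LinearMap.id_comp]

theorem j2_x (F : (BB k)[X]) : z2 (j2 F) = j2 (xh F) := by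
  induction F using Polynomial.induction_on' with
  | add p q hp hq => rw [map_add, map_add, hp, hq, map_add, map_add]
  | monomial n a =>
    rw [xh_apply, X_mul_monomial, j2_monomial, j2_monomial, z2]
    generalize De a = t
    rw [TensorProduct.map_map, xh_mo, LinearMap.id_comp]

theorem j_C (c : BB k) : j1 (C c) = j2 (C c) := by
  rw [← monomial_zero_left, j1_monomial, j2_monomial]

theorem j_y (F : (BB k)[X]) : w2 (j2 F) + w1 (j1 F) = j2 (yh F) := by
  induction F using Polynomial.induction_on' with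
  | add p q hp hq =>
    rw [map_add, map_add, map_add, map_add, map_add, map_add, ← hp, ← hq]; abel
  | monomial n a =>
    rw [j1_monomial, j2_monomial, yh_apply, kap_monomial, ← monomial_zero_left, j2_monomial,
      map_mul, De_ι, w1, w2, add_mul, map_add, ← map_mulLeft_id, ← map_id_mulLeft]
    generalize De a = t
    rw [TensorProduct.map_map, TensorProduct.map_map, TensorProduct.map_map,
      TensorProduct.map_map, yh_mo, LinearMap.id_comp, LinearMap.comp_id, add_comm]

/-- the filtration of the tensor product -/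
noncomputable def FN (k : Type u) [Field k] (n : ℕ) : Submodule k ((BB k)[X] ⊗[k] (BB k)[X]) :=
  Submodule.span k {t | ∃ i j p q, n ≤ i + j ∧ p ∈ Fz k i ∧ q ∈ Fz k j ∧ t = p ⊗ₜ[k] q}

theorem FN_anti : Antitone (FN k) := by
  intro n m h
  refine Submodule.span_mono ?_
  rintro t ⟨i, j, p, q, hij, hp, hq, rfl⟩
  exact ⟨i, j, p, q, le_trans h hij, hp, hq, rfl⟩

theorem Rs_map {r s : ℕ} {S T : Module.End k (BB k)[X]} (hS : Rs (Fz k) r S)
    (hT : Rs (Fz k) s T) : Rs (FN k) (r + s) (TensorProduct.map S T) := by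
  intro n t ht
  refine Submodule.span_induction (p := fun t _ => TensorProduct.map S T t ∈ FN k (n + (r + s)))
    ?_ ?_ ?_ ?_ ht
  · rintro t ⟨i, j, p, q, hij, hp, hq, rfl⟩
    rw [TensorProduct.map_tmul]
    exact Submodule.subset_span ⟨i + r, j + s, S p, T q, by omega, hS i p hp, hT j q hq, rfl⟩
  · rw [map_zero]; exact Submodule.zero_mem _
  · intro a b _ _ ha hb
    rw [map_add]; exact Submodule.add_mem _ ha hb
  · intro c a _ ha
    rw [map_smul]; exact Submodule.smul_mem _ c ha

theorem Rs_id : Rs (Fz k) 0 (LinearMap.id : Module.End k (BB k)[X]) := fun _ _ h => h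

theorem Rs_z1 : Rs (FN k) 0 (z1 (k := k)) := by
  have h := Rs_map (k := k) Rs_xh Rs_id
  exact h

theorem Rs_z1_neg : Rs (FN k) 0 (-(z1 (k := k))) := by
  intro n m hm
  rw [LinearMap.neg_apply]
  exact Submodule.neg_mem _ (Rs_z1 n m hm)

theorem Rs_z2 : Rs (FN k) 0 (z2 (k := k)) := by
  have h := Rs_map (k := k) Rs_id Rs_xh
  exact h

theorem Rs_w1 : Rs (FN k) 1 (w1 (k := k)) := by
  have h := Rs_map (k := k) Rs_yh Rs_id
  exact h

theorem Rs_w2 : Rs (FN k) 1 (w2 (k := k)) := by
  have h := Rs_map (k := k) Rs_id Rs_yh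
  exact h

theorem FN_read {n : ℕ} {t : (BB k)[X] ⊗[k] (BB k)[X]} (ht : t ∈ FN k n) {i j : ℕ}
    (hij : i + j < n) (a b : ℕ) :
    TensorProduct.map (hc i) (hc j) (TensorProduct.map (lc a) (lc b) t) = 0 := by
  refine Submodule.span_induction
    (p := fun t _ => TensorProduct.map (hc i) (hc j) (TensorProduct.map (lc a) (lc b) t) = 0)
    ?_ ?_ ?_ ?_ ht
  · rintro t ⟨i', j', p, q, hij', hp, hq, rfl⟩
    rw [TensorProduct.map_tmul, TensorProduct.map_tmul, lc_apply, lc_apply]
    by_cases h : i < i'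
    · rw [hp i h a, TensorProduct.zero_tmul]
    · rw [hq j (by omega) b, TensorProduct.tmul_zero]
  · rw [map_zero, map_zero]
  · intro a b _ _ ha hb
    rw [map_add, map_add, ha, hb, add_zero]
  · intro c a _ ha
    rw [map_smul, map_smul, ha, smul_zero]

/-- the tensors with scalar second factors -/
noncomputable def VN (k : Type u) [Field k] : Submodule k ((BB k)[X] ⊗[k] (BB k)[X]) :=
  Submodule.span k {t | ∃ (p : (BB k)[X]) (n : ℕ), t = p ⊗ₜ[k] (X ^ n : (BB k)[X])}

theorem VN_stab {T : Module.End k ((BB k)[X] ⊗[k] (BB k)[X])}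
    (h : ∀ (p : (BB k)[X]) (n : ℕ), T (p ⊗ₜ[k] (X ^ n : (BB k)[X])) ∈ VN k) :
    ∀ t ∈ VN k, T t ∈ VN k := by
  intro t ht
  refine Submodule.span_induction (p := fun t _ => T t ∈ VN k) ?_ ?_ ?_ ?_ ht
  · rintro t ⟨p, n, rfl⟩
    exact h p n
  · rw [map_zero]; exact Submodule.zero_mem _
  · intro a b _ _ ha hb
    rw [map_add]; exact Submodule.add_mem _ ha hb
  · intro c a _ ha
    rw [map_smul]; exact Submodule.smul_mem _ c ha

theorem VN_read {t : (BB k)[X] ⊗[k] (BB k)[X]} (ht : t ∈ VN k) (a b : ℕ) :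
    ∃ c : BB k, TensorProduct.map (lc a) (lc b) t = c ⊗ₜ[k] (1 : BB k) := by
  refine Submodule.span_induction
    (p := fun t _ => ∃ c : BB k, TensorProduct.map (lc a) (lc b) t = c ⊗ₜ[k] (1 : BB k))
    ?_ ?_ ?_ ?_ ht
  · rintro t ⟨p, n, rfl⟩
    rw [TensorProduct.map_tmul, lc_apply, lc_apply, coeff_X_pow]
    split_ifs
    · exact ⟨_, rfl⟩
    · exact ⟨0, by rw [TensorProduct.tmul_zero, TensorProduct.zero_tmul]⟩
  · exact ⟨0, by rw [map_zero, TensorProduct.zero_tmul]⟩
  · rintro s t _ _ ⟨c, hc⟩ ⟨d, hd⟩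
    exact ⟨c + d, by rw [map_add, hc, hd, TensorProduct.add_tmul]⟩
  · rintro r s _ ⟨c, hc⟩
    exact ⟨r • c, by rw [map_smul, hc, TensorProduct.smul_tmul']⟩

theorem lc_mo (a b : ℕ) (c : BB k) : lc a (mo b c) = if b = a then c else 0 := by
  rw [lc_apply, mo_apply, coeff_monomial]

theorem lc_mo_same (a : ℕ) : lc a ∘ₗ mo a = (LinearMap.id : BB k →ₗ[k] BB k) := by
  refine LinearMap.ext fun c => ?_
  rw [LinearMap.comp_apply, lc_mo, if_pos rfl]; rfl

theorem lc_mo_ne {a b : ℕ} (h : b ≠ a) : lc a ∘ₗ mo b = (0 : BB k →ₗ[k] BB k) := by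
  refine LinearMap.ext fun c => ?_
  rw [LinearMap.comp_apply, lc_mo, if_neg h]; rfl

theorem j2_read (F : (BB k)[X]) (a : ℕ) :
    TensorProduct.map (lc 0) (lc a) (j2 F) = De (F.coeff a) := by
  induction F using Polynomial.induction_on' with
  | add p q hp hq => rw [map_add, map_add, hp, hq, coeff_add, map_add]
  | monomial n c =>
    rw [j2_monomial, coeff_monomial]
    split_ifs with h
    · subst h
      generalize De c = t
      rw [TensorProduct.map_map, lc_mo_same, lc_mo_same, TensorProduct.map_id]; rfl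
    · rw [map_zero]
      generalize De c = t
      rw [TensorProduct.map_map, lc_mo_ne h, TensorProduct.map_zero_right]; rfl

end prim

end Pool.Agent.J4H43.FR
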