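import Pool.Agent.J4H43.FR.PrimA

/-!
# The leading depth part of a solution of the pentagon has primitive coefficients
-/

set_option autoImplicit false

namespace Pool.Agent.J4H43.FR

open Polynomial Pool.Agent.Helper392_GT TensorProduct

universe u v w

attribute [local instance 100] LieRing.ofAssociativeRing

section prim

variable {k : Type u} [Field k]

/-- the key equation -/
theorem prim_eq {ψ : F2 k} (hp : Pentagon k ψ) (hψ : ψ ∈ D1 k) {d : ℕ} (hd : DepthGE k d ψ)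
    (a : ℕ) : ∃ c : BB k, ∀ i j, i + j ≤ d →
      TensorProduct.map (hc i) (hc j) (De ((Ph ψ).coeff a)) =
        hc i (1 : BB k) ⊗ₜ[k] hc j ((Ph ψ).coeff a) + hc i c ⊗ₜ[k] hc j (1 : BB k) := by
  obtain ⟨f, hf, g, hg, he⟩ := key_eq (x1 := -(z1 (k := k))) (x2 := z2) (y1 := w1) (y2 := w2)
    (F := FN k) (v0 := (1 : (BB k)[X]) ⊗ₜ[k] (1 : (BB k)[X])) (V := VN k)
    (by
      intro v
      rw [LinearMap.neg_apply, LinearMap.neg_apply, map_neg, z1, z2, ops_comm])
    (by intro v; rw [w1, w2, ops_comm])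
    (by
      intro v
      rw [LinearMap.neg_apply, LinearMap.neg_apply, map_neg, z1, w2, ops_comm])
    (by intro v; rw [w1, z2, ops_comm])
    hp hψ hd FN_anti
    Rs_z1_neg Rs_z2 Rs_w1 Rs_w2
    (Submodule.subset_span ⟨0, 0, 1, 1, le_rfl, Fz_zero _, Fz_zero _, rfl⟩)
    (Submodule.subset_span ⟨1, 0, by rw [pow_zero]⟩)
    (VN_stab (by
      intro p n
      rw [LinearMap.neg_apply, z1, TensorProduct.map_tmul]
      exact Submodule.neg_mem _ (Submodule.subset_span ⟨_, n, rfl⟩)))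
    (VN_stab (by
      intro p n
      rw [z2, TensorProduct.map_tmul, xh_apply, ← pow_succ']
      exact Submodule.subset_span ⟨_, n + 1, rfl⟩))
    (VN_stab (by
      intro p n
      rw [w1, TensorProduct.map_tmul]
      exact Submodule.subset_span ⟨_, n, rfl⟩))
  -- the left side
  let J : (BB k)[X] →ₗ[k] (((BB k)[X] ⊗[k] (BB k)[X]) × ((BB k)[X] ⊗[k] (BB k)[X]) ×
      ((BB k)[X] ⊗[k] (BB k)[X])) :=
    (0 : (BB k)[X] →ₗ[k] ((BB k)[X] ⊗[k] (BB k)[X])).prod (j2.prod (-j1))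
  have hJ : ∀ F, J F = (0, j2 F, -j1 F) := fun F => rfl
  have hJ1 : J 1 = (0, (1 : (BB k)[X]) ⊗ₜ[k] (1 : (BB k)[X]),
      -((1 : (BB k)[X]) ⊗ₜ[k] (1 : (BB k)[X]))) := by
    have h1 : j2 (1 : (BB k)[X]) = (1 : (BB k)[X]) ⊗ₜ[k] (1 : (BB k)[X]) := by
      have e : (1 : (BB k)[X]) = monomial 0 1 := by rw [monomial_zero_left, C_1]
      rw [e, j2_monomial, map_one, Algebra.TensorProduct.one_def, TensorProduct.map_tmul]; rfl
    have h2 : j1 (1 : (BB k)[X]) = (1 : (BB k)[X]) ⊗ₜ[k] (1 : (BB k)[X]) := by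
      rw [← h1, ← C_1, j_C]
    rw [hJ, h1, h2]
  have hL := inter J (A := Y0 (-(z1 (k := k))) z2 w2) (B := Y3 w1 w2) (A' := xh) (B' := yh)
    (by
      intro F
      rw [hJ, Y0_apply, hJ]
      refine Prod.ext (map_zero _) (Prod.ext (j2_x F) ?_)
      change w2 0 - (-z1) (-j1 F) = -j1 (xh F)
      rw [map_zero, LinearMap.neg_apply, map_neg, neg_neg, j1_x, zero_sub])
    (by
      intro F
      rw [hJ, Y3_apply, hJ]
      have h1 : w2 (j2 F) - w1 (-j1 F) = j2 (yh F) := by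
        rw [map_neg, sub_neg_eq_add, j_y]
      refine Prod.ext rfl (Prod.ext h1 ?_)
      change -(w2 (j2 F) - w1 (-j1 F)) = -j1 (yh F)
      rw [h1, yh_apply, j_C]) ψ 1
  rw [hJ1] at hL
  rw [hL] at he
  -- the right side
  let I : (BB k)[X] →ₗ[k] ((BB k)[X] ⊗[k] (BB k)[X]) := TensorProduct.mk k _ _ 1
  have hI : ∀ F, I F = (1 : (BB k)[X]) ⊗ₜ[k] F := fun F => rfl
  have hR := inter I (A := z2) (B := w2) (A' := xh) (B' := yh)
    (by intro F; rw [hI, hI, z2, TensorProduct.map_tmul]; rfl)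
    (by intro F; rw [hI, hI, w2, TensorProduct.map_tmul]; rfl) ψ 1
  rw [hI, hI] at hR
  rw [hR] at he
  have he2 : j2 (Ph ψ) = (1 : (BB k)[X]) ⊗ₜ[k] Ph ψ + g + f := he
  obtain ⟨c, hc'⟩ := VN_read hg 0 a
  refine ⟨c, fun i j hij => ?_⟩
  have h3 := congrArg (fun t => TensorProduct.map (hc i) (hc j) (TensorProduct.map (lc 0) (lc a) t))
    he2
  simp only [map_add] at h3
  rw [j2_read, hc', FN_read hf (by omega), add_zero, TensorProduct.map_tmul,
    TensorProduct.map_tmul, TensorProduct.map_tmul, lc_apply, lc_apply, coeff_one_zero] at h3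
  exact h3

end prim

end Pool.Agent.J4H43.FR
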