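import Pool.Agent.J4H43.FR.FB

/-!
# Commuting homogeneous primitive elements of a free associative algebra are proportional
-/

set_option autoImplicit false

namespace Pool.Agent.J4H43.FR

open TensorProduct

universe u v

section primc

variable {k : Type u} [Field k] {Y : Type v}

/-- the first factor of the coproduct paired with a functional -/
noncomputable def dphi (φ : FreeAlgebra k Y →ₗ[k] k) : FreeAlgebra k Y →ₗ[k] FreeAlgebra k Y :=
  (TensorProduct.lid k (FreeAlgebra k Y)).toLinearMap ∘ₗ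
    (LinearMap.rTensor (FreeAlgebra k Y) φ) ∘ₗ (De : FreeAlgebra k Y →ₐ[k] _).toLinearMap

/-- the pairing of the first factor -/
noncomputable def pph (φ : FreeAlgebra k Y →ₗ[k] k) :
    (FreeAlgebra k Y ⊗[k] FreeAlgebra k Y) →ₗ[k] FreeAlgebra k Y :=
  (TensorProduct.lid k (FreeAlgebra k Y)).toLinearMap ∘ₗ
    (LinearMap.rTensor (FreeAlgebra k Y) φ)

theorem pph_tmul (φ : FreeAlgebra k Y →ₗ[k] k) (x y : FreeAlgebra k Y) :
    pph φ (x ⊗ₜ[k] y) = φ x • y := by
  simp [pph]

theorem dphi_apply (φ : FreeAlgebra k Y →ₗ[k] k) (u : FreeAlgebra k Y) :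
    dphi φ u = pph φ (De u) := rfl

theorem pph_mul_right (φ : FreeAlgebra k Y →ₗ[k] k) (x : FreeAlgebra k Y ⊗[k] FreeAlgebra k Y)
    (a : FreeAlgebra k Y) : pph φ (x * ((1 : FreeAlgebra k Y) ⊗ₜ[k] a)) = pph φ x * a := by
  induction x using TensorProduct.induction_on with
  | zero => simp
  | tmul x y => rw [Algebra.TensorProduct.tmul_mul_tmul, pph_tmul, pph_tmul, mul_one, smul_mul_assoc]
  | add x y hx hy => rw [add_mul, map_add, map_add, hx, hy, add_mul]

theorem pph_mul_left (φ : FreeAlgebra k Y →ₗ[k] k) (x : FreeAlgebra k Y ⊗[k] FreeAlgebra k Y)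
    (a : FreeAlgebra k Y) (h : ∀ u, φ (u * a) = eps u) :
    pph φ (x * (a ⊗ₜ[k] (1 : FreeAlgebra k Y))) = pph (eps : FreeAlgebra k Y →ₐ[k] k).toLinearMap x := by
  induction x using TensorProduct.induction_on with
  | zero => simp
  | tmul x y =>
    rw [Algebra.TensorProduct.tmul_mul_tmul, pph_tmul, pph_tmul, mul_one, h]; rfl
  | add x y hx hy => rw [add_mul, map_add, map_add, hx, hy]

theorem pph_eps_De (u : FreeAlgebra k Y) :
    pph (eps : FreeAlgebra k Y →ₐ[k] k).toLinearMap (De u) = u := by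
  have hm : ∀ (x : FreeAlgebra k Y ⊗[k] FreeAlgebra k Y) (a : FreeAlgebra k Y),
      pph (eps : FreeAlgebra k Y →ₐ[k] k).toLinearMap ((a ⊗ₜ[k] (1 : FreeAlgebra k Y)) * x) =
        eps a • pph (eps : FreeAlgebra k Y →ₐ[k] k).toLinearMap x := by
    intro x a
    induction x using TensorProduct.induction_on with
    | zero => simp
    | tmul x y =>
      rw [Algebra.TensorProduct.tmul_mul_tmul, pph_tmul, pph_tmul, one_mul, smul_smul]
      congr 1
      exact map_mul eps a x
    | add x y hx hy => rw [mul_add, map_add, map_add, hx, hy, smul_add]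
  have hm2 : ∀ (x : FreeAlgebra k Y ⊗[k] FreeAlgebra k Y) (a : FreeAlgebra k Y),
      pph (eps : FreeAlgebra k Y →ₐ[k] k).toLinearMap (((1 : FreeAlgebra k Y) ⊗ₜ[k] a) * x) =
        a * pph (eps : FreeAlgebra k Y →ₐ[k] k).toLinearMap x := by
    intro x a
    induction x using TensorProduct.induction_on with
    | zero => simp
    | tmul x y =>
      rw [Algebra.TensorProduct.tmul_mul_tmul, pph_tmul, pph_tmul, one_mul, mul_smul_comm]
    | add x y hx hy => rw [mul_add, map_add, map_add, hx, hy, mul_add]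
  refine left_ind (fun u => pph (eps : FreeAlgebra k Y →ₐ[k] k).toLinearMap (De u) = u) ?_ ?_ ?_ ?_ u
  · rw [map_one, Algebra.TensorProduct.one_def, pph_tmul]
    simp
  · intro a b ha hb
    rw [map_add, map_add, ha, hb]
  · intro c a ha
    rw [map_smul, map_smul, ha]
  · intro y a ha
    rw [map_mul, De_ι, add_mul, map_add, hm, hm2, ha, eps_ι, zero_smul, zero_add]

theorem dphi_mul {φ : FreeAlgebra k Y →ₗ[k] k} {a : FreeAlgebra k Y} (pa : Prm a)
    (h : ∀ u, φ (u * a) = eps u) (u : FreeAlgebra k Y) :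
    dphi φ (u * a) = dphi φ u * a + u := by
  have hpa : De a = a ⊗ₜ[k] 1 + 1 ⊗ₜ[k] a := pa
  rw [dphi_apply, map_mul, hpa, mul_add, map_add, pph_mul_left φ _ a h, pph_eps_De,
    pph_mul_right, dphi_apply, add_comm]

theorem dphi_mul_pow {φ : FreeAlgebra k Y →ₗ[k] k} {a : FreeAlgebra k Y} (pa : Prm a)
    (h : ∀ u, φ (u * a) = eps u) (u : FreeAlgebra k Y) (n : ℕ) :
    dphi φ (u * a ^ (n + 1)) = dphi φ u * a ^ (n + 1) + ((n : k) + 1) • (u * a ^ n) := by
  induction n with
  | zero => rw [pow_one, dphi_mul pa h, pow_zero, mul_one]; simp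
  | succ n ih =>
    rw [pow_succ, ← mul_assoc, dphi_mul pa h, ih, add_mul, smul_mul_assoc, mul_assoc,
      mul_assoc, ← pow_succ, ← pow_succ]
    have : (((n + 1 : ℕ) : k) + 1) • (u * a ^ (n + 1)) =
        ((n : k) + 1) • (u * a ^ (n + 1)) + (u * a ^ (n + 1)) := by
      rw [add_smul, one_smul]
      push_cast
      rfl
    rw [this, ← add_assoc]

theorem exists_phi {p : ℕ} {a : FreeAlgebra k Y} (ha : Hm p a) (ha0 : a ≠ 0) :
    ∃ φ : FreeAlgebra k Y →ₗ[k] k, (∀ u, φ (u * a) = eps u) ∧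
      (∀ b, hc p b = 0 → φ b = 0) := by
  obtain ⟨ψ, hψ⟩ := Module.Projective.exists_dual_ne_zero k ha0
  refine ⟨((ψ a)⁻¹ • ψ) ∘ₗ hc p, fun u => ?_, fun b hb => ?_⟩
  · have h1 : hc p (u * a) = eps u • a := by
      have := hc_mul_hm ha 0 u
      rw [zero_add] at this
      rw [this, hc_zero_eq, Algebra.smul_def]
    rw [LinearMap.comp_apply, h1, LinearMap.smul_apply, map_smul, smul_eq_mul, smul_eq_mul,
      mul_comm (eps u), ← mul_assoc, inv_mul_cancel₀ hψ, one_mul]
  · rw [LinearMap.comp_apply, hb, map_zero]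

theorem prim_comm_lt [CharZero k] {p q : ℕ} {a b : FreeAlgebra k Y} (hp : 1 ≤ p) (hpq : p < q)
    (ha : Hm p a) (hb : Hm q b) (pa : Prm a) (pb : Prm b) (ha0 : a ≠ 0) (hb0 : b ≠ 0)
    (hab : a * b = b * a) : False := by
  obtain ⟨φ, hφ, hφ0⟩ := exists_phi ha ha0
  have hpb : De b = b ⊗ₜ[k] 1 + 1 ⊗ₜ[k] b := pb
  have hdb : dphi φ b = 0 := by
    rw [dphi_apply, hpb, map_add, pph_tmul, pph_tmul, hφ0 b (hb.ne (by omega)), hφ0 1, zero_smul,
      zero_smul, add_zero]
    rw [hc_one, if_neg (by omega)]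
  have key : ∀ n : ℕ, ∃ u, b = u * a ^ n := by
    intro n
    induction n with
    | zero => exact ⟨b, by rw [pow_zero, mul_one]⟩
    | succ n ih =>
      obtain ⟨u, hu⟩ := ih
      cases n with
      | zero =>
        obtain ⟨e, _, he⟩ := div_gen hpq.le ha hb (c := b) (d := a) ha0 hab.symm
        exact ⟨e, by rw [he]; simp⟩
      | succ n =>
        have h1 := dphi_mul_pow pa hφ u n
        rw [← hu, hdb] at h1
        have h2 : (dphi φ u * a + ((n : k) + 1) • u) * a ^ n = 0 := by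
          rw [add_mul, mul_assoc, ← pow_succ', smul_mul_assoc]
          exact h1.symm
        have h3 : dphi φ u * a + ((n : k) + 1) • u = 0 := by
          rcases mul_eq_zero.mp h2 with h | h
          · exact h
          · exact absurd h (pow_ne_zero n ha0)
        have hn : ((n : k) + 1) ≠ 0 := by
          have : ((n + 1 : ℕ) : k) ≠ 0 := Nat.cast_ne_zero.mpr (by omega)
          push_cast at this
          exact this
        refine ⟨(-((n : k) + 1)⁻¹) • dphi φ u, ?_⟩
        have h4 : u = ((-((n : k) + 1)⁻¹) • dphi φ u) * a := by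
          have h5 : ((n : k) + 1) • u = -(dphi φ u * a) := eq_neg_of_add_eq_zero_right h3
          rw [smul_mul_assoc, neg_smul, ← smul_neg, ← h5, smul_smul, inv_mul_cancel₀ hn, one_smul]
        rw [pow_succ', ← mul_assoc, ← h4]
        exact hu
  obtain ⟨u, hu⟩ := key (q + 1)
  have h1 : hc q (u * a ^ (q + 1)) = 0 := by
    apply hc_mul_hm_lt (ha.pow (q + 1))
    nlinarith
  rw [← hu, hb.self] at h1
  exact hb0 h1

/-- commuting homogeneous primitive elements are proportional -/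
theorem prim_comm [CharZero k] {p q : ℕ} {a b : FreeAlgebra k Y} (hp : 1 ≤ p) (hq : 1 ≤ q)
    (ha : Hm p a) (hb : Hm q b) (pa : Prm a) (pb : Prm b) (ha0 : a ≠ 0) (hb0 : b ≠ 0)
    (hab : a * b = b * a) : p = q ∧ ∃ c : k, b = c • a := by
  rcases lt_trichotomy p q with h | h | h
  · exact (prim_comm_lt hp h ha hb pa pb ha0 hb0 hab).elim
  · subst h
    refine ⟨rfl, ?_⟩
    obtain ⟨e, he, hbe⟩ := div_gen le_rfl ha hb (c := b) (d := a) ha0 hab.symm
    rw [Nat.sub_self] at he
    refine ⟨eps e, ?_⟩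
    rw [Algebra.smul_def, ← hc_zero_eq, he.self]
    exact hbe
  · exact (prim_comm_lt hq h hb ha pb pa hb0 ha0 hab.symm).elim

end primc

end Pool.Agent.J4H43.FR
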