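import Pool.Agent.J4H43.FR.Bz
import Pool.Agent.J4H43.FR.PrimT

/-!
# Symbols of operators on `B[z]`
-/

set_option autoImplicit false

namespace Pool.Agent.J4H43.FR

open Polynomial Pool.Agent.Helper392_GT

universe u v w

section sym

variable {k : Type u} [Field k]

/-- length at least `p`, with `z`-degree at most `m` in length `p` -/
def Sy (p m : ℕ) (F : (BB k)[X]) : Prop :=
  (∀ j, j < p → ∀ a, hc j (F.coeff a) = 0) ∧ ∀ a, m < a → hc p (F.coeff a) = 0

theorem Sy_mul {p m q n : ℕ} {F G : (BB k)[X]} (hF : Sy p m F) (hG : Sy q n G) :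
    Sy (p + q) (m + n) (F * G) ∧
      hc (p + q) ((F * G).coeff (m + n)) = hc p (F.coeff m) * hc q (G.coeff n) := by
  refine ⟨⟨fun j hj a => ?_, fun a ha => ?_⟩, ?_⟩
  · rw [coeff_mul, map_sum]
    exact Finset.sum_eq_zero fun x _ => hc_mul_lt (fun i hi => hF.1 i hi _)
      (fun i hi => hG.1 i hi _) hj
  · rw [coeff_mul, map_sum]
    refine Finset.sum_eq_zero fun x hx => ?_
    rw [Finset.HasAntidiagonal.mem_antidiagonal] at hx
    rw [hc_mul_eq (fun i hi => hF.1 i hi _) (fun i hi => hG.1 i hi _)]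
    by_cases h : m < x.1
    · rw [hF.2 _ h, zero_mul]
    · rw [hG.2 _ (by omega), mul_zero]
  · rw [coeff_mul, map_sum, Finset.sum_eq_single (m, n)]
    · rw [hc_mul_eq (fun i hi => hF.1 i hi _) (fun i hi => hG.1 i hi _)]
    · intro x hx hne
      rw [Finset.HasAntidiagonal.mem_antidiagonal] at hx
      rw [hc_mul_eq (fun i hi => hF.1 i hi _) (fun i hi => hG.1 i hi _)]
      by_cases h : m < x.1
      · rw [hF.2 _ h, zero_mul]
      · by_cases h2 : n < x.2
        · rw [hG.2 _ h2, mul_zero]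
        · exfalso
          apply hne
          have h3 : x.1 = m := by omega
          have h4 : x.2 = n := by omega
          rw [← h3, ← h4]
    · intro h
      exact absurd (Finset.HasAntidiagonal.mem_antidiagonal.mpr
        (show (m, n).1 + (m, n).2 = m + n from rfl)) h

/-- `P` has the symbol `h` in bidegree `(d, e)` -/
def HasSym (P : Module.End k (BB k)[X]) (d e : ℕ) (h : BB k) : Prop :=
  ∀ p m F, Sy p m F → Sy (p + d) (m + e) (P F) ∧
    hc (p + d) ((P F).coeff (m + e)) = h * hc p (F.coeff m)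

/-- weights of words -/
def wg (α β : ℕ) (w : FreeMonoid (Fin 2)) : ℕ :=
  (FreeMonoid.toList w).count 0 * α + (FreeMonoid.toList w).count 1 * β

theorem wg_one (α β : ℕ) : wg α β 1 = 0 := by
  simp [wg, FreeMonoid.toList_one]

theorem wg_zero_mul (α β : ℕ) (w : FreeMonoid (Fin 2)) :
    wg α β (FreeMonoid.of 0 * w) = wg α β w + α := by
  rw [wg, wg, FreeMonoid.toList_of_mul]
  simp only [List.count_cons_self, List.count_cons_of_ne (show (0 : Fin 2) ≠ 1 by decide)]
  ring

theorem wg_one_mul (α β : ℕ) (w : FreeMonoid (Fin 2)) :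
    wg α β (FreeMonoid.of 1 * w) = wg α β w + β := by
  rw [wg, wg, FreeMonoid.toList_of_mul]
  simp only [List.count_cons_self, List.count_cons_of_ne (show (1 : Fin 2) ≠ 0 by decide)]
  ring

theorem Sy_one : Sy 0 0 (1 : (BB k)[X]) := by
  refine ⟨fun j hj => absurd hj (Nat.not_lt_zero j), fun a ha => ?_⟩
  rw [coeff_one, if_neg (by omega), map_zero]

theorem sym_word {P Q : Module.End k (BB k)[X]} {d e d' e' : ℕ} {h h' : BB k}
    (hP : HasSym P d e h) (hQ : HasSym Q d' e' h') (w : FreeMonoid (Fin 2)) :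
    Sy (wg d d' w) (wg e e' w) (FreeMonoid.lift ![P, Q] w 1) ∧
      hc (wg d d' w) ((FreeMonoid.lift ![P, Q] w 1).coeff (wg e e' w)) =
        FreeMonoid.lift ![h, h'] w := by
  induction w using FreeMonoid.recOn with
  | one =>
    rw [wg_one, wg_one, MonoidHom.map_one, MonoidHom.map_one, Module.End.one_apply]
    refine ⟨Sy_one, ?_⟩
    rw [coeff_one_zero, hc_one, if_pos rfl]
  | of_mul i w ih =>
    rw [word_zero, word_zero, Module.End.mul_apply]
    fin_cases i
    · change Sy (wg d d' (FreeMonoid.of 0 * w)) (wg e e' (FreeMonoid.of 0 * w))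
        (P (FreeMonoid.lift ![P, Q] w 1)) ∧ hc (wg d d' (FreeMonoid.of 0 * w))
        ((P (FreeMonoid.lift ![P, Q] w 1)).coeff (wg e e' (FreeMonoid.of 0 * w))) =
          h * FreeMonoid.lift ![h, h'] w
      rw [wg_zero_mul, wg_zero_mul, ← ih.2]
      exact hP _ _ _ ih.1
    · change Sy (wg d d' (FreeMonoid.of 1 * w)) (wg e e' (FreeMonoid.of 1 * w))
        (Q (FreeMonoid.lift ![P, Q] w 1)) ∧ hc (wg d d' (FreeMonoid.of 1 * w))
        ((Q (FreeMonoid.lift ![P, Q] w 1)).coeff (wg e e' (FreeMonoid.of 1 * w))) =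
          h' * FreeMonoid.lift ![h, h'] w
      rw [wg_one_mul, wg_one_mul, ← ih.2]
      exact hQ _ _ _ ih.1

/-- scalar polynomials -/
noncomputable def emb (r : k[X]) : (BB k)[X] := r.map (algebraMap k (BB k))

theorem emb_coeff (r : k[X]) (i : ℕ) : (emb r).coeff i = algebraMap k (BB k) (r.coeff i) := by
  rw [emb, coeff_map]

theorem hc_emb_mul (r : k[X]) (F : (BB k)[X]) (p m : ℕ) : hc p ((emb r * F).coeff m) =
    ∑ x ∈ Finset.HasAntidiagonal.antidiagonal m, r.coeff x.1 • hc p (F.coeff x.2) := by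
  rw [coeff_mul, map_sum]
  refine Finset.sum_congr rfl fun x _ => ?_
  rw [emb_coeff, ← Algebra.smul_def, map_smul]

theorem emb_low {r : k[X]} {F : (BB k)[X]} {p n j : ℕ} (hF : Sy p n F) (hj : j < p) (m : ℕ) :
    hc j ((emb r * F).coeff m) = 0 := by
  rw [hc_emb_mul]
  exact Finset.sum_eq_zero fun x _ => by rw [hF.1 j hj, smul_zero]

theorem emb_read {r : k[X]} {F : (BB k)[X]} {p n m : ℕ} (hF : Sy p n F)
    (hm : r.natDegree + n ≤ m) :
    hc p ((emb r * F).coeff m) = r.coeff (m - n) • hc p (F.coeff n) := by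
  rw [hc_emb_mul, Finset.sum_eq_single (m - n, n)]
  · intro x hx hne
    rw [Finset.HasAntidiagonal.mem_antidiagonal] at hx
    by_cases h : n < x.2
    · rw [hF.2 _ h, smul_zero]
    · rw [coeff_eq_zero_of_natDegree_lt, zero_smul]
      by_contra hlt
      apply hne
      have h1 : x.2 = n := by omega
      have h2 : x.1 = m - n := by omega
      exact Prod.ext h2 h1
  · intro h
    exact absurd (Finset.HasAntidiagonal.mem_antidiagonal.mpr
      (show (m - n, n).1 + (m - n, n).2 = m by simp only; omega)) h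

theorem lift_wrd {A : Type v} [Semiring A] [Algebra k A] (f : Fin 2 → A) (w : FreeMonoid (Fin 2)) :
    FreeAlgebra.lift k f (wrd w) = FreeMonoid.lift f w := by
  induction w using FreeMonoid.recOn with
  | one => rw [wrd_one, map_one, map_one]
  | of_mul i w ih => rw [wrd_mul, map_mul, ih, wrd_of, FreeAlgebra.lift_ι_apply, word_zero]

/-- nonvanishing of values of polynomials in two operators with free symbols -/
theorem lemF {P Q : Module.End k (BB k)[X]} {d e d' e' : ℕ} {h h' : BB k}
    (hP : HasSym P d e h) (hQ : HasSym Q d' e' h')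
    (hfree : ∀ G : FreeAlgebra k (Fin 2), FreeAlgebra.lift k ![h, h'] G = 0 → G = 0)
    (q : FreeMonoid (Fin 2) →₀ k[X]) (hq : q ≠ 0) :
    ∃ u ∈ q.support, hc (wg d d' u)
      ((q.sum fun w r => emb r * FreeMonoid.lift ![P, Q] w 1).coeff
        ((q u).natDegree + wg e e' u)) ≠ 0 := by
  classical
  obtain ⟨u0, hu0, hmin⟩ := Finset.exists_min_image q.support (fun w => wg d d' w)
    (Finsupp.support_nonempty_iff.mpr hq)
  obtain ⟨u1, hu1, hmax⟩ := Finset.exists_max_image
    (q.support.filter fun w => wg d d' w = wg d d' u0) (fun w => (q w).natDegree + wg e e' w)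
    ⟨u0, Finset.mem_filter.mpr ⟨hu0, rfl⟩⟩
  rw [Finset.mem_filter] at hu1
  refine ⟨u1, hu1.1, ?_⟩
  rw [hu1.2]
  set p := wg d d' u0 with hp
  set m := (q u1).natDegree + wg e e' u1 with hm
  set G : FreeAlgebra k (Fin 2) := ∑ w ∈ q.support.filter (fun w => wg d d' w = p),
    (q w).coeff (m - wg e e' w) • wrd w with hG
  have hval : hc p ((q.sum fun w r => emb r * FreeMonoid.lift ![P, Q] w 1).coeff m) =
      FreeAlgebra.lift k ![h, h'] G := by
    rw [Finsupp.sum, finsetSum_coeff, map_sum, hG, map_sum, Finset.sum_filter]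
    refine Finset.sum_congr rfl fun w hw => ?_
    obtain ⟨s1, s2⟩ := sym_word hP hQ w
    split_ifs with hwp
    · rw [map_smul, lift_wrd, ← s2]
      have h3 := hmax w (Finset.mem_filter.mpr ⟨hw, hwp⟩)
      rw [hwp] at s1 ⊢
      exact emb_read s1 h3
    · have h4 := hmin w hw
      exact emb_low s1 (by omega) m
  rw [hval]
  intro h0
  have hG0 := hfree G h0
  have h5 := congrArg (wc u1) hG0
  rw [hG, map_sum, map_zero, Finset.sum_eq_single u1] at h5
  · rw [map_smul, wc_wrd_self, smul_eq_mul, mul_one, hm, Nat.add_sub_cancel] at h5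
    exact (Finsupp.mem_support_iff.mp hu1.1) (leadingCoeff_eq_zero.mp h5)
  · intro w _ hne
    rw [map_smul, wc_wrd_ne (Ne.symm hne), smul_zero]
  · intro h6
    exact absurd (Finset.mem_filter.mpr hu1) h6

end sym

end Pool.Agent.J4H43.FR
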