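import Pool.Agent.J4H43.FR.Fl

/-!
# A representation of the braid Lie algebra by triples
-/

set_option autoImplicit false
set_option linter.unusedSimpArgs false

namespace Pool.Agent.J4H43.FR

open Polynomial Pool.Agent.Helper392_GT

universe u v w

attribute [local instance 100] LieRing.ofAssociativeRing

section inter

variable {k : Type u} [Field k] {N : Type v} [AddCommGroup N] [Module k N]
  {N' : Type w} [AddCommGroup N'] [Module k N']

/-- intertwining maps -/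
theorem inter (J : N' →ₗ[k] N) {A B : Module.End k N} {A' B' : Module.End k N'}
    (hA : ∀ v, A (J v) = J (A' v)) (hB : ∀ v, B (J v) = J (B' v)) (ψ : F2 k) :
    ∀ v, subst k A B ψ (J v) = J (subst k A' B' ψ v) := by
  refine free_ind (fun ψ => ∀ v, subst k A B ψ (J v) = J (subst k A' B' ψ v)) ?_ ?_ ?_ ?_ ?_ ?_ ψ
  · intro v; simp
  · intro a b ha hb v
    rw [map_add (subst k A B), map_add (subst k A' B'), LinearMap.add_apply, LinearMap.add_apply,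
      ha, hb, map_add]
  · intro c a ha v
    rw [map_smul (subst k A B), map_smul (subst k A' B'), LinearMap.smul_apply,
      LinearMap.smul_apply, ha, map_smul]
  · intro a b ha hb v
    rw [LieHom.map_lie, LieHom.map_lie, Ring.lie_def, Ring.lie_def, LinearMap.sub_apply,
      LinearMap.sub_apply, Module.End.mul_apply, Module.End.mul_apply, Module.End.mul_apply,
      Module.End.mul_apply, ha, hb, ha, hb, map_sub]
  · intro v; rw [subst_x, subst_x]; exact hA v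
  · intro v; rw [subst_y, subst_y]; exact hB v

theorem stab (V : Submodule k N) {A B : Module.End k N} (hA : ∀ v ∈ V, A v ∈ V)
    (hB : ∀ v ∈ V, B v ∈ V) (ψ : F2 k) : ∀ v ∈ V, subst k A B ψ v ∈ V := by
  refine free_ind (fun ψ => ∀ v ∈ V, subst k A B ψ v ∈ V) ?_ ?_ ?_ ?_ ?_ ?_ ψ
  · intro v _; simp
  · intro a b ha hb v hv
    rw [map_add (subst k A B), LinearMap.add_apply]
    exact V.add_mem (ha v hv) (hb v hv)
  · intro c a ha v hv
    rw [map_smul (subst k A B), LinearMap.smul_apply]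
    exact V.smul_mem c (ha v hv)
  · intro a b ha hb v hv
    rw [LieHom.map_lie, Ring.lie_def, LinearMap.sub_apply, Module.End.mul_apply,
      Module.End.mul_apply]
    exact V.sub_mem (ha _ (hb v hv)) (hb _ (ha v hv))
  · intro v hv; rw [subst_x]; exact hA v hv
  · intro v hv; rw [subst_y]; exact hB v hv

theorem subst_zero_left {g : Type*} [LieRing g] [LieAlgebra k g] {ψ : F2 k} (hψ : ψ ∈ D1 k)
    (b : g) : subst k 0 b ψ = 0 := by
  have h := subst_shift (k := k) (A := (0 : g)) (B := 0) (Z := 0) (W := b) (by simp) (by simp)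
    (by simp) (by simp) (by simp) hψ
  rw [zero_add, zero_add] at h
  rw [h]
  refine lie_ind ⊤ ⊤ (fun u => subst k (0 : g) 0 u = 0) ?_ ?_ ?_ ?_ hψ
  · simp
  · intro a b ha hb
    rw [map_add, ha, hb, add_zero]
  · intro c a ha
    rw [map_smul, ha, smul_zero]
  · intro a _ b _
    have h0 : ∀ u : F2 k, subst k (0 : g) 0 u = 0 := by
      intro u
      have : subst k (0 : g) 0 = 0 := by
        ext i; fin_cases i <;> simp [subst]
      rw [this]; rfl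
    exact h0 _

end inter

section t4r

variable {k : Type u} [Field k] {N : Type v} [AddCommGroup N] [Module k N]
  (x1 x2 y1 y2 : Module.End k N)

/-- first projection -/
abbrev p1 (k : Type u) [Field k] (N : Type v) [AddCommGroup N] [Module k N] :
    (N × N × N) →ₗ[k] N := LinearMap.fst k N (N × N)

/-- second projection -/
abbrev p2 (k : Type u) [Field k] (N : Type v) [AddCommGroup N] [Module k N] :
    (N × N × N) →ₗ[k] N := LinearMap.fst k N N ∘ₗ LinearMap.snd k N (N × N)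

/-- third projection -/
abbrev p3 (k : Type u) [Field k] (N : Type v) [AddCommGroup N] [Module k N] :
    (N × N × N) →ₗ[k] N := LinearMap.snd k N N ∘ₗ LinearMap.snd k N (N × N)

noncomputable def Y1 : Module.End k (N × N × N) :=
  ((x1 + x2) ∘ₗ p1 k N).prod ((y1 ∘ₗ p1 k N).prod (y2 ∘ₗ p1 k N))
noncomputable def Y2 : Module.End k (N × N × N) :=
  ((x1 + x2) ∘ₗ p2 k N).prod ((y1 ∘ₗ p2 k N).prod (y2 ∘ₗ p2 k N))
noncomputable def Y3 : Module.End k (N × N × N) :=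
  (0 : (N × N × N) →ₗ[k] N).prod ((y2 ∘ₗ p2 k N - y1 ∘ₗ p3 k N).prod
    (-(y2 ∘ₗ p2 k N - y1 ∘ₗ p3 k N)))
noncomputable def Y4 : Module.End k (N × N × N) :=
  (x2 ∘ₗ p1 k N).prod ((x2 ∘ₗ p2 k N).prod
    (y2 ∘ₗ p1 k N + y2 ∘ₗ p2 k N - x1 ∘ₗ p3 k N - y1 ∘ₗ p3 k N))
noncomputable def Y5 : Module.End k (N × N × N) :=
  ((x1 + x2) ∘ₗ (p2 k N + p3 k N)).prod (((y1 + y2) ∘ₗ p2 k N).prod ((y1 + y2) ∘ₗ p3 k N))

theorem Y1_apply (v : N × N × N) : Y1 x1 x2 y1 y2 v = (x1 v.1 + x2 v.1, y1 v.1, y2 v.1) := rfl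
theorem Y2_apply (v : N × N × N) :
    Y2 x1 x2 y1 y2 v = (x1 v.2.1 + x2 v.2.1, y1 v.2.1, y2 v.2.1) := rfl
theorem Y3_apply (v : N × N × N) :
    Y3 y1 y2 v = (0, y2 v.2.1 - y1 v.2.2, -(y2 v.2.1 - y1 v.2.2)) := rfl
theorem Y4_apply (v : N × N × N) :
    Y4 x1 x2 y1 y2 v = (x2 v.1, x2 v.2.1, y2 v.1 + y2 v.2.1 - x1 v.2.2 - y1 v.2.2) := rfl
theorem Y5_apply (v : N × N × N) :
    Y5 x1 x2 y1 y2 v = (x1 (v.2.1 + v.2.2) + x2 (v.2.1 + v.2.2), y1 v.2.1 + y2 v.2.1,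
      y1 v.2.2 + y2 v.2.2) := rfl

variable {x1 x2 y1 y2}

theorem five_rep (hx : ∀ v, x2 (x1 v) = x1 (x2 v)) (hy : ∀ v, y2 (y1 v) = y1 (y2 v))
    (hxy : ∀ v, y2 (x1 v) = x1 (y2 v)) (hyx : ∀ v, x2 (y1 v) = y1 (x2 v))
    {ψ : F2 k} (hp : Pentagon k ψ) (hψ : ψ ∈ D1 k) :
    subst k (Y1 x1 x2 y1 y2) (Y5 x1 x2 y1 y2) ψ + subst k (Y4 x1 x2 y1 y2) (Y3 y1 y2) ψ
      = subst k (Y2 x1 x2 y1 y2) (Y3 y1 y2) ψ + subst k (Y4 x1 x2 y1 y2) (Y5 x1 x2 y1 y2) ψ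
        + subst k (Y1 x1 x2 y1 y2) (Y2 x1 x2 y1 y2) ψ := by
  apply five hp hψ
  · refine LinearMap.ext fun v => Prod.ext ?_ (Prod.ext ?_ ?_) <;>
    simp only [Ring.lie_def, LinearMap.sub_apply, Module.End.mul_apply, LinearMap.zero_apply,
      Prod.fst_sub, Prod.snd_sub, Prod.fst_zero, Prod.snd_zero, Y1_apply, Y3_apply, map_add,
      map_sub, map_neg, map_zero, hx, hy, hxy, hyx] <;> abel
  · refine LinearMap.ext fun v => Prod.ext ?_ (Prod.ext ?_ ?_) <;>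
    simp only [Ring.lie_def, LinearMap.sub_apply, Module.End.mul_apply, LinearMap.zero_apply,
      Prod.fst_sub, Prod.snd_sub, Prod.fst_zero, Prod.snd_zero, Y2_apply, Y4_apply, map_add,
      map_sub, map_neg, map_zero, hx, hy, hxy, hyx] <;> abel
  · refine LinearMap.ext fun v => Prod.ext ?_ (Prod.ext ?_ ?_) <;>
    simp only [Ring.lie_def, LinearMap.sub_apply, Module.End.mul_apply, LinearMap.zero_apply,
      Prod.fst_sub, Prod.snd_sub, Prod.fst_zero, Prod.snd_zero, Y3_apply, Y5_apply, map_add,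
      map_sub, map_neg, map_zero, hx, hy, hxy, hyx] <;> abel
  · refine LinearMap.ext fun v => Prod.ext ?_ (Prod.ext ?_ ?_) <;>
    simp only [Ring.lie_def, LinearMap.sub_apply, Module.End.mul_apply, LinearMap.zero_apply,
      Prod.fst_sub, Prod.snd_sub, Prod.fst_zero, Prod.snd_zero, Y1_apply, Y4_apply, map_add,
      map_sub, map_neg, map_zero, hx, hy, hxy, hyx] <;> abel
  · refine LinearMap.ext fun v => Prod.ext ?_ (Prod.ext ?_ ?_) <;>
    simp only [Ring.lie_def, LinearMap.sub_apply, Module.End.mul_apply, LinearMap.zero_apply,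
      Prod.fst_sub, Prod.snd_sub, Prod.fst_zero, Prod.snd_zero, Y2_apply, Y5_apply, map_add,
      map_sub, map_neg, map_zero, hx, hy, hxy, hyx] <;> abel
  · refine LinearMap.ext fun v => Prod.ext ?_ (Prod.ext ?_ ?_) <;>
    simp only [Ring.lie_def, LinearMap.sub_apply, LinearMap.add_apply, Module.End.mul_apply,
      LinearMap.zero_apply, Prod.fst_add, Prod.snd_add,
      Prod.fst_sub, Prod.snd_sub, Prod.fst_zero, Prod.snd_zero, Y1_apply, Y2_apply, Y3_apply,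
      Y4_apply, Y5_apply, map_add,
      map_sub, map_neg, map_zero, hx, hy, hxy, hyx] <;> abel

/-- the filtration on triples -/
def F3 (F : ℕ → Submodule k N) (n : ℕ) : Submodule k (N × N × N) :=
  (F (n - 1)).prod ((F n).prod (F n))

theorem mem_F3 {F : ℕ → Submodule k N} {n : ℕ} {v : N × N × N} :
    v ∈ F3 F n ↔ v.1 ∈ F (n - 1) ∧ v.2.1 ∈ F n ∧ v.2.2 ∈ F n := Iff.rfl

theorem F3_anti {F : ℕ → Submodule k N} (hF : Antitone F) : Antitone (F3 F) := by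
  intro n m h v hv
  exact ⟨hF (by omega) hv.1, hF h hv.2.1, hF h hv.2.2⟩

variable {F : ℕ → Submodule k N}

theorem Rs_Y2 (hx1 : Rs F 0 x1) (hx2 : Rs F 0 x2) (hy1 : Rs F 1 y1) (hy2 : Rs F 1 y2) :
    Rs (F3 F) 1 (Y2 x1 x2 y1 y2) := by
  intro n v hv
  rw [mem_F3, Y2_apply]
  refine ⟨?_, hy1 n _ hv.2.1, hy2 n _ hv.2.1⟩
  rw [Nat.add_sub_cancel]
  exact (F n).add_mem (hx1 n _ hv.2.1) (hx2 n _ hv.2.1)

theorem Rs_Y3 (hy1 : Rs F 1 y1) (hy2 : Rs F 1 y2) :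
    Rs (F3 F) 1 (Y3 y1 y2) := by
  intro n v hv
  rw [mem_F3, Y3_apply]
  have h : y2 v.2.1 - y1 v.2.2 ∈ F (n + 1) := (F (n + 1)).sub_mem (hy2 n _ hv.2.1) (hy1 n _ hv.2.2)
  exact ⟨Submodule.zero_mem _, h, (F (n + 1)).neg_mem h⟩

theorem Rs_Y4 (hF : Antitone F) (hx1 : Rs F 0 x1) (hx2 : Rs F 0 x2) (hy1 : Rs F 1 y1)
    (hy2 : Rs F 1 y2) : Rs (F3 F) 0 (Y4 x1 x2 y1 y2) := by
  intro n v hv
  rw [mem_F3, Y4_apply]
  refine ⟨hx2 _ _ hv.1, hx2 _ _ hv.2.1, ?_⟩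
  refine (F n).sub_mem ((F n).sub_mem ((F n).add_mem ?_ ?_) ?_) ?_
  · exact hF (by omega) (hy2 _ _ hv.1)
  · exact hF (by omega) (hy2 _ _ hv.2.1)
  · exact hx1 _ _ hv.2.2
  · exact hF (by omega) (hy1 _ _ hv.2.2)

/-- the leading part -/
noncomputable def Y0 (x1 x2 y2 : Module.End k N) : Module.End k (N × N × N) :=
  (x2 ∘ₗ p1 k N).prod ((x2 ∘ₗ p2 k N).prod (y2 ∘ₗ p1 k N - x1 ∘ₗ p3 k N))

theorem Y0_apply (v : N × N × N) :
    Y0 x1 x2 y2 v = (x2 v.1, x2 v.2.1, y2 v.1 - x1 v.2.2) := rfl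

theorem Rs_Y0 (hF : Antitone F) (hx1 : Rs F 0 x1) (hx2 : Rs F 0 x2)
    (hy2 : Rs F 1 y2) : Rs (F3 F) 0 (Y0 x1 x2 y2) := by
  intro n v hv
  rw [mem_F3, Y0_apply]
  refine ⟨hx2 _ _ hv.1, hx2 _ _ hv.2.1, ?_⟩
  refine (F n).sub_mem ?_ ?_
  · exact hF (by omega) (hy2 _ _ hv.1)
  · exact hx1 _ _ hv.2.2

theorem Rs_Y40 (hy1 : Rs F 1 y1) (hy2 : Rs F 1 y2) :
    Rs (F3 F) 1 (Y4 x1 x2 y1 y2 - Y0 x1 x2 y2) := by
  intro n v hv
  have e : (Y4 x1 x2 y1 y2 - Y0 x1 x2 y2) v = (0, 0, y2 v.2.1 - y1 v.2.2) := by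
    rw [LinearMap.sub_apply, Y4_apply, Y0_apply]
    refine Prod.ext ?_ (Prod.ext ?_ ?_)
    · exact sub_self _
    · exact sub_self _
    · change y2 v.1 + y2 v.2.1 - x1 v.2.2 - y1 v.2.2 - (y2 v.1 - x1 v.2.2) = y2 v.2.1 - y1 v.2.2
      abel
  rw [mem_F3, e]
  exact ⟨Submodule.zero_mem _, Submodule.zero_mem _,
    (F (n + 1)).sub_mem (hy2 n _ hv.2.1) (hy1 n _ hv.2.2)⟩

theorem key_eq (hx : ∀ v, x2 (x1 v) = x1 (x2 v)) (hy : ∀ v, y2 (y1 v) = y1 (y2 v))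
    (hxy : ∀ v, y2 (x1 v) = x1 (y2 v)) (hyx : ∀ v, x2 (y1 v) = y1 (x2 v))
    {ψ : F2 k} (hp : Pentagon k ψ) (hψ : ψ ∈ D1 k) {d : ℕ} (hd : DepthGE k d ψ)
    (hF : Antitone F) (hx1 : Rs F 0 x1) (hx2 : Rs F 0 x2) (hy1 : Rs F 1 y1) (hy2 : Rs F 1 y2)
    {v0 : N} (hv : v0 ∈ F 0) {V : Submodule k N} (hV : v0 ∈ V) (Vx1 : ∀ v ∈ V, x1 v ∈ V)
    (Vx2 : ∀ v ∈ V, x2 v ∈ V) (Vy1 : ∀ v ∈ V, y1 v ∈ V) :
    ∃ f ∈ F (d + 1), ∃ g ∈ V, (subst k (Y0 x1 x2 y2) (Y3 y1 y2) ψ (0, v0, -v0)).2.1 =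
      subst k x2 y2 ψ v0 + g + f := by
  have h5 := congrArg (fun T : Module.End k (N × N × N) => (T (0, v0, -v0)).2.1)
    (five_rep hx hy hxy hyx hp hψ)
  simp only [LinearMap.add_apply, Prod.snd_add, Prod.fst_add] at h5
  -- the first term
  have t1 : (subst k (Y1 x1 x2 y1 y2) (Y5 x1 x2 y1 y2) ψ (0, v0, -v0)).2.1 = 0 := by
    let J : N →ₗ[k] (N × N × N) :=
      (0 : N →ₗ[k] N).prod ((LinearMap.id : N →ₗ[k] N).prod (-(LinearMap.id : N →ₗ[k] N)))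
    have hJ : ∀ v, J v = (0, v, -v) := fun v => rfl
    have h := inter J (A := Y1 x1 x2 y1 y2) (B := Y5 x1 x2 y1 y2) (A' := (0 : Module.End k N))
      (B' := y1 + y2) (by
        intro v
        rw [hJ, Y1_apply, LinearMap.zero_apply, map_zero]
        simp) (by
        intro v
        rw [hJ, Y5_apply, hJ]
        simp only [LinearMap.add_apply, add_neg_cancel, map_zero, add_zero, map_neg]
        refine Prod.ext rfl (Prod.ext rfl ?_)
        change -y1 v + -y2 v = -(y1 v + y2 v)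
        abel) ψ v0
    rw [hJ, subst_zero_left hψ, LinearMap.zero_apply, map_zero] at h
    rw [h]; rfl
  -- the fourth term
  have t4 : (subst k (Y4 x1 x2 y1 y2) (Y5 x1 x2 y1 y2) ψ (0, v0, -v0)).2.1 =
      subst k x2 y2 ψ v0 := by
    have h := inter (p2 k N) (A := x2) (B := y2 + y1) (A' := Y4 x1 x2 y1 y2)
      (B' := Y5 x1 x2 y1 y2) (fun v => rfl) (by
        intro v
        change y2 v.2.1 + y1 v.2.1 = y1 v.2.1 + y2 v.2.1
        rw [add_comm]) ψ (0, v0, -v0)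
    have h2 : subst k x2 (y2 + y1) ψ = subst k x2 y2 ψ := by
      have := subst_shift (k := k) (A := x2) (B := y2) (Z := (0 : Module.End k N)) (W := y1)
        (by simp) (by simp)
        (by
          rw [Ring.lie_def]
          refine LinearMap.ext fun v => ?_
          rw [LinearMap.sub_apply, Module.End.mul_apply, Module.End.mul_apply, hyx]
          simp)
        (by
          rw [Ring.lie_def]
          refine LinearMap.ext fun v => ?_
          rw [LinearMap.sub_apply, Module.End.mul_apply, Module.End.mul_apply, hy]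
          simp) (by simp) hψ
      rw [add_zero] at this
      exact this
    rw [h2] at h
    exact h.symm
  -- the fifth term
  have t5 : (subst k (Y1 x1 x2 y1 y2) (Y2 x1 x2 y1 y2) ψ (0, v0, -v0)).2.1 ∈ V := by
    have hT : ∀ v : N × N × N, v ∈ (V.prod (V.prod ⊤) : Submodule k (N × N × N)) ↔
        v.1 ∈ V ∧ v.2.1 ∈ V ∧ v.2.2 ∈ (⊤ : Submodule k N) := fun v => Iff.rfl
    have h := stab (V.prod (V.prod ⊤) : Submodule k (N × N × N)) (A := Y1 x1 x2 y1 y2)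
      (B := Y2 x1 x2 y1 y2)
      (by
        intro v hv
        rw [hT] at hv ⊢
        exact ⟨V.add_mem (Vx1 _ hv.1) (Vx2 _ hv.1), Vy1 _ hv.1, trivial⟩)
      (by
        intro v hv
        rw [hT] at hv ⊢
        exact ⟨V.add_mem (Vx1 _ hv.2.1) (Vx2 _ hv.2.1), Vy1 _ hv.2.1, trivial⟩) ψ
      (0, v0, -v0) ⟨V.zero_mem, hV, trivial⟩
    exact h.2.1
  have hs : ((0, v0, -v0) : N × N × N) ∈ F3 F 0 := ⟨Submodule.zero_mem _, hv, (F 0).neg_mem hv⟩
  -- the third term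
  have t3 : (subst k (Y2 x1 x2 y1 y2) (Y3 y1 y2) ψ (0, v0, -v0)).2.1 ∈ F (d + 1) := by
    have h := Rs_subst_succ (F3_anti hF) hd hψ (Rs_Y2 hx1 hx2 hy1 hy2) (Rs_Y3 hy1 hy2) 0 _ hs
    rw [zero_add] at h
    exact h.2.1
  -- the second term
  have t2 : (subst k (Y4 x1 x2 y1 y2) (Y3 y1 y2) ψ (0, v0, -v0)).2.1 -
      (subst k (Y0 x1 x2 y2) (Y3 y1 y2) ψ (0, v0, -v0)).2.1 ∈ F (d + 1) := by
    have h := Rs_subst_sub (F3_anti hF) hd (Rs_Y4 hF hx1 hx2 hy1 hy2) (Rs_Y0 hF hx1 hx2 hy2)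
      (Rs_Y40 (x1 := x1) (x2 := x2) hy1 hy2) (Rs_Y3 hy1 hy2) 0 _ hs
    rw [zero_add] at h
    exact h.2.1
  rw [t1, t4, zero_add] at h5
  refine ⟨_, (F (d + 1)).sub_mem t3 t2, _, t5, ?_⟩
  rw [h5]
  abel

end t4r

end Pool.Agent.J4H43.FR
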