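import Pool.Agent.J4H43.FR.PrimA

/-!
# Invariance under translations
-/

set_option autoImplicit false

namespace Pool.Agent.J4H43.FR

open Polynomial Pool.Agent.Helper392_GT

universe u v w

attribute [local instance 100] LieRing.ofAssociativeRing

section trans

variable {k : Type u} [Field k]

/-- dual numbers version of the derivation `e_a ↦ a e_{a-1}` -/
noncomputable def pdA : BB k →ₐ[k] (BB k)[X] :=
  FreeAlgebra.lift k (fun a => C (ee k a) + X * C ((a : k) • ee k (a - 1)))

theorem pdA_ι (a : ℕ) : pdA (ee k a) = C (ee k a) + X * C ((a : k) • ee k (a - 1)) := by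
  rw [pdA, FreeAlgebra.lift_ι_apply]

theorem pdA_zero (b : BB k) : (pdA b).coeff 0 = b := by
  refine left_ind (fun b => (pdA b).coeff 0 = b) ?_ ?_ ?_ ?_ b
  · rw [map_one, coeff_one_zero]
  · intro a b ha hb
    rw [map_add, coeff_add, ha, hb]
  · intro c a ha
    rw [map_smul, coeff_smul, ha]
  · intro y a ha
    rw [map_mul, mul_coeff_zero, ha, pdA_ι, coeff_add, coeff_C_zero, coeff_X_mul_zero, add_zero]

/-- the derivation `e_a ↦ a e_{a-1}` -/
noncomputable def pd : BB k →ₗ[k] BB k where
  toFun b := (pdA b).coeff 1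
  map_add' a b := by rw [map_add, coeff_add]
  map_smul' c a := by rw [map_smul, coeff_smul, RingHom.id_apply]

theorem pd_apply (b : BB k) : pd b = (pdA b).coeff 1 := rfl

theorem pd_one : pd (1 : BB k) = 0 := by
  rw [pd_apply, map_one, coeff_one, if_neg (by omega)]

theorem pd_ι_mul (a : ℕ) (b : BB k) : pd (ee k a * b) =
    (a : k) • (ee k (a - 1) * b) + ee k a * pd b := by
  rw [pd_apply, map_mul, mul_coeff_one, pdA_zero, pdA_zero, pdA_ι, coeff_add, coeff_C_succ,
    zero_add, coeff_X_mul, coeff_C_zero, smul_mul_assoc, add_comm]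
  rfl

theorem hc_pd (b : BB k) : ∀ n, hc n (pd b) = pd (hc n b) := by
  refine left_ind (fun b => ∀ n, hc n (pd b) = pd (hc n b)) ?_ ?_ ?_ ?_ b
  · intro n
    rw [pd_one, map_zero, hc_one]
    split_ifs
    · rw [pd_one]
    · rw [map_zero]
  · intro a b ha hb n
    rw [map_add, map_add, ha, hb, map_add, map_add]
  · intro c a ha n
    rw [map_smul, map_smul, ha, map_smul, map_smul]
  · intro y a ha n
    rw [pd_ι_mul, map_add, map_smul]
    cases n with
    | zero =>
      rw [hc_zero_ι_mul, hc_zero_ι_mul, hc_zero_ι_mul, map_zero, smul_zero, add_zero]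
    | succ n =>
      rw [hc_ι_mul, hc_ι_mul, hc_ι_mul, pd_ι_mul, ha]

/-- coefficientwise application -/
noncomputable def cq (T : BB k →ₗ[k] BB k) : Module.End k (BB k)[X] :=
  Polynomial.lsum (fun a => mo a ∘ₗ T)

theorem cq_monomial (T : BB k →ₗ[k] BB k) (n : ℕ) (c : BB k) :
    cq T (monomial n c) = monomial n (T c) := by
  change (monomial n c).sum _ = _
  rw [sum_monomial_index]
  · rfl
  · rw [map_zero]

theorem cq_coeff (T : BB k →ₗ[k] BB k) (F : (BB k)[X]) (a : ℕ) :
    (cq T F).coeff a = T (F.coeff a) := by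
  induction F using Polynomial.induction_on' with
  | add p q hp hq => rw [map_add, coeff_add, hp, hq, coeff_add, map_add]
  | monomial n c =>
    rw [cq_monomial, coeff_monomial, coeff_monomial]
    split_ifs
    · rfl
    · rw [map_zero]

/-- the derivation `d/dz + pd` -/
noncomputable def dd : Module.End k (BB k)[X] where
  toFun F := derivative F + cq pd F
  map_add' F G := by rw [map_add, map_add]; abel
  map_smul' c F := by
    rw [derivative_smul, map_smul, RingHom.id_apply, smul_add]

theorem dd_apply (F : (BB k)[X]) : dd F = derivative F + cq pd F := rfl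

theorem dd_coeff (F : (BB k)[X]) (a : ℕ) :
    (dd F).coeff a = ((a : k) + 1) • F.coeff (a + 1) + pd (F.coeff a) := by
  rw [dd_apply, coeff_add, cq_coeff, coeff_derivative, Algebra.smul_def, map_add, map_one,
    map_natCast, (Nat.cast_commute a _).add_left (Commute.one_left _)]

theorem dd_one : dd (1 : (BB k)[X]) = 0 := by
  ext a
  rw [dd_coeff, coeff_one, coeff_one, if_neg (by omega), smul_zero, zero_add, coeff_zero]
  split_ifs
  · exact pd_one
  · exact map_zero _

theorem dd_x (F : (BB k)[X]) : dd (xh F) = xh (dd F) + F := by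
  ext a
  rw [xh_apply, xh_apply, coeff_add, dd_coeff, coeff_X_mul]
  cases a with
  | zero => rw [coeff_X_mul_zero, coeff_X_mul_zero, map_zero, Nat.cast_zero, zero_add, one_smul,
      add_zero, zero_add]
  | succ a =>
    rw [coeff_X_mul, coeff_X_mul, dd_coeff, add_smul, one_smul, Nat.cast_add, Nat.cast_one]
    abel

theorem dd_y (F : (BB k)[X]) : dd (yh F) = yh (dd F) := by
  induction F using Polynomial.induction_on' with
  | add p q hp hq => rw [map_add, map_add, hp, hq, map_add, map_add]
  | monomial n c =>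
    have h1 : dd (monomial n c) = (n : k) • monomial (n - 1) c + monomial n (pd c) := by
      rw [dd_apply, cq_monomial, derivative_monomial]
      congr 1
      rw [smul_monomial, Algebra.smul_def, map_natCast, (Nat.cast_commute n c).symm.eq]
    rw [h1, yh_apply, yh_apply, map_add, map_smul, kap_monomial, kap_monomial, kap_monomial]
    ext a
    rw [dd_coeff, coeff_C_succ, smul_zero, zero_add, coeff_C, coeff_C]
    split_ifs
    · rw [pd_ι_mul]
    · rw [map_zero]

theorem dd_subst (u : F2 k) : ∃ c : k, ∀ F, dd (subst k (xh : Module.End k (BB k)[X]) yh u F) =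
    subst k (xh : Module.End k (BB k)[X]) yh u (dd F) + c • F := by
  refine free_ind (fun u => ∃ c : k, ∀ F, dd (subst k (xh : Module.End k (BB k)[X]) yh u F) =
    subst k (xh : Module.End k (BB k)[X]) yh u (dd F) + c • F) ?_ ?_ ?_ ?_ ?_ ?_ u
  · refine ⟨0, fun F => ?_⟩
    rw [map_zero (subst k (xh : Module.End k (BB k)[X]) yh), LinearMap.zero_apply, map_zero,
      LinearMap.zero_apply, zero_smul, add_zero]
  · rintro a b ⟨c, hc⟩ ⟨d, hd⟩
    refine ⟨c + d, fun F => ?_⟩
    rw [map_add (subst k (xh : Module.End k (BB k)[X]) yh), LinearMap.add_apply, map_add, hc, hd,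
      LinearMap.add_apply, add_smul]
    abel
  · rintro r a ⟨c, hc⟩
    refine ⟨r * c, fun F => ?_⟩
    rw [map_smul (subst k (xh : Module.End k (BB k)[X]) yh), LinearMap.smul_apply, map_smul, hc,
      LinearMap.smul_apply, smul_add, mul_smul]
  · rintro a b ⟨c, hc⟩ ⟨d, hd⟩
    refine ⟨0, fun F => ?_⟩
    rw [LieHom.map_lie, Ring.lie_def, LinearMap.sub_apply, LinearMap.sub_apply,
      Module.End.mul_apply, Module.End.mul_apply, Module.End.mul_apply, Module.End.mul_apply,
      map_sub, hc, hd, hd, hc, map_add, map_add, map_smul, map_smul, zero_smul]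
    abel
  · refine ⟨1, fun F => ?_⟩
    rw [subst_x, dd_x, one_smul]
  · refine ⟨0, fun F => ?_⟩
    rw [subst_y, dd_y, zero_smul, add_zero]

theorem dd_subst_D1 {u : F2 k} (hu : u ∈ D1 k) : ∀ F,
    dd (subst k (xh : Module.End k (BB k)[X]) yh u F) =
      subst k (xh : Module.End k (BB k)[X]) yh u (dd F) := by
  refine lie_ind ⊤ ⊤ (fun u => ∀ F, dd (subst k (xh : Module.End k (BB k)[X]) yh u F) =
    subst k (xh : Module.End k (BB k)[X]) yh u (dd F)) ?_ ?_ ?_ ?_ hu
  · intro F
    rw [map_zero (subst k (xh : Module.End k (BB k)[X]) yh), LinearMap.zero_apply, map_zero,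
      LinearMap.zero_apply]
  · intro a b ha hb F
    rw [map_add (subst k (xh : Module.End k (BB k)[X]) yh), LinearMap.add_apply, map_add, ha, hb,
      LinearMap.add_apply]
  · intro r a ha F
    rw [map_smul (subst k (xh : Module.End k (BB k)[X]) yh), LinearMap.smul_apply, map_smul, ha,
      LinearMap.smul_apply]
  · intro a _ b _ F
    obtain ⟨c, hc⟩ := dd_subst a
    obtain ⟨d, hd⟩ := dd_subst b
    rw [LieHom.map_lie, Ring.lie_def, LinearMap.sub_apply, LinearMap.sub_apply,
      Module.End.mul_apply, Module.End.mul_apply, Module.End.mul_apply, Module.End.mul_apply,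
      map_sub, hc, hd, hd, hc, map_add, map_add, map_smul, map_smul]
    abel

/-- the leading coefficients are related by the derivation -/
theorem trans_lead {ψ : F2 k} (hψ : ψ ∈ D1 k) (d a : ℕ) :
    ((a : k) + 1) • hc d ((Ph ψ).coeff (a + 1)) = -pd (hc d ((Ph ψ).coeff a)) := by
  have h1 : dd (Ph ψ) = 0 := by
    rw [Ph, dd_subst_D1 hψ, dd_one, map_zero]
  have h2 := congrArg (fun F => hc d (F.coeff a)) h1
  simp only [dd_coeff, coeff_zero, map_zero, map_add, map_smul, hc_pd] at h2
  exact eq_neg_of_add_eq_zero_left h2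

end trans

end Pool.Agent.J4H43.FR
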